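import Pool.Agent.Lib_MP_4776c2.Final

set_option autoImplicit false

namespace Pool.Agent.Lib_MP_4776c2

universe u v w

open Module

section Transfer

variable {G : Type u} {H : Type v} [Group G] [Group H] (p : ℕ)

theorem frobHyp_of_injective (φ : G →* H) (hφ : Function.Injective φ) (h : FrobHyp H p) :
    FrobHyp G p := by
  intro Q hQ y hy hyo x hx
  have h1 := h (Q.map φ) (hQ.map _) (φ y) (by
    rw [Subgroup.mem_normalizer_iff]
    intro z
    constructor
    · rintro ⟨w, hw, rfl⟩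
      exact ⟨y * w * y⁻¹, (Subgroup.mem_normalizer_iff.1 hy w).1 hw, by simp⟩
    · rintro ⟨w, hw, hwz⟩
      refine ⟨y⁻¹ * w * y, ?_, ?_⟩
      · apply (Subgroup.mem_normalizer_iff.1 hy _).2
        have : y * (y⁻¹ * w * y) * y⁻¹ = w := by group
        rw [this]; exact hw
      · rw [map_mul, map_mul, hwz, map_inv]; group) (by rwa [orderOf_injective φ hφ]) (φ x) ⟨x, hx, rfl⟩
  apply hφ
  rw [map_mul, map_mul, h1]

end Transfer

section Centre

variable (S : Type u) [NonAssocRing S]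

/-- The endomorphisms given by the multiplications with the elements of the centre. -/
def Dc : Subring (AddMonoid.End S) := Dl S ⊓ Dr S

theorem card_Dc : Nat.card (Dc S) = Nat.card (Subring.center S) := by
  apply Nat.card_congr
  refine
    { toFun := fun f => ⟨f.1 1, ?_⟩
      invFun := fun a => ⟨Ld a.1, ?_, ?_⟩
      left_inv := fun f => ?_
      right_inv := fun a => Subtype.ext (mul_one a.1) }
  · have hl : f.1 ∈ Dl S := f.2.1
    have hr : f.1 ∈ Dr S := f.2.2
    refine ⟨fun a => ?_, fun b c => ?_, fun a b => ?_⟩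
    · show f.1 1 * a = a * f.1 1
      rw [← Dl_apply hl, ← Dr_apply hr]
    · rw [← Dl_apply hl, ← Dl_apply hl, hl]
    · rw [← Dr_apply hr, ← Dr_apply hr, hr]
  · intro x y
    exact IsMulCentral.left_assoc a.2 x y
  · intro x y
    exact IsMulCentral.left_comm a.2 x y
  · apply Subtype.ext
    ext x
    exact (Dl_apply f.2.1 x).symm

/-- The autotopisms `(x ↦ a x, id, x ↦ a x)`, `a` in the centre. -/
def Zc : Subgroup (autotopismGroup S) where
  carrier := {t | t ∈ (pV S).ker ∧ ∀ x y : S, t.1.1 (x * y) = x * t.1.1 y}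
  mul_mem' := by
    rintro a b ⟨ha, ha'⟩ ⟨hb, hb'⟩
    refine ⟨(pV S).ker.mul_mem ha hb, fun x y => ?_⟩
    show a.1.1 (b.1.1 (x * y)) = x * a.1.1 (b.1.1 y)
    rw [hb', ha']
  one_mem' := ⟨(pV S).ker.one_mem, fun x y => rfl⟩
  inv_mem' := by
    rintro a ⟨ha, ha'⟩
    refine ⟨(pV S).ker.inv_mem ha, fun x y => ?_⟩
    show a.1.1⁻¹ (x * y) = x * a.1.1⁻¹ y
    apply a.1.1.injective
    have e1 : ∀ x, a.1.1 (a.1.1⁻¹ x) = x := fun x => a.1.1.apply_symm_apply x
    rw [e1, ha', e1]

variable {S}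

theorem Zc_first_eq_third (t : autotopismGroup S) (ht : t ∈ (pV S).ker) (x : S) :
    t.1.1 x = t.1.2.2 x := by
  have h1 := mem_pV_ker t ht
  have := t.2.2.2.2 x 1
  rwa [h1, mul_one, mul_one] at this

theorem Zc_normal : (Zc S).Normal := by
  constructor
  rintro t ⟨ht, ht'⟩ g
  have hk : g * t * g⁻¹ ∈ (pV S).ker := (MonoidHom.normal_ker (pV S)).conj_mem t ht g
  refine ⟨hk, ?_⟩
  set s := g * t * g⁻¹ with hs
  have eF : ∀ x, g.1.1 (g.1.1⁻¹ x) = x := fun x => g.1.1.apply_symm_apply x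
  have eG : ∀ x, g.1.2.1 (g.1.2.1⁻¹ x) = x := fun x => g.1.2.1.apply_symm_apply x
  have eH : ∀ x, g.1.2.2⁻¹ (g.1.2.2 x) = x := fun x => g.1.2.2.symm_apply_apply x
  have hs3 : ∀ x, s.1.2.2 x = g.1.2.2 (t.1.2.2 (g.1.2.2⁻¹ x)) := fun x => rfl
  -- `x β(y) = γ(x y)` with `β = G t G⁻¹`
  have hβ : ∀ x y : S, x * g.1.2.1 (t.1.1 (g.1.2.1⁻¹ y)) = s.1.2.2 (x * y) := by
    intro x y
    have h1 : g.1.1 (g.1.1⁻¹ x) * g.1.2.1 (t.1.1 (g.1.2.1⁻¹ y))
        = g.1.2.2 (g.1.1⁻¹ x * t.1.1 (g.1.2.1⁻¹ y)) := g.2.2.2.2 _ _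
    have h2 : g.1.1 (g.1.1⁻¹ x) * g.1.2.1 (g.1.2.1⁻¹ y) = g.1.2.2 (g.1.1⁻¹ x * g.1.2.1⁻¹ y) :=
      g.2.2.2.2 _ _
    rw [eF] at h1
    rw [eF, eG] at h2
    rw [h1, hs3, h2, eH, ← ht', Zc_first_eq_third t ht]
  have hα : ∀ x y : S, s.1.1 x * y = s.1.2.2 (x * y) := by
    intro x y
    have h1 := s.2.2.2.2 x y
    rwa [mem_pV_ker s hk] at h1
  have hαγ : ∀ x, s.1.1 x = s.1.2.2 x := fun x => Zc_first_eq_third s hk x
  have hβγ : ∀ y, g.1.2.1 (t.1.1 (g.1.2.1⁻¹ y)) = s.1.2.2 y := by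
    intro y
    have := hβ 1 y
    rwa [one_mul, one_mul] at this
  intro x y
  rw [hαγ, hαγ, ← hβγ y, hβ]

variable [Finite S] [NoZeroDivisors S] [Nontrivial S]

theorem Zc_cyclic : IsCyclic (Zc S) := by
  have := cyclic_l (S := S)
  have hle : Zc S ≤ (pV S).ker := fun t ht => ht.1
  exact isCyclic_of_injective (Subgroup.inclusion hle) (Subgroup.inclusion_injective hle)

variable {K : Type v} [Field K] [Module K S] [IsScalarTower K S S] [SMulCommClass K S S]

/-- Autotopisms centralising `Zc` are linear over every subfield of the centre. -/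
theorem linear_of_mem (g : autotopismGroup S) (hg : ∀ a ∈ Zc S, g * a = a * g) (k : K) :
    (∀ x, g.1.1 (k • x) = k • g.1.1 x) ∧ (∀ x, g.1.2.1 (k • x) = k • g.1.2.1 x) ∧
      (∀ x, g.1.2.2 (k • x) = k • g.1.2.2 x) := by
  by_cases hk : k = 0
  · subst hk
    refine ⟨fun x => ?_, fun x => ?_, fun x => ?_⟩
    · rw [zero_smul, zero_smul]; exact perm_zero _ g.2.1
    · rw [zero_smul, zero_smul]; exact perm_zero _ g.2.2.1
    · rw [zero_smul, zero_smul]; exact perm_zero _ g.2.2.2.1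
  · let f : Equiv.Perm S := (LinearEquiv.smulOfNeZero K S k hk).toEquiv
    have hf : ∀ x, f x = k • x := fun x => rfl
    have hmem : (f, (1 : Equiv.Perm S), f) ∈ autotopismGroup S :=
      ⟨fun x y => smul_add k x y, fun x y => rfl, fun x y => smul_add k x y,
        fun x y => smul_mul_assoc k x y⟩
    have hZ : (⟨_, hmem⟩ : autotopismGroup S) ∈ Zc S := by
      refine ⟨rfl, fun x y => ?_⟩
      show k • (x * y) = x * (k • y)
      rw [mul_smul_comm]
    have hcomm := hg _ hZ
    have h1 : ∀ x, g.1.1 (k • x) = k • g.1.1 x := fun x =>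
      congrArg (fun t : autotopismGroup S => t.1.1 x) hcomm
    have h3 : ∀ x, g.1.2.2 (k • x) = k • g.1.2.2 x := fun x =>
      congrArg (fun t : autotopismGroup S => t.1.2.2 x) hcomm
    refine ⟨h1, fun y => ?_, h3⟩
    have e1 := g.2.2.2.2 1 (k • y)
    have e2 := g.2.2.2.2 1 y
    rw [mul_smul_comm, h3, ← e2, ← mul_smul_comm] at e1
    have h0 : g.1.1 1 ≠ 0 := by
      intro h
      have h4 : g.1.1 0 = 0 := perm_zero _ g.2.1
      exact one_ne_zero (g.1.1.injective (h.trans h4.symm))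
    have e3 : g.1.1 1 * (g.1.2.1 (k • y) - k • g.1.2.1 y) = 0 := by rw [mul_sub, e1, sub_self]
    exact sub_eq_zero.1 ((mul_eq_zero.1 e3).resolve_left h0)

theorem odd_by_solvable_centre (h : FrobHyp (LG K S) 2) :
    ∃ O : Subgroup (autotopismGroup S), O.Normal ∧ Odd (Nat.card O) ∧
      ∀ [O.Normal], Group.IsSolvable (autotopismGroup S ⧸ O) := by
  have h2p : Fact (Nat.Prime 2) := ⟨Nat.prime_two⟩
  have hn : (Zc S).Normal := Zc_normal
  set C : Subgroup (autotopismGroup S) := (MulAut.conjNormal (H := Zc S)).ker with hC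
  have hlin : ∀ g : C, ∀ k : K, _ := fun g k =>
    linear_of_mem (K := K) g.1 ((mem_conjNormal_ker (Zc S) g.1).1 g.2) k
  let le1 : C → (S ≃ₗ[K] S) := fun g =>
    { toFun := g.1.1.1
      invFun := g.1.1.1.symm
      left_inv := g.1.1.1.left_inv
      right_inv := g.1.1.1.right_inv
      map_add' := g.1.2.1
      map_smul' := fun k x => (hlin g k).1 x }
  let le2 : C → (S ≃ₗ[K] S) := fun g =>
    { toFun := g.1.1.2.1
      invFun := g.1.1.2.1.symm
      left_inv := g.1.1.2.1.left_inv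
      right_inv := g.1.1.2.1.right_inv
      map_add' := g.1.2.2.1
      map_smul' := fun k x => (hlin g k).2.1 x }
  let le3 : C → (S ≃ₗ[K] S) := fun g =>
    { toFun := g.1.1.2.2
      invFun := g.1.1.2.2.symm
      left_inv := g.1.1.2.2.left_inv
      right_inv := g.1.1.2.2.right_inv
      map_add' := g.1.2.2.2.1
      map_smul' := fun k x => (hlin g k).2.2 x }
  let φ : C →* LG K S :=
    { toFun := fun g => ⟨(le1 g, le2 g, le3 g), fun x y => g.1.2.2.2.2 x y⟩
      map_one' := rfl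
      map_mul' := fun _ _ => rfl }
  have hφ : Function.Injective φ := by
    intro a b hab
    apply Subtype.ext
    apply Subtype.ext
    refine Prod.ext (Equiv.ext fun x => ?_) (Prod.ext (Equiv.ext fun x => ?_) (Equiv.ext fun x => ?_))
    · exact congrArg (fun t : LG K S => t.1.1 x) hab
    · exact congrArg (fun t : LG K S => t.1.2.1 x) hab
    · exact congrArg (fun t : LG K S => t.1.2.2 x) hab
  have h1 : FrobHyp C 2 := frobHyp_of_injective 2 φ hφ h
  have h3 : HasNC C 2 := frobenius 2 (Nat.card C) C h1 rfl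
  exact odd_by_solvable C (solvable_quot_conjNormal (Zc S) Zc_cyclic) h3

variable (S) in
/-- Everything about the centre, as a field acting on `S`. -/
theorem exists_field : ∃ (K : Type u) (_ : Field K) (_ : Finite K) (_ : Module K S)
    (_ : IsScalarTower K S S) (_ : SMulCommClass K S S), Nat.card K = Nat.card (Subring.center S) := by
  have hfinE : Finite (AddMonoid.End S) :=
    Finite.of_injective (fun f : AddMonoid.End S => (f : S → S)) DFunLike.coe_injective
  let F : Field (Dc S) := (isField_of_inj (Dc S) (fun f hf h0 => Dl_inj f hf.1 h0)).toField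
  let M : Module (Dc S) S :=
    { smul := fun f x => f.1 x
      one_smul := fun x => rfl
      mul_smul := fun f g x => rfl
      smul_zero := fun f => map_zero f.1
      smul_add := fun f x y => map_add f.1 x y
      add_smul := fun f g x => rfl
      zero_smul := fun x => rfl }
  have t1 : IsScalarTower (Dc S) S S := ⟨fun f x y => (f.2.1 x y).symm⟩
  have t2 : SMulCommClass (Dc S) S S := ⟨fun f x y => f.2.2 x y⟩
  exact ⟨Dc S, F, inferInstance, M, t1, t2, card_Dc S⟩

end Centre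

end Pool.Agent.Lib_MP_4776c2
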