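import Pool.Agent.Lib_MP_4776c2.Inv

set_option autoImplicit false

namespace Pool.Agent.Lib_MP_4776c2

universe u v w

open Module

section Split

variable {K : Type v} [Field K] {V : Type u} [AddCommGroup V] [Module K V] [FiniteDimensional K V]

theorem finrank_split (h2 : (2 : K) ≠ 0) (f : V →ₗ[K] V) (hf : ∀ x, f (f x) = x)
    (U : Submodule K V) (hU : ∀ x ∈ U, f x ∈ U) :
    finrank K (U ⊓ End.eigenspace f 1 : Submodule K V) +
      finrank K (U ⊓ End.eigenspace f (-1) : Submodule K V) = finrank K U := by
  have h1 := Submodule.finrank_sup_add_finrank_inf_eq (U ⊓ End.eigenspace f 1) (U ⊓ End.eigenspace f (-1))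
  have hsup : (U ⊓ End.eigenspace f 1) ⊔ (U ⊓ End.eigenspace f (-1)) = U := by
    apply le_antisymm (sup_le inf_le_left inf_le_left)
    intro x hx
    have e : x = (2 : K)⁻¹ • (x + f x) + (2 : K)⁻¹ • (x - f x) := by
      rw [← smul_add, add_add_sub_cancel, ← two_smul K x, smul_smul, inv_mul_cancel₀ h2, one_smul]
    rw [e]
    apply Submodule.add_mem_sup
    · refine Submodule.mem_inf.2 ⟨U.smul_mem _ (U.add_mem hx (hU x hx)), ?_⟩
      rw [End.mem_eigenspace_iff, map_smul, map_add, hf, one_smul, add_comm (f x)]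
    · refine Submodule.mem_inf.2 ⟨U.smul_mem _ (U.sub_mem hx (hU x hx)), ?_⟩
      rw [End.mem_eigenspace_iff, map_smul, map_sub, hf, neg_smul, one_smul, ← smul_neg, neg_sub]
  have hinf : (U ⊓ End.eigenspace f 1) ⊓ (U ⊓ End.eigenspace f (-1)) = ⊥ := by
    rw [eq_bot_iff]
    intro x hx
    obtain ⟨⟨-, h3⟩, -, h4⟩ := hx
    rw [SetLike.mem_coe, End.mem_eigenspace_iff] at h3 h4
    rw [one_smul] at h3
    rw [h3, neg_smul, one_smul] at h4
    have h5 : (2 : K) • x = 0 := by
      rw [two_smul]; nth_rewrite 1 [h4]; exact neg_add_cancel x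
    exact (smul_eq_zero.1 h5).resolve_left h2
  rw [hsup, hinf, finrank_bot, add_zero] at h1
  exact h1.symm

theorem half_of_three (h2 : (2 : K) ≠ 0) (s t : V →ₗ[K] V) (hs : ∀ x, s (s x) = x)
    (ht : ∀ x, t (t x) = x) (hst : ∀ x, s (t x) = t (s x))
    (h1 : 2 * finrank K (End.eigenspace s 1) = finrank K V)
    (h3 : 2 * finrank K (End.eigenspace t 1) = finrank K V)
    (h4 : 2 * finrank K (End.eigenspace (s ∘ₗ t) 1) = finrank K V) :
    2 * finrank K (End.eigenspace t 1 ⊓ End.eigenspace s 1 : Submodule K V) =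
      finrank K (End.eigenspace t 1) := by
  have a1 := finrank_split h2 t ht (End.eigenspace s 1) (by
    intro x hx
    rw [End.mem_eigenspace_iff] at hx ⊢
    rw [hst, hx, map_smul])
  have a2 := finrank_split h2 t ht (End.eigenspace s (-1)) (by
    intro x hx
    rw [End.mem_eigenspace_iff] at hx ⊢
    rw [hst, hx, map_smul])
  have a3 := finrank_split h2 s hs (End.eigenspace t 1) (by
    intro x hx
    rw [End.mem_eigenspace_iff] at hx ⊢
    rw [← hst, hx, map_smul])
  have a5 := finrank_split h2 s hs (End.eigenspace (s ∘ₗ t) 1) (by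
    intro x hx
    rw [End.mem_eigenspace_iff, LinearMap.comp_apply] at hx ⊢
    rw [← hst, hx, map_smul])
  have a6 := finrank_involution h2 s hs
  have e1 : End.eigenspace (s ∘ₗ t) 1 ⊓ End.eigenspace s 1 = End.eigenspace s 1 ⊓ End.eigenspace t 1 := by
    ext x
    rw [Submodule.mem_inf, Submodule.mem_inf, End.mem_eigenspace_iff, End.mem_eigenspace_iff,
      End.mem_eigenspace_iff, LinearMap.comp_apply, one_smul]
    constructor
    · rintro ⟨p, q⟩
      refine ⟨q, ?_⟩
      rw [hst, q] at p; exact p
    · rintro ⟨p, q⟩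
      refine ⟨?_, p⟩
      rw [q, p]
  have e2 : End.eigenspace (s ∘ₗ t) 1 ⊓ End.eigenspace s (-1) =
      End.eigenspace s (-1) ⊓ End.eigenspace t (-1) := by
    ext x
    rw [Submodule.mem_inf, Submodule.mem_inf, End.mem_eigenspace_iff, End.mem_eigenspace_iff,
      End.mem_eigenspace_iff, LinearMap.comp_apply, one_smul]
    constructor
    · rintro ⟨p, q⟩
      refine ⟨q, ?_⟩
      rw [hst, q, map_smul, neg_smul, one_smul] at p
      rw [neg_smul, one_smul, ← p, neg_neg]
      nth_rewrite 2 [← p]
      rw [map_neg, ht]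
    · rintro ⟨p, q⟩
      refine ⟨?_, p⟩
      rw [q, map_smul, p, smul_smul, neg_one_mul, neg_neg, one_smul]
  have e3 : End.eigenspace t 1 ⊓ End.eigenspace s 1 = End.eigenspace s 1 ⊓ End.eigenspace t 1 := inf_comm _ _
  have e4 : End.eigenspace t 1 ⊓ End.eigenspace s (-1) = End.eigenspace s (-1) ⊓ End.eigenspace t 1 :=
    inf_comm _ _
  rw [e1, e2] at a5
  rw [e3, e4] at a3
  rw [e3]
  omega

end Split

section Elem

variable {K : Type v} [Field K]

/-- Restriction of an action to an invariant subspace. -/
def restrHom {V : Type u} [AddCommGroup V] [Module K V] {R : Type w} [Monoid R] (ρ : R →* End K V)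
    (U : Submodule K V) (hU : ∀ g, ∀ x ∈ U, ρ g x ∈ U) : R →* End K U where
  toFun g := (ρ g).restrict (hU g)
  map_one' := by
    apply LinearMap.ext
    intro x
    apply Subtype.ext
    show ρ 1 x.1 = x.1
    rw [map_one]; rfl
  map_mul' a b := by
    apply LinearMap.ext
    intro x
    apply Subtype.ext
    show ρ (a * b) x.1 = ρ a (ρ b x.1)
    rw [map_mul]; rfl

theorem restrHom_apply {V : Type u} [AddCommGroup V] [Module K V] {R : Type w} [Monoid R]
    (ρ : R →* End K V) (U : Submodule K V) (hU : ∀ g, ∀ x ∈ U, ρ g x ∈ U) (g : R) (x : U) :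
    (restrHom ρ U hU g x).1 = ρ g x.1 := rfl

theorem elem_ab (h2 : (2 : K) ≠ 0) (n : ℕ) : ∀ (V : Type u) [AddCommGroup V] [Module K V]
    [FiniteDimensional K V] (R : Type w) [Group R] [Finite R], Nat.card R = n → (∀ g : R, g * g = 1) →
    ∀ ρ : R →* End K V, (∀ g, g ≠ 1 → 2 * finrank K (End.eigenspace (ρ g) 1) = finrank K V) →
    n ∣ finrank K V := by
  induction n using Nat.strong_induction_on with
  | _ n ih =>
    intro V _ _ _ R _ _ hn hexp ρ hρ
    have h2p : Fact (Nat.Prime 2) := ⟨Nat.prime_two⟩
    by_cases hnt : Nontrivial R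
    · have hR : IsPGroup 2 R := fun g => ⟨1, by rw [pow_one, sq]; exact hexp g⟩
      obtain ⟨k, hk⟩ := IsPGroup.iff_card.1 hR
      rcases k with _ | k
      · exfalso
        rw [pow_zero] at hk
        have := Finite.one_lt_card (α := R)
        omega
      obtain ⟨M, hM⟩ := Sylow.exists_subgroup_card_pow_prime (G := R) 2 (n := k)
        (by rw [hk]; exact pow_dvd_pow 2 (Nat.le_succ k))
      have hpos := pow_pos (two_pos (α := ℕ)) k
      have hMne : ∃ t : R, t ∉ M := by
        by_contra hcon
        push Not at hcon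
        have : M = ⊤ := by
          rw [eq_top_iff]; intro x _; exact hcon x
        rw [this, Subgroup.card_top, hk, pow_succ] at hM
        omega
      obtain ⟨t, ht⟩ := hMne
      have ht1 : t ≠ 1 := by rintro rfl; exact ht M.one_mem
      have hcomm : ∀ a b : R, a * b = b * a := by
        intro a b
        have h1 := hexp (a * b)
        calc a * b = a * b * ((b * a) * (b * a)) := by rw [hexp, mul_one]
          _ = a * (b * b) * a * (b * a) := by group
          _ = b * a := by rw [hexp, mul_one, hexp, one_mul]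
      set U : Submodule K V := End.eigenspace (ρ t) 1 with hU
      have hUinv : ∀ g : M, ∀ x ∈ U, (ρ.comp M.subtype) g x ∈ U := by
        intro g x hx
        rw [hU, End.mem_eigenspace_iff] at hx ⊢
        show ρ t (ρ g.1 x) = (1 : K) • ρ g.1 x
        have h1 : ρ t * ρ g.1 = ρ g.1 * ρ t := by rw [← map_mul, ← map_mul, hcomm]
        have h3 : ρ t (ρ g.1 x) = ρ g.1 (ρ t x) := LinearMap.congr_fun h1 x
        rw [h3, hx, map_smul]
      have hcard : Nat.card M < n := by rw [hM, ← hn, hk, pow_succ]; omega
      have hinv : ∀ g : R, ∀ x, ρ g (ρ g x) = x := by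
        intro g x
        have h1 : ρ g * ρ g = 1 := by rw [← map_mul, hexp, map_one]
        exact LinearMap.congr_fun h1 x
      have key := ih (Nat.card M) hcard U M rfl (fun g => Subtype.ext (hexp g.1))
        (restrHom (ρ.comp M.subtype) U hUinv) (by
          intro g hg
          have hg1 : g.1 ≠ 1 := fun h => hg (Subtype.ext h)
          have hgt : g.1 * t ≠ 1 := by
            intro h
            apply ht
            have : t = g.1⁻¹ := by
              calc t = g.1⁻¹ * (g.1 * t) := by group
                _ = g.1⁻¹ := by rw [h, mul_one]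
            rw [this]
            exact M.inv_mem g.2
          have h3 := half_of_three h2 (ρ g.1) (ρ t) (hinv g.1) (hinv t) (by
            intro x
            have h1 : ρ g.1 * ρ t = ρ t * ρ g.1 := by rw [← map_mul, ← map_mul, hcomm]
            exact LinearMap.congr_fun h1 x) (hρ g.1 hg1) (hρ t ht1) (by
              have h4 := hρ (g.1 * t) hgt
              rw [map_mul] at h4
              exact h4)
          rw [← h3]
          congr 1
          rw [← Submodule.finrank_map_subtype_eq U]
          have e : (End.eigenspace (restrHom (ρ.comp M.subtype) U hUinv g) 1).map U.subtype =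
              End.eigenspace (ρ t) 1 ⊓ End.eigenspace (ρ g.1) 1 := by
            ext x
            rw [Submodule.mem_map, Submodule.mem_inf]
            constructor
            · rintro ⟨z, hz, rfl⟩
              refine ⟨z.2, ?_⟩
              rw [End.mem_eigenspace_iff] at hz ⊢
              exact congrArg Subtype.val hz
            · rintro ⟨hx1, hx2⟩
              refine ⟨⟨x, hx1⟩, ?_, rfl⟩
              rw [End.mem_eigenspace_iff] at hx2 ⊢
              exact Subtype.ext hx2
          rw [e])
      have h5 := hρ t ht1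
      have h6 : n = 2 * Nat.card M := by rw [hM, ← hn, hk, pow_succ, mul_comm]
      rw [h6, ← h5]
      exact Nat.mul_dvd_mul_left 2 key
    · rw [not_nontrivial_iff_subsingleton] at hnt
      have : n = 1 := by rw [← hn]; exact Nat.card_eq_one_iff_unique.2 ⟨hnt, ⟨1⟩⟩
      rw [this]; exact one_dvd _

end Elem

section Clifford

variable {L : Type v} [Field L] [IsAlgClosed L]

/-- The elements of `R` whose image commutes with the image of `R`. -/
def rad {V : Type u} [AddCommGroup V] [Module L V] {R : Type w} [Group R] (ρ : R →* End L V) :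
    Subgroup R where
  carrier := {g | ∀ h, ρ g * ρ h = ρ h * ρ g}
  mul_mem' := by
    intro a b ha hb h
    rw [map_mul, mul_assoc, hb h, ← mul_assoc, ha h, mul_assoc]
  one_mem' := by
    intro h
    rw [map_one, one_mul, mul_one]
  inv_mem' := by
    intro a ha h
    have h1 : ρ a⁻¹ * ρ a = 1 := by rw [← map_mul, inv_mul_cancel, map_one]
    have h2 : ρ a * ρ a⁻¹ = 1 := by rw [← map_mul, mul_inv_cancel, map_one]
    calc ρ a⁻¹ * ρ h = ρ a⁻¹ * ρ h * (ρ a * ρ a⁻¹) := by rw [h2, mul_one]
      _ = ρ a⁻¹ * (ρ h * ρ a) * ρ a⁻¹ := by simp only [mul_assoc]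
      _ = ρ a⁻¹ * (ρ a * ρ h) * ρ a⁻¹ := by rw [ha h]
      _ = (ρ a⁻¹ * ρ a) * ρ h * ρ a⁻¹ := by simp only [mul_assoc]
      _ = ρ h * ρ a⁻¹ := by rw [h1, one_mul]

/-- Commuting up to sign forces the dimension to be divisible by the square root of the order of the
group modulo its radical. -/
theorem clifford (h2 : (2 : L) ≠ 0) (n : ℕ) : ∀ (V : Type u) [AddCommGroup V] [Module L V]
    [FiniteDimensional L V] (R : Type w) [Group R] [Finite R], finrank L V = n → 0 < n →
    ∀ ρ : R →* End L V, (∀ g h, ρ g * ρ h = ρ h * ρ g ∨ ρ g * ρ h = -(ρ h * ρ g)) →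
    (∀ g, ∃ c : L, ρ (g * g) = c • (1 : End L V)) →
    ∃ a : ℕ, Nat.card R = 4 ^ a * Nat.card (rad ρ) ∧ 2 ^ a ∣ n := by
  induction n using Nat.strong_induction_on with
  | _ n ih =>
    intro V _ _ _ R _ _ hn hn0 ρ hcom hsq
    by_cases hall : rad ρ = ⊤
    · refine ⟨0, ?_, by rw [pow_zero]; exact one_dvd _⟩
      rw [pow_zero, one_mul, hall, Subgroup.card_top]
    · have hVnt : Nontrivial V := by
        apply (finrank_pos_iff (R := L) (M := V)).1
        rw [hn]; exact hn0
      obtain ⟨v0, hv0⟩ := exists_ne (0 : V)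
      have hex : ∃ g h : R, ¬ (ρ g * ρ h = ρ h * ρ g) := by
        by_contra hcon
        push Not at hcon
        apply hall
        rw [eq_top_iff]
        intro g _ h
        exact hcon g h
      obtain ⟨g, h, hgh⟩ := hex
      have hanti : ρ g * ρ h = -(ρ h * ρ g) := (hcom g h).resolve_left hgh
      obtain ⟨c, hc⟩ := hsq g
      have hinv : ∀ k : R, ρ k * ρ k⁻¹ = 1 := fun k => by rw [← map_mul, mul_inv_cancel, map_one]
      have hinv' : ∀ k : R, ρ k⁻¹ * ρ k = 1 := fun k => by rw [← map_mul, inv_mul_cancel, map_one]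
      have hinj : ∀ k : R, ∀ x, ρ k x = 0 → x = 0 := by
        intro k x hx
        have h1 : ρ k⁻¹ (ρ k x) = x := LinearMap.congr_fun (hinv' k) x
        rw [hx, map_zero] at h1
        exact h1.symm
      have hc0 : c ≠ 0 := by
        rintro rfl
        rw [zero_smul] at hc
        apply hv0
        apply hinj (g * g)
        rw [hc]; rfl
      obtain ⟨l, hl⟩ := IsAlgClosed.exists_eq_mul_self c
      have hl0 : l ≠ 0 := by
        rintro rfl
        rw [mul_zero] at hl
        exact hc0 hl
      set f : End L V := l⁻¹ • ρ g with hf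
      have hff : ∀ x, f (f x) = x := by
        intro x
        show l⁻¹ • ρ g (l⁻¹ • ρ g x) = x
        rw [map_smul, smul_smul]
        have h1 : ρ g (ρ g x) = c • x := by
          have h3 : ρ g * ρ g = c • (1 : End L V) := by rw [← map_mul, hc]
          exact LinearMap.congr_fun h3 x
        rw [h1, smul_smul, hl]
        have : l⁻¹ * l⁻¹ * (l * l) = 1 := by field_simp
        rw [this, one_smul]
      have hfx : ∀ x, ρ g x = l • f x := by
        intro x
        show _ = l • (l⁻¹ • ρ g x)
        rw [smul_smul, mul_inv_cancel₀ hl0, one_smul]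
      set U : Submodule L V := End.eigenspace f 1 with hU
      set U' : Submodule L V := End.eigenspace f (-1) with hU'
      have hdim : finrank L U + finrank L U' = finrank L V := finrank_involution h2 f hff
      have hmapgen : ∀ k : R, (ρ g * ρ k = -(ρ k * ρ g)) → ∀ x, f (ρ k x) = - ρ k (f x) := by
        intro k hk x
        show l⁻¹ • ρ g (ρ k x) = - ρ k (l⁻¹ • ρ g x)
        have h1 : ρ g (ρ k x) = - ρ k (ρ g x) := LinearMap.congr_fun hk x
        rw [h1, map_smul, smul_neg]
      have hmaph := hmapgen h hanti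
      have hUU' : ∀ x ∈ U, ρ h x ∈ U' := by
        intro x hx
        rw [hU, End.mem_eigenspace_iff, one_smul] at hx
        rw [hU', End.mem_eigenspace_iff, hmaph, hx, neg_smul, one_smul]
      have hU'U : ∀ x ∈ U', ρ h x ∈ U := by
        intro x hx
        rw [hU', End.mem_eigenspace_iff, neg_smul, one_smul] at hx
        rw [hU, End.mem_eigenspace_iff, hmaph, hx, map_neg, neg_neg, one_smul]
      have hle1 : finrank L U ≤ finrank L U' := by
        apply LinearMap.finrank_le_finrank_of_injective (f := (ρ h).restrict hUU')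
        intro x y hxy
        have h1 : ρ h x.1 = ρ h y.1 := congrArg Subtype.val hxy
        have h3 : ρ h (x.1 - y.1) = 0 := by rw [map_sub, h1, sub_self]
        exact Subtype.ext (sub_eq_zero.1 (hinj h _ h3))
      have hle2 : finrank L U' ≤ finrank L U := by
        apply LinearMap.finrank_le_finrank_of_injective (f := (ρ h).restrict hU'U)
        intro x y hxy
        have h1 : ρ h x.1 = ρ h y.1 := congrArg Subtype.val hxy
        have h3 : ρ h (x.1 - y.1) = 0 := by rw [map_sub, h1, sub_self]
        exact Subtype.ext (sub_eq_zero.1 (hinj h _ h3))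
      have hdU : n = 2 * finrank L U := by rw [← hn]; omega
      have hUpos : 0 < finrank L U := by omega
      have hUnt : Nontrivial U := (finrank_pos_iff (R := L) (M := U)).1 hUpos
      obtain ⟨u0, hu0⟩ := exists_ne (0 : U)
      have hu0' : u0.1 ≠ 0 := fun h => hu0 (Subtype.ext h)
      -- the centraliser of g
      let R1 : Subgroup R :=
        { carrier := {k | ρ k * ρ g = ρ g * ρ k}
          mul_mem' := by
            intro a b ha hb
            show ρ (a * b) * ρ g = ρ g * ρ (a * b)
            rw [map_mul, mul_assoc]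
            rw [show ρ b * ρ g = ρ g * ρ b from hb, ← mul_assoc, show ρ a * ρ g = ρ g * ρ a from ha,
              mul_assoc]
          one_mem' := by
            show ρ 1 * ρ g = ρ g * ρ 1
            rw [map_one, one_mul, mul_one]
          inv_mem' := by
            intro a ha
            show ρ a⁻¹ * ρ g = ρ g * ρ a⁻¹
            have ha' : ρ a * ρ g = ρ g * ρ a := ha
            calc ρ a⁻¹ * ρ g = ρ a⁻¹ * ρ g * (ρ a * ρ a⁻¹) := by rw [hinv, mul_one]
              _ = ρ a⁻¹ * (ρ g * ρ a) * ρ a⁻¹ := by simp only [mul_assoc]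
              _ = ρ a⁻¹ * (ρ a * ρ g) * ρ a⁻¹ := by rw [ha']
              _ = (ρ a⁻¹ * ρ a) * ρ g * ρ a⁻¹ := by simp only [mul_assoc]
              _ = ρ g * ρ a⁻¹ := by rw [hinv', one_mul] }
      have memR1 : ∀ k, k ∈ R1 ↔ ρ k * ρ g = ρ g * ρ k := fun k => Iff.rfl
      have notR1 : ∀ k, k ∉ R1 → ρ g * ρ k = -(ρ k * ρ g) := by
        intro k hk
        rcases hcom g k with h1 | h1
        · exact absurd h1.symm hk
        · exact h1
      have sgn : ∀ a b : End L V, ∀ x : V, (b * a) x ≠ 0 → a * b = -(b * a) → ¬ a * b = b * a := by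
        intro a b x hx h1 h3
        rw [h3] at h1
        have h4 : (b * a) x = -((b * a) x) := LinearMap.congr_fun h1 x
        have h5 : (2 : L) • (b * a) x = 0 := by
          rw [two_smul]; nth_rewrite 1 [h4]; exact neg_add_cancel _
        exact hx ((smul_eq_zero.1 h5).resolve_left h2)
      have nz : ∀ a b : R, ∀ x : V, x ≠ 0 → (ρ a * ρ b) x ≠ 0 := by
        intro a b x hx h1
        exact hx (hinj b _ (hinj a _ h1))
      have hR1h : h ∉ R1 := fun hh => sgn (ρ g) (ρ h) v0 (nz h g v0 hv0) hanti hh.symm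
      have hR1inv : ∀ k : R1, ∀ x ∈ U, (ρ.comp R1.subtype) k x ∈ U := by
        intro k x hx
        rw [hU, End.mem_eigenspace_iff, one_smul] at hx ⊢
        show l⁻¹ • ρ g (ρ k.1 x) = ρ k.1 x
        have h1 : ρ k.1 (ρ g x) = ρ g (ρ k.1 x) := LinearMap.congr_fun k.2 x
        rw [← h1, ← map_smul]
        exact congrArg (ρ k.1) hx
      set ρ1 : R1 →* End L U := restrHom (ρ.comp R1.subtype) U hR1inv with hρ1
      have hρ1x : ∀ (k : R1) (x : U), (ρ1 k x).1 = ρ k.1 x.1 := fun k x => rfl
      have hcom1 : ∀ a b : R1, ρ1 a * ρ1 b = ρ1 b * ρ1 a ∨ ρ1 a * ρ1 b = -(ρ1 b * ρ1 a) := by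
        intro a b
        rcases hcom a.1 b.1 with h1 | h1
        · left
          apply LinearMap.ext
          intro x
          apply Subtype.ext
          exact LinearMap.congr_fun h1 x.1
        · right
          apply LinearMap.ext
          intro x
          apply Subtype.ext
          exact LinearMap.congr_fun h1 x.1
      have hsq1 : ∀ a : R1, ∃ c : L, ρ1 (a * a) = c • (1 : End L U) := by
        intro a
        obtain ⟨c, hc⟩ := hsq a.1
        refine ⟨c, ?_⟩
        apply LinearMap.ext
        intro x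
        apply Subtype.ext
        exact LinearMap.congr_fun hc x.1
      obtain ⟨a, ha, hadvd⟩ := ih (finrank L U) (by omega) U R1 rfl hUpos ρ1 hcom1 hsq1
      -- index of R1
      have hidx : R1.index = 2 := by
        rw [Subgroup.index_eq_two_iff]
        refine ⟨h, fun b => ?_⟩
        by_cases hb : b ∈ R1
        · right
          refine ⟨hb, fun hbh => hR1h ?_⟩
          have : h = b⁻¹ * (b * h) := by group
          rw [this]
          exact R1.mul_mem (R1.inv_mem hb) hbh
        · left
          refine ⟨?_, hb⟩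
          rw [memR1, map_mul]
          have h1 := notR1 b hb
          calc ρ b * ρ h * ρ g = ρ b * (-(ρ g * ρ h)) := by rw [mul_assoc, hanti, neg_neg]
            _ = (-(ρ b * ρ g)) * ρ h := by rw [mul_neg, neg_mul, mul_assoc]
            _ = ρ g * (ρ b * ρ h) := by rw [← h1, mul_assoc]
      have hcardR : Nat.card R = 2 * Nat.card R1 := by
        rw [← R1.card_mul_index, hidx, mul_comm]
      -- comparison of radicals
      have hmemrad1 : ∀ k : R1, k ∈ rad ρ1 ↔ ∀ b : R1, ρ k.1 * ρ b.1 = ρ b.1 * ρ k.1 := by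
        intro k
        constructor
        · intro hk b
          by_contra hcon
          have h1 := (hcom k.1 b.1).resolve_left hcon
          have h3 : ρ1 k * ρ1 b = ρ1 b * ρ1 k := hk b
          have h4 : ρ k.1 (ρ b.1 u0.1) = ρ b.1 (ρ k.1 u0.1) :=
            congrArg Subtype.val (LinearMap.congr_fun h3 u0)
          have h5 : ρ k.1 (ρ b.1 u0.1) = - ρ b.1 (ρ k.1 u0.1) := LinearMap.congr_fun h1 u0.1
          rw [h5] at h4
          have h6 : (2 : L) • ρ b.1 (ρ k.1 u0.1) = 0 := by
            rw [two_smul]; nth_rewrite 1 [← h4]; exact neg_add_cancel _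
          exact nz b.1 k.1 u0.1 hu0' ((smul_eq_zero.1 h6).resolve_left h2)
        · intro hk b
          apply LinearMap.ext
          intro x
          apply Subtype.ext
          exact LinearMap.congr_fun (hk b) x.1
      have hcover : ∀ k : R, k ∉ R1 → ∃ b ∈ R1, k = b * h := by
        intro k hk
        refine ⟨k * h⁻¹, ?_, by group⟩
        by_contra hcon
        have h1 : k * h⁻¹ * h ∈ R1 ∨ k * h⁻¹ * h ∉ R1 := em _
        have h3 := (Subgroup.mul_mem_iff_of_index_two hidx (a := k * h⁻¹) (b := h))
        have h4 : k * h⁻¹ * h ∈ R1 := h3.2 ⟨fun q => absurd q hcon, fun q => absurd q hR1h⟩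
        have h5 : k * h⁻¹ * h = k := by group
        rw [h5] at h4
        exact hk h4
      have hradle : ∀ k ∈ rad ρ, k ∈ R1 := fun k hk => hk g
      have hgR1 : g ∈ R1 := rfl
      let Z : Subgroup (rad ρ1) := ((rad ρ).subgroupOf R1).subgroupOf (rad ρ1)
      have memZ : ∀ k : rad ρ1, k ∈ Z ↔ k.1.1 ∈ rad ρ := fun k => Iff.rfl
      have hgrad1 : (⟨g, hgR1⟩ : R1) ∈ rad ρ1 := by
        rw [hmemrad1]
        intro b
        exact b.2.symm
      have hZidx : Z.index = 2 := by
        rw [Subgroup.index_eq_two_iff]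
        refine ⟨⟨⟨g, hgR1⟩, hgrad1⟩, fun b => ?_⟩
        have hb1 := (hmemrad1 b.1).1 b.2
        by_cases hb : b ∈ Z
        · right
          refine ⟨hb, fun hbg => ?_⟩
          have h1 : b.1.1 * g ∈ rad ρ := (memZ _).1 hbg
          have h3 : g ∈ rad ρ := by
            have : g = b.1.1⁻¹ * (b.1.1 * g) := by group
            rw [this]
            exact (rad ρ).mul_mem ((rad ρ).inv_mem ((memZ b).1 hb)) h1
          exact hgh (h3 h)
        · left
          refine ⟨?_, hb⟩
          rw [memZ]
          show b.1.1 * g ∈ rad ρ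
          -- b anticommutes with h
          have hbh : ρ b.1.1 * ρ h = -(ρ h * ρ b.1.1) := by
            rcases hcom b.1.1 h with h1 | h1
            · exfalso
              apply hb
              rw [memZ]
              intro k
              by_cases hk : k ∈ R1
              · exact hb1 ⟨k, hk⟩
              · obtain ⟨b', hb', rfl⟩ := hcover k hk
                rw [map_mul, ← mul_assoc, hb1 ⟨b', hb'⟩, mul_assoc, h1, mul_assoc]
            · exact h1
          have hbgh : ρ (b.1.1 * g) * ρ h = ρ h * ρ (b.1.1 * g) := by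
            rw [map_mul, mul_assoc, hanti, mul_neg, ← mul_assoc, hbh, neg_mul, neg_neg, mul_assoc]
          intro k
          have hk1 : ∀ k ∈ R1, ρ (b.1.1 * g) * ρ k = ρ k * ρ (b.1.1 * g) := by
            intro k hk
            rw [map_mul, mul_assoc, ← show ρ k * ρ g = ρ g * ρ k from hk, ← mul_assoc,
              hb1 ⟨k, hk⟩, mul_assoc]
          by_cases hk : k ∈ R1
          · exact hk1 k hk
          · obtain ⟨b', hb', rfl⟩ := hcover k hk
            rw [map_mul ρ b' h, ← mul_assoc, hk1 b' hb', mul_assoc, hbgh, mul_assoc]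
      have hcardZ : Nat.card (rad ρ1) = 2 * Nat.card (rad ρ) := by
        rw [← Z.card_mul_index, hZidx, mul_comm]
        congr 1
        refine Nat.card_congr ⟨fun k => ⟨k.1.1.1, k.2⟩, fun k => ⟨⟨⟨k.1, hradle k.1 k.2⟩, ?_⟩, k.2⟩,
          fun k => rfl, fun k => rfl⟩
        rw [hmemrad1]
        intro b
        exact k.2 b.1
      refine ⟨a + 1, ?_, ?_⟩
      · rw [hcardR, ha, hcardZ, pow_succ]; ring
      · rw [hdU, pow_succ, mul_comm]
        exact Nat.mul_dvd_mul_left 2 hadvd

end Clifford

end Pool.Agent.Lib_MP_4776c2
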