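import Mathlib

set_option autoImplicit false

namespace Pool.Agent.Lib_MP_4776c2

universe u

section Basic

variable {S : Type u} [NonAssocRing S]

theorem aut_mul_apply (g h : RingAut S) (x : S) : (g * h) x = g (h x) := rfl

theorem aut_one_apply (x : S) : (1 : RingAut S) x = x := rfl

/-- An automorphism as an additive endomorphism. -/
def au (σ : RingAut S) : AddMonoid.End S where
  toFun := σ
  map_zero' := map_zero σ
  map_add' := map_add σ

theorem au_apply (σ : RingAut S) (x : S) : au σ x = σ x := rfl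

theorem au_mul (σ τ : RingAut S) : au (σ * τ) = au σ * au τ := rfl

theorem au_one : au (1 : RingAut S) = 1 := rfl

theorem au_pow (σ : RingAut S) (n : ℕ) : au (σ ^ n) = au σ ^ n := by
  induction n with
  | zero => rfl
  | succ n ih => rw [pow_succ, pow_succ, au_mul, ih]

theorem au_inj {σ τ : RingAut S} (h : au σ = au τ) : σ = τ := by
  apply RingEquiv.ext
  intro x
  exact DFunLike.congr_fun h x

/-- The fixed subring of an automorphism. -/
def fixR (σ : RingAut S) : Subring S where
  carrier := {x | σ x = x}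
  mul_mem' := by
    intro a b ha hb
    simp only [Set.mem_ofPred_eq] at *
    rw [map_mul, ha, hb]
  one_mem' := by simp
  add_mem' := by
    intro a b ha hb
    simp only [Set.mem_ofPred_eq] at *
    rw [map_add, ha, hb]
  zero_mem' := by simp
  neg_mem' := by
    intro a ha
    simp only [Set.mem_ofPred_eq] at *
    rw [map_neg, ha]

theorem mem_fixR (σ : RingAut S) (x : S) : x ∈ fixR σ ↔ σ x = x := Iff.rfl

/-- `σ - 1`. -/
def Nn (σ : RingAut S) : AddMonoid.End S := au σ - 1

theorem Nn_apply (σ : RingAut S) (x : S) : Nn σ x = σ x - x := rfl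

theorem Nn_eq_zero (σ : RingAut S) (x : S) : Nn σ x = 0 ↔ σ x = x := by
  rw [Nn_apply, sub_eq_zero]

theorem au_eq (σ : RingAut S) : au σ = 1 + Nn σ := by
  rw [Nn]; abel

theorem Nn_mul_left (σ : RingAut S) {a : S} (ha : σ a = a) (x : S) :
    Nn σ (a * x) = a * Nn σ x := by
  rw [Nn_apply, Nn_apply, map_mul, ha, mul_sub]

theorem Nn_mul_right (σ : RingAut S) {a : S} (ha : σ a = a) (x : S) :
    Nn σ (x * a) = Nn σ x * a := by
  rw [Nn_apply, Nn_apply, map_mul, ha, sub_mul]

theorem end_pow_succ_apply (f : AddMonoid.End S) (n : ℕ) (x : S) :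
    (f ^ (n + 1)) x = f ((f ^ n) x) := by
  rw [pow_succ']; rfl

theorem end_pow_succ_apply' (f : AddMonoid.End S) (n : ℕ) (x : S) :
    (f ^ (n + 1)) x = (f ^ n) (f x) := by
  rw [pow_succ]; rfl

theorem Nn_pow_mul_left (σ : RingAut S) {a : S} (ha : σ a = a) (n : ℕ) (x : S) :
    (Nn σ ^ n) (a * x) = a * (Nn σ ^ n) x := by
  induction n with
  | zero => rfl
  | succ n ih => rw [end_pow_succ_apply, end_pow_succ_apply, ih, Nn_mul_left σ ha]

theorem commute_au_Nn (σ : RingAut S) : Commute (au σ) (Nn σ) :=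
  (Commute.refl (au σ)).sub_right (Commute.one_right _)

variable (p : ℕ) [Fact p.Prime]

theorem charP_end [Nontrivial S] (hp : ∀ x : S, p • x = 0) : CharP (AddMonoid.End S) p := by
  have hnt : Nontrivial (AddMonoid.End S) := by
    refine ⟨⟨0, 1, ?_⟩⟩
    intro h
    have := DFunLike.congr_fun h (1 : S)
    exact zero_ne_one this
  rw [CharP.charP_iff_prime_eq_zero (Fact.out : p.Prime)]
  ext x
  rw [AddMonoid.End.natCast_apply]
  exact hp x

theorem Nn_pow_p [Nontrivial S] (hp : ∀ x : S, p • x = 0) (σ : RingAut S) (k : ℕ)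
    (hσ : σ ^ (p ^ k) = 1) : Nn σ ^ (p ^ k) = 0 := by
  have := charP_end p hp
  rw [Nn, sub_pow_char_pow_of_commute _ _ (Commute.one_right _), ← au_pow, hσ, au_one, one_pow, sub_self]

/-- the range as an additive subgroup -/
def rg (f : AddMonoid.End S) : AddSubgroup S := AddMonoidHom.range (G := S) (N := S) f

/-- right multiplication -/
def Rd (x : S) : AddMonoid.End S := AddMonoidHom.mulRight x

theorem Rd_apply (x y : S) : Rd x y = y * x := rfl

theorem Nn_Rd (σ : RingAut S) {e : S} (he : σ e = e + 1) :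
    Nn σ * Rd e = Rd e * Nn σ + au σ := by
  ext y
  show Nn σ (y * e) = (Nn σ y) * e + σ y
  rw [Nn_apply, Nn_apply, map_mul, he, mul_add, mul_one, sub_mul]
  abel

theorem Nn_pow_Rd (σ : RingAut S) {e : S} (he : σ e = e + 1) (k : ℕ) :
    Nn σ ^ (k + 1) * Rd e = Rd e * Nn σ ^ (k + 1) + (k + 1) • (Nn σ ^ k * au σ) := by
  induction k with
  | zero => rw [zero_add, pow_one, pow_zero, one_smul, one_mul]; exact Nn_Rd σ he
  | succ k ih =>
    have hc : au σ * Nn σ ^ (k + 1) = Nn σ ^ (k + 1) * au σ := ((commute_au_Nn σ).pow_right _).eq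
    calc Nn σ ^ (k + 1 + 1) * Rd e = Nn σ * (Nn σ ^ (k + 1) * Rd e) := by
          rw [pow_succ' _ (k + 1), mul_assoc]
      _ = Nn σ * (Rd e * Nn σ ^ (k + 1) + (k + 1) • (Nn σ ^ k * au σ)) := by rw [ih]
      _ = (Nn σ * Rd e) * Nn σ ^ (k + 1) + (k + 1) • (Nn σ ^ (k + 1) * au σ) := by
          rw [mul_add, mul_smul_comm, ← mul_assoc, ← mul_assoc, ← pow_succ']
      _ = (Rd e * Nn σ + au σ) * Nn σ ^ (k + 1) + (k + 1) • (Nn σ ^ (k + 1) * au σ) := by
          rw [Nn_Rd σ he]
      _ = _ := by
          rw [add_mul, mul_assoc, ← pow_succ', hc, add_assoc]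
          congr 1
          rw [add_smul (k + 1) 1, one_smul, add_comm]

theorem smul_eq_zero_of_coprime (hp : ∀ x : S, p • x = 0) {n : ℕ} (hn : ¬ p ∣ n) {x : S}
    (hx : n • x = 0) : x = 0 := by
  have hcop : Nat.Coprime p n := ((Fact.out : p.Prime).coprime_iff_not_dvd).2 hn
  have h1 : addOrderOf x ∣ p := addOrderOf_dvd_of_nsmul_eq_zero (hp x)
  have h2 : addOrderOf x ∣ n := addOrderOf_dvd_of_nsmul_eq_zero hx
  have h3 : addOrderOf x ∣ 1 := by
    have := Nat.dvd_gcd h1 h2
    rwa [hcop.gcd_eq_one] at this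
  exact AddMonoid.addOrderOf_eq_one_iff.1 (Nat.dvd_one.1 h3)

/-- A nilpotent nonzero endomorphism has a last nonvanishing power. -/
theorem exists_last {f : AddMonoid.End S} {m : ℕ} (hm : f ^ m = 0) (h1 : (1 : AddMonoid.End S) ≠ 0) :
    ∃ k, k < m ∧ f ^ k ≠ 0 ∧ f ^ (k + 1) = 0 := by
  classical
  have hex : ∃ n, f ^ n = 0 := ⟨m, hm⟩
  have hpos : Nat.find hex ≠ 0 := by
    intro h
    have := Nat.find_spec hex
    rw [h, pow_zero] at this
    exact h1 this
  obtain ⟨k, hk⟩ := Nat.exists_eq_succ_of_ne_zero hpos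
  refine ⟨k, ?_, ?_, ?_⟩
  · have := Nat.find_min' hex hm
    omega
  · exact Nat.find_min hex (by omega)
  · have := Nat.find_spec hex
    rwa [hk] at this

variable [Finite S] [NoZeroDivisors S]

/-- Left translates of a nonzero fixed element exhaust the fixed ring. -/
theorem fix_mul_surj (σ : RingAut S) {b : S} (hb : σ b = b) (hb0 : b ≠ 0) (s : S) (hs : σ s = s) :
    ∃ a, σ a = a ∧ a * b = s := by
  let f : fixR σ → fixR σ := fun a => ⟨a.1 * b, (fixR σ).mul_mem a.2 hb⟩
  have hinj : Function.Injective f := by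
    intro a a' h
    have h3 : a.1 * b = a'.1 * b := congrArg Subtype.val h
    have h4 : (a.1 - a'.1) * b = 0 := by rw [sub_mul, h3, sub_self]
    rcases mul_eq_zero.1 h4 with h | h
    · exact Subtype.ext (sub_eq_zero.1 h)
    · exact absurd h hb0
  obtain ⟨a, ha⟩ := (Finite.injective_iff_surjective.1 hinj) ⟨s, hs⟩
  exact ⟨a.1, a.2, congrArg Subtype.val ha⟩

theorem exists_e [Nontrivial S] (hp : ∀ x : S, p • x = 0) (σ : RingAut S) (k : ℕ)
    (hσ : σ ^ (p ^ k) = 1) (hσ1 : σ ≠ 1) : ∃ e, σ e = e + 1 := by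
  have hch := charP_end p hp
  have h10 : (1 : AddMonoid.End S) ≠ 0 := by
    intro h
    exact one_ne_zero (DFunLike.congr_fun h (1 : S))
  obtain ⟨j, -, hj, hj1⟩ := exists_last (Nn_pow_p p hp σ k hσ) h10
  have hj0 : j ≠ 0 := by
    rintro rfl
    rw [zero_add, pow_one] at hj1
    apply hσ1
    apply RingEquiv.ext
    intro x
    exact (Nn_eq_zero σ x).1 (by rw [hj1]; rfl)
  obtain ⟨i, rfl⟩ := Nat.exists_eq_succ_of_ne_zero hj0
  obtain ⟨x, hx⟩ : ∃ x, (Nn σ ^ (i + 1)) x ≠ 0 := by
    by_contra hcon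
    push Not at hcon
    apply hj
    ext x
    exact hcon x
  have hfix : σ ((Nn σ ^ (i + 1)) x) = (Nn σ ^ (i + 1)) x := by
    rw [← Nn_eq_zero, ← end_pow_succ_apply, hj1]; rfl
  obtain ⟨a, ha, hab⟩ := fix_mul_surj σ hfix hx 1 (map_one σ)
  refine ⟨a * (Nn σ ^ i) x, ?_⟩
  have h3 : Nn σ (a * (Nn σ ^ i) x) = 1 := by
    rw [Nn_mul_left σ ha, ← end_pow_succ_apply, hab]
  rw [Nn_apply] at h3
  rw [← h3]; abel

/-- All Jordan blocks of an automorphism of order `p` have size `p`. -/
theorem Nn_pow_pred_ne [Nontrivial S] (hp : ∀ x : S, p • x = 0) (σ : RingAut S)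
    (hσ : σ ^ p = 1) (hσ1 : σ ≠ 1) : Nn σ ^ (p - 1) ≠ 0 ∧ Nn σ ^ p = 0 := by
  have hch := charP_end p hp
  have h10 : (1 : AddMonoid.End S) ≠ 0 := by
    intro h
    exact one_ne_zero (DFunLike.congr_fun h (1 : S))
  have hσ' : σ ^ (p ^ 1) = 1 := by rwa [pow_one]
  have hNp := Nn_pow_p p hp σ 1 hσ'
  rw [pow_one] at hNp
  obtain ⟨j, hjp, hj, hj1⟩ := exists_last hNp h10
  obtain ⟨e, he⟩ := exists_e p hp σ 1 hσ' hσ1
  have h3 := Nn_pow_Rd σ he j
  rw [hj1, zero_mul, mul_zero, zero_add, au_eq, mul_add, mul_one, ← pow_succ, hj1, add_zero] at h3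
  have hdvd : p ∣ j + 1 := by
    by_contra hnd
    apply hj
    ext x
    have := DFunLike.congr_fun h3 x
    exact smul_eq_zero_of_coprime p hp hnd this.symm
  have : p = j + 1 := le_antisymm (Nat.le_of_dvd (by omega) hdvd) hjp
  refine ⟨?_, hNp⟩
  rw [this]
  exact hj

theorem fix_in_range [Nontrivial S] (hp : ∀ x : S, p • x = 0) (σ : RingAut S)
    (hσ : σ ^ p = 1) (hσ1 : σ ≠ 1) (j : ℕ) (hj : j < p) (s : S) (hs : σ s = s) :
    ∃ w, (Nn σ ^ j) w = s := by
  obtain ⟨h1, h2⟩ := Nn_pow_pred_ne p hp σ hσ hσ1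
  obtain ⟨x, hx⟩ : ∃ x, (Nn σ ^ (p - 1)) x ≠ 0 := by
    by_contra hcon
    push Not at hcon
    apply h1
    ext x
    exact hcon x
  have hpp : p - 1 + 1 = p := Nat.sub_add_cancel (Fact.out : p.Prime).one_le
  have hfix : σ ((Nn σ ^ (p - 1)) x) = (Nn σ ^ (p - 1)) x := by
    rw [← Nn_eq_zero, ← end_pow_succ_apply, hpp, h2]; rfl
  obtain ⟨a, ha, hab⟩ := fix_mul_surj σ hfix hx s hs
  refine ⟨(Nn σ ^ (p - 1 - j)) (a * x), ?_⟩
  have h3 : (Nn σ ^ j) ((Nn σ ^ (p - 1 - j)) (a * x)) = (Nn σ ^ j * Nn σ ^ (p - 1 - j)) (a * x) := rfl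
  rw [h3, ← pow_add]
  have : j + (p - 1 - j) = p - 1 := by omega
  rw [this, Nn_pow_mul_left σ ha, hab]

omit [Finite S] [NoZeroDivisors S] in
theorem mem_rg (f : AddMonoid.End S) (y : S) : y ∈ rg f ↔ ∃ w, f w = y := Iff.rfl

theorem card_fix_pow [Nontrivial S] (hp : ∀ x : S, p • x = 0) (σ : RingAut S)
    (hσ : σ ^ p = 1) (hσ1 : σ ≠ 1) : Nat.card {x : S | σ x = x} ^ p = Nat.card S := by
  have key : ∀ j, j < p → Nat.card (rg (Nn σ ^ j)) =
      Nat.card {x : S | σ x = x} * Nat.card (rg (Nn σ ^ (j + 1))) := by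
    intro j hj
    let f : rg (Nn σ ^ j) →+ S := AddMonoidHom.comp (Nn σ) (AddSubgroup.subtype _)
    have hf := AddSubgroup.card_mul_index f.ker
    rw [AddSubgroup.index_ker] at hf
    have h1 : Nat.card f.ker = Nat.card {x : S | σ x = x} := by
      apply Nat.card_congr
      refine
        { toFun := fun a => ⟨a.1.1, (Nn_eq_zero σ _).1 a.2⟩
          invFun := fun x => ⟨⟨x.1, ?_⟩, ?_⟩
          left_inv := fun a => rfl
          right_inv := fun a => rfl }
      · obtain ⟨w, hw⟩ := fix_in_range p hp σ hσ hσ1 j hj x.1 x.2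
        exact ⟨w, hw⟩
      · exact (Nn_eq_zero σ _).2 x.2
    have h2 : f.range = rg (Nn σ ^ (j + 1)) := by
      ext y
      constructor
      · rintro ⟨⟨_, w, rfl⟩, rfl⟩
        exact ⟨w, end_pow_succ_apply _ _ _⟩
      · rintro ⟨w, rfl⟩
        refine ⟨⟨(Nn σ ^ j) w, w, rfl⟩, ?_⟩
        show Nn σ ((Nn σ ^ j) w) = _
        rw [← end_pow_succ_apply]; rfl
    rw [h1, h2] at hf
    exact hf.symm
  have h0 : Nat.card (rg (Nn σ ^ 0)) = Nat.card S := by
    have : rg (Nn σ ^ 0) = ⊤ := by
      ext y; simp only [AddSubgroup.mem_top, iff_true]; exact ⟨y, rfl⟩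
    rw [this]; exact Nat.card_congr AddSubgroup.topEquiv.toEquiv
  have hind : ∀ j, j ≤ p → Nat.card S =
      Nat.card {x : S | σ x = x} ^ j * Nat.card (rg (Nn σ ^ j)) := by
    intro j
    induction j with
    | zero => intro _; rw [h0, pow_zero, one_mul]
    | succ j ih =>
      intro hj
      have h3 := ih (by omega)
      rw [key j (by omega), ← mul_assoc] at h3
      exact h3
  have hlast := hind p le_rfl
  rw [(Nn_pow_pred_ne p hp σ hσ hσ1).2] at hlast
  have : rg (0 : AddMonoid.End S) = ⊥ := by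
    ext y
    constructor
    · rintro ⟨w, rfl⟩; exact AddSubgroup.mem_bot.2 rfl
    · intro hy; exact ⟨0, (AddSubgroup.mem_bot.1 hy).symm⟩
  rw [this, AddSubgroup.card_bot, mul_one] at hlast
  exact hlast.symm

end Basic

section Ganley

open Polynomial

theorem prod_zmod (p : ℕ) [Fact p.Prime] :
    ((Finset.univ : Finset (ZMod p)).val.map (fun a => (X - C a : (ZMod p)[X]))).prod = X ^ p - X := by
  have hroots := FiniteField.roots_X_pow_card_sub_X (ZMod p)
  have hdeg := FiniteField.X_pow_card_sub_X_natDegree_eq (ZMod p) (Fact.out : p.Prime).one_lt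
  rw [ZMod.card] at hroots
  have hmonic : (X ^ p - X : (ZMod p)[X]).Monic := by
    apply monic_X_pow_sub
    rw [degree_X]
    exact_mod_cast (Fact.out : p.Prime).one_lt
  have hcard : Multiset.card (X ^ p - X : (ZMod p)[X]).roots = (X ^ p - X : (ZMod p)[X]).natDegree := by
    rw [hroots, hdeg]
    show (Finset.univ : Finset (ZMod p)).card = p
    rw [Finset.card_univ, ZMod.card]
  have := prod_multiset_X_sub_C_of_monic_of_roots_card_eq hmonic hcard
  rw [hroots] at this
  exact this

variable {S : Type u} [NonAssocRing S] (p : ℕ) [Fact p.Prime]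

/-- left multiplication -/
def Ld : S →+ AddMonoid.End S where
  toFun x := AddMonoidHom.mulLeft x
  map_zero' := by ext y; exact zero_mul y
  map_add' := by intro x x'; ext y; exact add_mul x x' y

theorem Ld_apply (x y : S) : Ld x y = x * y := rfl

theorem au_Ld (σ : RingAut S) (x : S) : au σ * Ld x = Ld (σ x) * au σ := by
  ext y
  exact map_mul σ x y

variable [NoZeroDivisors S] [Nontrivial S]

/-- If `Γ` fixes the fixed ring and acts there as left multiplication by `c` with `c ^ p = c` then
`c` is in the prime field. -/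
theorem mem_prime_field (hp : ∀ x : S, p • x = 0) (σ : RingAut S) (c : S) (hc : σ c = c)
    (Γ : AddMonoid.End S) (hΓ : ∀ a, σ a = a → Γ a = c * a) (hΓp : (Γ ^ p) 1 = Γ 1) :
    ∃ i : ℕ, c = i • (1 : S) := by
  have hch := charP_end p hp
  by_contra hcon
  push Not at hcon
  let _ : Algebra (ZMod p) (AddMonoid.End S) := ZMod.algebra (AddMonoid.End S) p
  have halg : ∀ (a : ZMod p) (v : S), (algebraMap (ZMod p) (AddMonoid.End S) a) v = a.val • v := by
    intro a v
    have : algebraMap (ZMod p) (AddMonoid.End S) a = ((a.val : ℕ) : AddMonoid.End S) := by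
      conv_lhs => rw [← ZMod.natCast_zmod_val a]
      rw [map_natCast]
    rw [this, AddMonoid.End.natCast_apply]
  have key : ∀ s : Multiset (ZMod p), ∀ v : S, σ v = v → v ≠ 0 →
      σ ((aeval Γ (s.map (fun a => (X - C a : (ZMod p)[X]))).prod) v)
        = (aeval Γ (s.map (fun a => (X - C a : (ZMod p)[X]))).prod) v ∧
      (aeval Γ (s.map (fun a => (X - C a : (ZMod p)[X]))).prod) v ≠ 0 := by
    intro s
    induction s using Multiset.induction_on with
    | empty =>
      intro v hv hv0
      rw [Multiset.map_zero, Multiset.prod_zero, map_one]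
      exact ⟨hv, hv0⟩
    | cons a s ih =>
      intro v hv hv0
      rw [Multiset.map_cons, Multiset.prod_cons, map_mul]
      obtain ⟨h1, h2⟩ := ih v hv hv0
      set w := (aeval Γ (s.map (fun a => (X - C a : (ZMod p)[X]))).prod) v with hw
      have h3 : (aeval Γ (X - C a : (ZMod p)[X]) * aeval Γ (s.map (fun a => (X - C a : (ZMod p)[X]))).prod) v
          = c * w - a.val • w := by
        show (aeval Γ (X - C a : (ZMod p)[X])) w = _
        rw [map_sub, aeval_X, aeval_C]
        show Γ w - (algebraMap (ZMod p) (AddMonoid.End S) a) w = _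
        rw [halg, hΓ w h1]
      rw [h3]
      constructor
      · rw [map_sub, map_mul, hc, h1, map_nsmul, h1]
      · intro h0
        have h4 : (c - a.val • (1 : S)) * w = 0 := by
          rw [sub_mul, smul_mul_assoc, one_mul, h0]
        rcases mul_eq_zero.1 h4 with h | h
        · exact hcon a.val (sub_eq_zero.1 h)
        · exact h2 h
  obtain ⟨-, h2⟩ := key (Finset.univ : Finset (ZMod p)).val 1 (map_one σ) one_ne_zero
  apply h2
  rw [prod_zmod, map_sub, map_pow, aeval_X]
  show (Γ ^ p) 1 - Γ 1 = 0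
  rw [hΓp, sub_self]

end Ganley

section GanleyMain

variable {S : Type u} [NonAssocRing S] (p : ℕ) [Fact p.Prime]

/-- the averaged left multiplication -/
def TT (Γ : (AddMonoid.End S)ˣ) (n : ℕ) (w : S) : AddMonoid.End S :=
  ∑ i ∈ Finset.range n, ∑ j ∈ Finset.range n,
    ((Γ⁻¹ ^ (i + j) : (AddMonoid.End S)ˣ) : AddMonoid.End S) * Ld (((Γ : AddMonoid.End S) ^ i) w) *
      (Γ : AddMonoid.End S) ^ j

theorem TT_add (Γ : (AddMonoid.End S)ˣ) (n : ℕ) (w w' : S) :
    TT Γ n (w + w') = TT Γ n w + TT Γ n w' := by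
  unfold TT
  rw [← Finset.sum_add_distrib]
  apply Finset.sum_congr rfl; intro i _
  rw [← Finset.sum_add_distrib]
  apply Finset.sum_congr rfl; intro j _
  rw [map_add, map_add, mul_add, add_mul]

theorem au_TT (Γ : (AddMonoid.End S)ˣ) (n : ℕ) (w : S) (ρ : RingAut S)
    (hρ : Commute (au ρ) (Γ : AddMonoid.End S)) :
    au ρ * TT Γ n w = TT Γ n (ρ w) * au ρ := by
  unfold TT
  rw [Finset.mul_sum, Finset.sum_mul]
  apply Finset.sum_congr rfl; intro i _
  rw [Finset.mul_sum, Finset.sum_mul]
  apply Finset.sum_congr rfl; intro j _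
  have h1 : Commute (au ρ) ((Γ⁻¹ ^ (i + j) : (AddMonoid.End S)ˣ) : AddMonoid.End S) := by
    rw [Units.val_pow_eq_pow_val]
    exact (Commute.units_inv_right hρ).pow_right _
  have h2 : ρ (((Γ : AddMonoid.End S) ^ i) w) = ((Γ : AddMonoid.End S) ^ i) (ρ w) := by
    have := (hρ.pow_right i).eq
    exact DFunLike.congr_fun this w
  calc au ρ * (((Γ⁻¹ ^ (i + j) : (AddMonoid.End S)ˣ) : AddMonoid.End S)
        * Ld (((Γ : AddMonoid.End S) ^ i) w) * (Γ : AddMonoid.End S) ^ j)
      = (au ρ * ((Γ⁻¹ ^ (i + j) : (AddMonoid.End S)ˣ) : AddMonoid.End S))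
        * Ld (((Γ : AddMonoid.End S) ^ i) w) * (Γ : AddMonoid.End S) ^ j := by
        simp only [mul_assoc]
    _ = ((Γ⁻¹ ^ (i + j) : (AddMonoid.End S)ˣ) : AddMonoid.End S)
        * (au ρ * Ld (((Γ : AddMonoid.End S) ^ i) w)) * (Γ : AddMonoid.End S) ^ j := by
        rw [h1.eq]; simp only [mul_assoc]
    _ = ((Γ⁻¹ ^ (i + j) : (AddMonoid.End S)ˣ) : AddMonoid.End S)
        * Ld (((Γ : AddMonoid.End S) ^ i) (ρ w)) * (au ρ * (Γ : AddMonoid.End S) ^ j) := by
        rw [au_Ld, h2]; simp only [mul_assoc]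
    _ = _ := by
        rw [(hρ.pow_right j).eq]; simp only [mul_assoc]

theorem end_sum_apply {ι : Type*} (s : Finset ι) (f : ι → AddMonoid.End S) (x : S) :
    (∑ i ∈ s, f i) x = ∑ i ∈ s, f i x := by
  classical
  induction s using Finset.induction_on with
  | empty => rfl
  | insert a s ha ih =>
    rw [Finset.sum_insert ha, Finset.sum_insert ha, ← ih]
    rfl

theorem sum_shift {M : Type*} [AddCommGroup M] (f : ℕ → M) (n : ℕ) (h : f n = f 0) :
    ∑ i ∈ Finset.range n, f (i + 1) = ∑ i ∈ Finset.range n, f i := by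
  have h3 := Finset.sum_range_succ f n
  have h4 := Finset.sum_range_succ' f n
  rw [h3, h] at h4
  exact (add_right_cancel h4).symm

theorem TT_Gam (Γ : (AddMonoid.End S)ˣ) (n : ℕ) (hn : Γ ^ n = 1) (w : S) :
    TT Γ n ((Γ : AddMonoid.End S) w) = (Γ : AddMonoid.End S) * TT Γ n w := by
  unfold TT
  rw [Finset.mul_sum]
  have hG : ∀ (i j : ℕ), ((Γ⁻¹ ^ (i + j) : (AddMonoid.End S)ˣ) : AddMonoid.End S)
      = (Γ : AddMonoid.End S) * ((Γ⁻¹ ^ (i + 1 + j) : (AddMonoid.End S)ˣ) : AddMonoid.End S) := by
    intro i j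
    rw [← Units.val_mul]
    congr 1
    rw [add_right_comm, pow_succ', mul_inv_cancel_left]
  have hGn : (Γ : AddMonoid.End S) ^ n = 1 := by rw [← Units.val_pow_eq_pow_val, hn, Units.val_one]
  rw [← sum_shift (fun i => (Γ : AddMonoid.End S) * ∑ j ∈ Finset.range n,
    ((Γ⁻¹ ^ (i + j) : (AddMonoid.End S)ˣ) : AddMonoid.End S) * Ld (((Γ : AddMonoid.End S) ^ i) w) *
      (Γ : AddMonoid.End S) ^ j)]
  · apply Finset.sum_congr rfl; intro i _
    rw [Finset.mul_sum]
    apply Finset.sum_congr rfl; intro j _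
    rw [hG i j, end_pow_succ_apply']
    simp only [mul_assoc]
  · simp only [pow_add, inv_pow, hn, inv_one, one_mul, pow_zero, hGn]

theorem TT_comm (Γ : (AddMonoid.End S)ˣ) (n : ℕ) (hn : Γ ^ n = 1) (w : S) :
    Commute (Γ : AddMonoid.End S) (TT Γ n w) := by
  unfold TT
  show _ * _ = _ * _
  rw [Finset.mul_sum, Finset.sum_mul]
  apply Finset.sum_congr rfl; intro i _
  rw [Finset.mul_sum, Finset.sum_mul]
  have hGn : (Γ : AddMonoid.End S) ^ n = 1 := by rw [← Units.val_pow_eq_pow_val, hn, Units.val_one]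
  rw [← sum_shift (fun j => (Γ : AddMonoid.End S) *
    (((Γ⁻¹ ^ (i + j) : (AddMonoid.End S)ˣ) : AddMonoid.End S) * Ld (((Γ : AddMonoid.End S) ^ i) w) *
      (Γ : AddMonoid.End S) ^ j))]
  · apply Finset.sum_congr rfl; intro j _
    have hG : ((Γ⁻¹ ^ (i + j) : (AddMonoid.End S)ˣ) : AddMonoid.End S)
      = (Γ : AddMonoid.End S) * ((Γ⁻¹ ^ (i + (j + 1)) : (AddMonoid.End S)ˣ) : AddMonoid.End S) := by
      rw [← Units.val_mul]
      congr 1
      rw [← add_assoc, pow_succ' (Γ⁻¹) (i + j), mul_inv_cancel_left]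
    rw [hG, pow_succ (Γ : AddMonoid.End S) j]
    simp only [mul_assoc]
  · simp only [pow_add, inv_pow, hn, inv_one, mul_one, pow_zero, hGn]

variable [Finite S] [NoZeroDivisors S] [Nontrivial S]

/-- Ganley's theorem for all primes: if two commuting automorphisms, the first one of `p`-power
order, have the same fixed elements and `σ e = e + 1`, then `τ e = e + i` with `i` an integer. -/
theorem ganley (hp : ∀ x : S, p • x = 0) (σ τ : RingAut S) (hcomm : σ * τ = τ * σ) (k : ℕ)
    (hσ : σ ^ (p ^ k) = 1) (hst : ∀ x, σ x = x ↔ τ x = x) (e : S) (he : σ e = e + 1) :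
    ∃ i : ℕ, τ e = e + i • (1 : S) := by
  classical
  have hch := charP_end p hp
  have hpp : p.Prime := Fact.out
  have h10 : (1 : AddMonoid.End S) ≠ 0 := by
    intro h
    exact one_ne_zero (DFunLike.congr_fun h (1 : S))
  set c := τ e - e with hcdef
  have hτe : τ e = e + c := by rw [hcdef]; abel
  have hcs : σ c = c := by
    rw [hcdef, map_sub, ← aut_mul_apply, hcomm, aut_mul_apply, he, map_add, map_one]
    abel
  have hct : τ c = c := (hst c).1 hcs
  have hc0 : c ≠ 0 := by
    intro h
    rw [h, add_zero] at hτe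
    have := (hst e).2 hτe
    rw [he] at this
    exact one_ne_zero (add_eq_left.1 this)
  -- M u = c * N u
  have hM : ∀ u, σ (Nn σ u) = Nn σ u → Nn τ u = c * Nn σ u := by
    intro u hu
    have h1 : Nn σ (e * Nn σ u) = Nn σ u := by
      rw [Nn_mul_right σ hu, Nn_apply, he]
      rw [add_sub_cancel_left, one_mul]
    have h2 : Nn σ (u - e * Nn σ u) = 0 := by rw [map_sub, h1, sub_self]
    have h3 : Nn τ (u - e * Nn σ u) = 0 := by
      rw [Nn_eq_zero, ← hst, ← Nn_eq_zero]; exact h2
    rw [map_sub, sub_eq_zero, Nn_mul_right τ ((hst _).1 hu)] at h3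
    rw [h3]
    rfl
  have hNae : ∀ a, σ a = a → Nn σ (e * a) = a := by
    intro a ha
    rw [Nn_mul_right σ ha, Nn_apply, he, add_sub_cancel_left, one_mul]
  have hass : ∀ a b, σ a = a → σ b = b → c * (a * b) = (c * a) * b := by
    intro a b ha hb
    have h1 : Nn σ ((e * a) * b) = a * b := by rw [Nn_mul_right σ hb, hNae a ha]
    have h2 := hM ((e * a) * b) (by rw [h1, map_mul, ha, hb])
    rw [h1, Nn_mul_right τ ((hst b).1 hb), Nn_mul_right τ ((hst a).1 ha), Nn_apply] at h2
    rw [← h2]
  -- left multiplication by c as a unit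
  have hinj : Function.Injective (Ld c) := by
    intro x y hxy
    have h3 : c * x = c * y := hxy
    have : c * (x - y) = 0 := by rw [mul_sub, h3, sub_self]
    rcases mul_eq_zero.1 this with h | h
    · exact absurd h hc0
    · exact sub_eq_zero.1 h
  have hbij : Function.Bijective (Ld c) := Finite.injective_iff_bijective.1 hinj
  let g : S ≃+ S := AddEquiv.ofBijective (Ld c : S →+ S) hbij
  have hg : ∀ x, g x = c * x := fun x => rfl
  let u : (AddMonoid.End S)ˣ :=
    { val := Ld c
      inv := (g.symm : S →+ S)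
      val_inv := by ext x; exact g.apply_symm_apply x
      inv_val := by ext x; exact g.symm_apply_apply x }
  have hu : (u : AddMonoid.End S) = Ld c := rfl
  have hfinE : Finite (AddMonoid.End S) :=
    Finite.of_injective (fun f : AddMonoid.End S => (f : S → S)) DFunLike.coe_injective
  have hfinU : Finite (AddMonoid.End S)ˣ := inferInstance
  have hN0 : orderOf u ≠ 0 := (orderOf_pos u).ne'
  obtain ⟨b, n, hpn, hb⟩ := Nat.exists_eq_pow_mul_and_not_dvd hN0 p hpp.ne_one
  have hn0 : 0 < n := by
    rcases Nat.eq_zero_or_pos n with h | h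
    · rw [h] at hpn; exact absurd (dvd_zero p) hpn
    · exact h
  have hcop : Nat.Coprime (p ^ b) n := Nat.Coprime.pow_left _ ((hpp.coprime_iff_not_dvd).2 hpn)
  obtain ⟨t, ht0, ht1⟩ := Nat.chineseRemainder hcop 0 1
  have htd : p ^ b ∣ t := (Nat.modEq_zero_iff_dvd).1 ht0
  set Γ := u ^ t with hΓ
  have hΓn : Γ ^ n = 1 := by
    rw [hΓ, ← pow_mul]
    apply orderOf_dvd_iff_pow_eq_one.1
    rw [hb]
    exact Nat.mul_dvd_mul htd dvd_rfl
  -- action on the fixed ring
  have hpowfix : ∀ (m : ℕ) (a : S), σ a = a → σ ((Ld c ^ m) a) = (Ld c ^ m) a := by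
    intro m a ha
    induction m with
    | zero => exact ha
    | succ m ih =>
      rw [end_pow_succ_apply, Ld_apply, map_mul, hcs, ih]
  have hpow : ∀ (m : ℕ) (a : S), σ a = a → (Ld c ^ m) a = (Ld c ^ m) 1 * a := by
    intro m a ha
    induction m with
    | zero => exact (one_mul a).symm
    | succ m ih =>
      rw [end_pow_succ_apply, end_pow_succ_apply, ih, Ld_apply, Ld_apply,
        hass _ _ (hpowfix m 1 (map_one σ)) ha]
  have htriv : ∀ a, σ a = a → (Ld c ^ n) a = a := by
    have hfp : ∃ a : S, σ a = a ∧ a ≠ 0 ∧ (Ld c ^ n) a = a := by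
      have := Fintype.ofFinite (fixR σ)
      let f : fixR σ → fixR σ := fun a => ⟨(Ld c ^ n) a.1, hpowfix n a.1 a.2⟩
      have hunit : ((u ^ n : (AddMonoid.End S)ˣ) : AddMonoid.End S) = Ld c ^ n := by
        rw [Units.val_pow_eq_pow_val]
      have hpb : (Ld c ^ n) ^ (p ^ b) = 1 := by
        rw [← pow_mul, mul_comm, ← hb, ← hu, ← Units.val_pow_eq_pow_val, pow_orderOf_eq_one,
          Units.val_one]
      have hiter : ∀ (m : ℕ) (a : fixR σ), (f^[m] a).1 = ((Ld c ^ n) ^ m) a.1 := by
        intro m a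
        induction m with
        | zero => rfl
        | succ m ih =>
          rw [Function.iterate_succ_apply', end_pow_succ_apply, ← ih]
      have hfi : f^[p ^ b] = id := by
        funext a
        apply Subtype.ext
        rw [hiter, hpb]; rfl
      have hfb : Function.Bijective f := by
        apply Finite.injective_iff_bijective.1
        intro a a' h
        have h1 : f^[p ^ b] a = f^[p ^ b] a' := by
          have hpos : 0 < p ^ b := pow_pos hpp.pos _
          obtain ⟨m, hm⟩ := Nat.exists_eq_succ_of_ne_zero hpos.ne'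
          rw [hm, Function.iterate_succ_apply, Function.iterate_succ_apply, h]
        rwa [hfi] at h1
      let ρ : Equiv.Perm (fixR σ) := Equiv.ofBijective f hfb
      have hρ : ρ ^ (p ^ b) = 1 := by
        ext a
        have : ∀ m : ℕ, (ρ ^ m) a = f^[m] a := by
          intro m
          rw [Equiv.Perm.coe_pow]; rfl
        rw [this, hfi]; rfl
      have hρ0 : ρ 0 = 0 := Subtype.ext (map_zero (Ld c ^ n))
      have hcard : p ∣ Fintype.card (fixR σ) := by
        have h1 : addOrderOf (1 : fixR σ) ∣ p :=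
          addOrderOf_dvd_of_nsmul_eq_zero (Subtype.ext (hp 1))
        have h3 : addOrderOf (1 : fixR σ) = p := by
          rcases (Nat.dvd_prime hpp).1 h1 with h | h
          · exact absurd (AddMonoid.addOrderOf_eq_one_iff.1 h) one_ne_zero
          · exact h
        rw [← h3]; exact addOrderOf_dvd_card
      obtain ⟨a, ha, ha0⟩ := Equiv.Perm.exists_fixed_point_of_prime' hcard hρ hρ0
      refine ⟨a.1, a.2, fun h => ha0 (Subtype.ext h), ?_⟩
      exact congrArg Subtype.val ha
    obtain ⟨a, ha, ha0, hfa⟩ := hfp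
    have h1 : ((Ld c ^ n) 1 - 1) * a = 0 := by
      rw [sub_mul, ← hpow n a ha, hfa, one_mul, sub_self]
    have h2 : (Ld c ^ n) 1 = 1 := by
      rcases mul_eq_zero.1 h1 with h | h
      · exact sub_eq_zero.1 h
      · exact absurd h ha0
    intro a ha
    rw [hpow n a ha, h2, one_mul]
  have hper : ∀ (m : ℕ) (a : S), σ a = a → (Ld c ^ m) a = (Ld c ^ (m % n)) a := by
    intro m a ha
    have h1 : ∀ q : ℕ, (Ld c ^ (n * q)) a = a := by
      intro q
      induction q with
      | zero => rfl
      | succ q ih =>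
        rw [mul_add, mul_one, pow_add]
        show (Ld c ^ (n * q)) ((Ld c ^ n) a) = a
        rw [htriv a ha, ih]
    conv_lhs => rw [← Nat.mod_add_div m n]
    rw [pow_add]
    show (Ld c ^ (m % n)) ((Ld c ^ (n * (m / n))) a) = _
    rw [h1]
  have hΓfix : ∀ a, σ a = a → (Γ : AddMonoid.End S) a = c * a := by
    intro a ha
    rw [hΓ, Units.val_pow_eq_pow_val, hu, hper t a ha]
    have : t % n = 1 % n := ht1
    rw [this, ← hper 1 a ha, pow_one]
    rfl
  have hΓσ : Commute (au σ) (Γ : AddMonoid.End S) := by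
    rw [hΓ, Units.val_pow_eq_pow_val, hu]
    apply Commute.pow_right
    show _ = _
    rw [au_Ld, hcs]
  have hΓτ : Commute (au τ) (Γ : AddMonoid.End S) := by
    rw [hΓ, Units.val_pow_eq_pow_val, hu]
    apply Commute.pow_right
    show _ = _
    rw [au_Ld, hct]
  have hΓ1 : (Γ : AddMonoid.End S) 1 = c := by rw [hΓfix 1 (map_one σ), mul_one]
  set B := TT Γ n 1 with hB
  have hBσ : au σ * B = B * au σ := by rw [hB, au_TT Γ n 1 σ hΓσ, map_one]
  have hBτ : au τ * B = B * au τ := by rw [hB, au_TT Γ n 1 τ hΓτ, map_one]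
  have hBΓ : Commute (Γ : AddMonoid.End S) B := TT_comm Γ n hΓn 1
  have hAσ : au σ * TT Γ n e = (TT Γ n e + B) * au σ := by
    rw [au_TT Γ n e σ hΓσ, he, TT_add]
  have hAτ : au τ * TT Γ n e = (TT Γ n e + Γ * B) * au τ := by
    rw [au_TT Γ n e τ hΓτ, hτe, TT_add, ← hΓ1, TT_Gam Γ n hΓn]
  have hAΓ : Commute (Γ : AddMonoid.End S) (TT Γ n e) := TT_comm Γ n hΓn e
  -- powers of Γ on the fixed ring
  have hΓpow : ∀ (m : ℕ) (a : S), σ a = a → ((Γ : AddMonoid.End S) ^ m) a = (Ld c ^ m) a := by
    intro m a ha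
    induction m with
    | zero => rfl
    | succ m ih =>
      rw [end_pow_succ_apply, end_pow_succ_apply, ih, hΓfix _ (hpowfix m a ha), Ld_apply]
  have hBfix : ∀ a, σ a = a → B a = (n * n) • a := by
    intro a ha
    have hterm : ∀ i j : ℕ, (((Γ⁻¹ ^ (i + j) : (AddMonoid.End S)ˣ) : AddMonoid.End S)
        * Ld (((Γ : AddMonoid.End S) ^ i) 1) * (Γ : AddMonoid.End S) ^ j) a = a := by
      intro i j
      have h1 : (Ld (((Γ : AddMonoid.End S) ^ i) 1) * (Γ : AddMonoid.End S) ^ j) a
          = ((Γ ^ (i + j) : (AddMonoid.End S)ˣ) : AddMonoid.End S) a := by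
        show ((Γ : AddMonoid.End S) ^ i) 1 * ((Γ : AddMonoid.End S) ^ j) a = _
        rw [hΓpow i 1 (map_one σ), hΓpow j a ha, ← hpow i _ (hpowfix j a ha),
          Units.val_pow_eq_pow_val, hΓpow _ a ha, pow_add]
        rfl
      rw [mul_assoc]
      show ((Γ⁻¹ ^ (i + j) : (AddMonoid.End S)ˣ) : AddMonoid.End S)
        ((Ld (((Γ : AddMonoid.End S) ^ i) 1) * (Γ : AddMonoid.End S) ^ j) a) = a
      rw [h1]
      show (((Γ⁻¹ ^ (i + j) : (AddMonoid.End S)ˣ) : AddMonoid.End S)
        * ((Γ ^ (i + j) : (AddMonoid.End S)ˣ) : AddMonoid.End S)) a = a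
      rw [← Units.val_mul, inv_pow, inv_mul_cancel, Units.val_one]
      rfl
    rw [hB, TT, end_sum_apply]
    have : ∀ i ∈ Finset.range n, (∑ j ∈ Finset.range n,
        ((Γ⁻¹ ^ (i + j) : (AddMonoid.End S)ˣ) : AddMonoid.End S)
        * Ld (((Γ : AddMonoid.End S) ^ i) 1) * (Γ : AddMonoid.End S) ^ j) a = n • a := by
      intro i _
      rw [end_sum_apply, Finset.sum_congr rfl fun j _ => hterm i j,
        Finset.sum_const, Finset.card_range]
    rw [Finset.sum_congr rfl this, Finset.sum_const, Finset.card_range, smul_smul]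
  have hnn : ¬ p ∣ n * n := by
    intro h
    rcases hpp.dvd_mul.1 h with h | h <;> exact hpn h
  have hBinj : Function.Injective B := by
    rw [injective_iff_map_eq_zero]
    intro x hx
    by_contra hx0
    have hNm := Nn_pow_p p hp σ k hσ
    have hex : ∃ m, (Nn σ ^ m) x = 0 := ⟨p ^ k, by rw [hNm]; rfl⟩
    have hpos : Nat.find hex ≠ 0 := by
      intro h
      have := Nat.find_spec hex
      rw [h] at this
      exact hx0 this
    obtain ⟨m, hm⟩ := Nat.exists_eq_succ_of_ne_zero hpos
    have h1 : (Nn σ ^ m) x ≠ 0 := Nat.find_min hex (by omega)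
    have h2 : (Nn σ ^ (m + 1)) x = 0 := by
      have := Nat.find_spec hex
      rwa [hm] at this
    rw [end_pow_succ_apply, Nn_eq_zero] at h2
    have hBN : Commute (Nn σ) B := by
      rw [Nn]
      exact Commute.sub_left hBσ (Commute.one_left _)
    have h3 : B ((Nn σ ^ m) x) = 0 := by
      have := DFunLike.congr_fun ((hBN.pow_left m).eq) x
      have h4 : (Nn σ ^ m) (B x) = B ((Nn σ ^ m) x) := this
      rw [← h4, hx, map_zero]
    rw [hBfix _ h2] at h3
    exact h1 (smul_eq_zero_of_coprime p hp hnn h3)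
  have hBbij : Function.Bijective B := Finite.injective_iff_bijective.1 hBinj
  let gB : S ≃+ S := AddEquiv.ofBijective (B : S →+ S) hBbij
  let uB : (AddMonoid.End S)ˣ :=
    { val := B
      inv := (gB.symm : S →+ S)
      val_inv := by ext x; exact gB.apply_symm_apply x
      inv_val := by ext x; exact gB.symm_apply_apply x }
  have huB : (uB : AddMonoid.End S) = B := rfl
  set A := ((uB⁻¹ : (AddMonoid.End S)ˣ) : AddMonoid.End S) * TT Γ n e with hA
  have hinvB : ((uB⁻¹ : (AddMonoid.End S)ˣ) : AddMonoid.End S) * B = 1 := by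
    rw [← huB, ← Units.val_mul, inv_mul_cancel, Units.val_one]
  have hcB : ∀ x : AddMonoid.End S, Commute x B →
      Commute x ((uB⁻¹ : (AddMonoid.End S)ˣ) : AddMonoid.End S) := by
    intro x hx
    exact Commute.units_inv_right hx
  have hσA : SemiconjBy (au σ) A (A + 1) := by
    have h1 : SemiconjBy (au σ) ((uB⁻¹ : (AddMonoid.End S)ˣ) : AddMonoid.End S)
      ((uB⁻¹ : (AddMonoid.End S)ˣ) : AddMonoid.End S) := hcB _ hBσ
    have h2 : SemiconjBy (au σ) (TT Γ n e) (TT Γ n e + B) := hAσ
    have h3 := h1.mul_right h2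
    rwa [mul_add, hinvB] at h3
  have hτA : SemiconjBy (au τ) A (A + (Γ : AddMonoid.End S)) := by
    have h1 : SemiconjBy (au τ) ((uB⁻¹ : (AddMonoid.End S)ˣ) : AddMonoid.End S)
      ((uB⁻¹ : (AddMonoid.End S)ˣ) : AddMonoid.End S) := hcB _ hBτ
    have h2 : SemiconjBy (au τ) (TT Γ n e) (TT Γ n e + Γ * B) := hAτ
    have h3 := h1.mul_right h2
    rwa [mul_add, hBΓ.eq, ← mul_assoc _ B, hinvB, one_mul] at h3
  have hΓA : Commute A (Γ : AddMonoid.End S) :=
    ((hcB _ hBΓ).mul_right hAΓ).symm
  have hσZ : SemiconjBy (au σ) (A ^ p - A) (A ^ p - A) := by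
    have h1 := (hσA.pow_right p).sub_right hσA
    rwa [add_pow_char_of_commute _ (Commute.one_right A), one_pow, add_sub_add_right_eq_sub] at h1
  have hτZ : SemiconjBy (au τ) (A ^ p - A)
      (A ^ p - A + ((Γ : AddMonoid.End S) ^ p - (Γ : AddMonoid.End S))) := by
    have h1 := (hτA.pow_right p).sub_right hτA
    rw [add_pow_char_of_commute _ hΓA] at h1
    have h2 : A ^ p + (Γ : AddMonoid.End S) ^ p - (A + (Γ : AddMonoid.End S))
      = A ^ p - A + ((Γ : AddMonoid.End S) ^ p - (Γ : AddMonoid.End S)) := by abel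
    rwa [h2] at h1
  have hZ1 : σ ((A ^ p - A) 1) = (A ^ p - A) 1 := by
    have h1 : (au σ * (A ^ p - A)) 1 = ((A ^ p - A) * au σ) 1 := by rw [hσZ.eq]
    have h2 : σ ((A ^ p - A) 1) = (A ^ p - A) (σ 1) := h1
    rw [h2, map_one]
  have hZ2 : τ ((A ^ p - A) 1) = (A ^ p - A) 1 := (hst _).1 hZ1
  have hΓp : ((Γ : AddMonoid.End S) ^ p) 1 = (Γ : AddMonoid.End S) 1 := by
    have h1 : (au τ * (A ^ p - A)) 1
      = ((A ^ p - A + ((Γ : AddMonoid.End S) ^ p - (Γ : AddMonoid.End S))) * au τ) 1 := by
      rw [hτZ.eq]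
    have h2 : τ ((A ^ p - A) 1) = (A ^ p - A) (τ 1)
      + (((Γ : AddMonoid.End S) ^ p) (τ 1) - (Γ : AddMonoid.End S) (τ 1)) := h1
    have h4 : τ 1 = 1 := map_one τ
    rw [hZ2, h4] at h2
    have h3 := add_eq_left.1 h2.symm
    exact sub_eq_zero.1 h3
  obtain ⟨i, hi⟩ := mem_prime_field p hp σ c hcs (Γ : AddMonoid.End S) hΓfix hΓp
  exact ⟨i, by rw [hτe, hi]⟩

end GanleyMain

section Free

variable {S : Type u} [NonAssocRing S] (p : ℕ) [Fact p.Prime]

/-- Restriction of automorphisms commuting with `z` to the fixed ring of `z`. -/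
def restr (z : RingAut S) (P : Subgroup (RingAut S)) (hP : ∀ g ∈ P, g * z = z * g) :
    P →* RingAut (fixR z) where
  toFun g :=
    { toFun := fun a => ⟨g.1 a.1, by
        have ha : z a.1 = a.1 := a.2
        show z (g.1 a.1) = g.1 a.1
        rw [← aut_mul_apply, ← hP g.1 g.2, aut_mul_apply, ha]⟩
      invFun := fun a => ⟨g.1⁻¹ a.1, by
        have ha : z a.1 = a.1 := a.2
        show z (g.1⁻¹ a.1) = g.1⁻¹ a.1
        rw [← aut_mul_apply, ← hP g.1⁻¹ (P.inv_mem g.2), aut_mul_apply, ha]⟩
      left_inv := fun a => by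
        apply Subtype.ext
        show (g.1⁻¹ * g.1) a.1 = a.1
        rw [inv_mul_cancel]; rfl
      right_inv := fun a => by
        apply Subtype.ext
        show (g.1 * g.1⁻¹) a.1 = a.1
        rw [mul_inv_cancel]; rfl
      map_mul' := fun a b => Subtype.ext (map_mul g.1 a.1 b.1)
      map_add' := fun a b => Subtype.ext (map_add g.1 a.1 b.1) }
  map_one' := RingEquiv.ext fun a => rfl
  map_mul' g h := RingEquiv.ext fun a => rfl

theorem finite_ringAut [Finite S] : Finite (RingAut S) :=
  Finite.of_injective (fun σ : RingAut S => (σ : S → S)) DFunLike.coe_injective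

variable [Finite S] [NoZeroDivisors S] [Nontrivial S]

/-- An automorphism of order `p` fixing the fixed elements of `z` has the same fixed elements. -/
theorem fix_eq (hp : ∀ x : S, p • x = 0) (z h : RingAut S) (hz : z ^ p = 1) (hz1 : z ≠ 1)
    (hh : h ^ p = 1) (hh1 : h ≠ 1) (hfix : ∀ x, z x = x → h x = x) (x : S) :
    z x = x ↔ h x = x := by
  have c1 := card_fix_pow p hp z hz hz1
  have c2 := card_fix_pow p hp h hh hh1
  have hsub : {x : S | z x = x} ⊆ {x : S | h x = x} := fun x hx => hfix x hx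
  have hcard : Nat.card {x : S | z x = x} = Nat.card {x : S | h x = x} := by
    have : Nat.card {x : S | z x = x} ^ p = Nat.card {x : S | h x = x} ^ p := by rw [c1, c2]
    exact Nat.pow_left_injective (n := p) (Fact.out : p.Prime).ne_zero this
  have heq : {x : S | z x = x} = {x : S | h x = x} := by
    apply Set.eq_of_subset_of_ncard_le hsub
    rw [← Nat.card_coe_set_eq, ← Nat.card_coe_set_eq, hcard]
  exact Set.ext_iff.1 heq x

omit [Finite S] [NoZeroDivisors S] in
/-- No automorphism `g` with `g ^ p` of order `p` has the same fixed elements as `g ^ p`. -/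
theorem no_p2 (hp : ∀ x : S, p • x = 0) (g : RingAut S) (hg : g ^ (p ^ 2) = 1)
    (hgp : g ^ p ≠ 1) (hfix : ∀ x, (g ^ p) x = x → g x = x) : False := by
  have hch := charP_end p hp
  have hpp : p.Prime := Fact.out
  have hN : Nn g ^ p = Nn (g ^ p) := by
    rw [Nn, Nn, sub_pow_char_of_commute _ (Commute.one_right _), one_pow, ← au_pow]
  have h2 : ∀ x, (Nn g ^ 2) x = 0 → Nn g x = 0 := by
    intro x hx
    have h3 : (Nn g ^ p) x = 0 := by
      have : p = (p - 2) + 2 := (Nat.sub_add_cancel hpp.two_le).symm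
      rw [this, pow_add]
      show (Nn g ^ (p - 2)) ((Nn g ^ 2) x) = 0
      rw [hx, map_zero]
    rw [hN, Nn_eq_zero] at h3
    exact (Nn_eq_zero g x).2 (hfix x h3)
  have h3 : ∀ m x, (Nn g ^ (m + 1)) x = 0 → Nn g x = 0 := by
    intro m
    induction m with
    | zero => intro x hx; rwa [zero_add, pow_one] at hx
    | succ m ih =>
      intro x hx
      rw [end_pow_succ_apply'] at hx
      have := ih _ hx
      apply h2
      rw [sq]; exact this
  apply hgp
  have hg1 : g = 1 := by
    apply RingEquiv.ext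
    intro x
    rw [aut_one_apply, ← Nn_eq_zero]
    have hn := Nn_pow_p p hp g 2 hg
    obtain ⟨m, hm⟩ := Nat.exists_eq_succ_of_ne_zero (pow_pos hpp.pos 2).ne'
    apply h3 m
    rw [hm] at hn
    rw [hn]; rfl
  rw [hg1, one_pow]

/-- Artin's theorem for `p`-groups of automorphisms of a finite semifield of characteristic `p`. -/
theorem free_action (n : ℕ) : ∀ (S : Type u) [NonAssocRing S] [Finite S] [Nontrivial S]
    [NoZeroDivisors S], (∀ x : S, p • x = 0) → ∀ P : Subgroup (RingAut S), IsPGroup p P →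
    Nat.card P = n → Nat.card {x : S | ∀ g ∈ P, g x = x} ^ Nat.card P = Nat.card S := by
  induction n using Nat.strong_induction_on with
  | _ n ih =>
    intro S _ _ _ _ hpS P hP hn
    have : Finite (RingAut S) := finite_ringAut
    have hpp : p.Prime := Fact.out
    by_cases htriv : Nontrivial P
    · -- central element of order p
      have hcen : Nontrivial (Subgroup.center P) := hP.center_nontrivial
      have hdvd : p ∣ Nat.card (Subgroup.center P) := by
        have hpc : IsPGroup p (Subgroup.center P) := hP.to_subgroup _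
        obtain ⟨k, hk⟩ := IsPGroup.iff_card.1 hpc
        have hk1 : 1 < Nat.card (Subgroup.center P) := Finite.one_lt_card
        rw [hk] at hk1 ⊢
        rcases k with _ | k
        · simp at hk1
        · exact Dvd.intro_left (p ^ k) rfl
      obtain ⟨z, hz⟩ := exists_prime_orderOf_dvd_card' p hdvd
      have hz1 : z ≠ 1 := by
        intro h; rw [h, orderOf_one] at hz; exact hpp.one_lt.ne hz
      have hzp : z ^ p = 1 := by
        have := pow_orderOf_eq_one z
        rwa [hz] at this
      set zz : RingAut S := ((z : P) : RingAut S) with hzzdef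
      have zz1 : zz ≠ 1 := by
        intro h
        apply hz1
        apply Subtype.ext
        apply Subtype.ext
        exact h
      have zzp : zz ^ p = 1 := by
        have := congrArg (fun t : Subgroup.center P => ((t : P) : RingAut S)) hzp
        exact this
      have hcomm : ∀ g ∈ P, g * zz = zz * g := by
        intro g hg
        have := (Subgroup.mem_center_iff.1 z.2) ⟨g, hg⟩
        exact congrArg Subtype.val this
      have hcA : Nat.card (fixR zz) ^ p = Nat.card S := card_fix_pow p hpS zz zzp zz1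
      have zzp1 : zz ^ (p ^ 1) = 1 := by rwa [pow_one]
      obtain ⟨e, he⟩ := exists_e p hpS zz 1 zzp1 zz1
      -- nontrivial elements of the kernel
      have hker : ∀ h : P, restr zz P hcomm h = 1 → h ≠ 1 → ∀ x, zz x = x ↔ h.1 x = x := by
        intro h hres hne
        have hfix : ∀ x, zz x = x → h.1 x = x := by
          intro x hx
          have := congrArg (fun t : RingAut (fixR zz) => (t ⟨x, hx⟩).1) hres
          exact this
        have hfixp : ∀ (m : ℕ) (x : S), zz x = x → (h.1 ^ m) x = x := by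
          intro m x hx
          induction m with
          | zero => rfl
          | succ m ihm => rw [pow_succ, aut_mul_apply, hfix x hx, ihm]
        obtain ⟨a, ha⟩ := (IsPGroup.iff_orderOf.1 hP) h
        have ho : h.1 ^ (p ^ a) = 1 := by
          have := pow_orderOf_eq_one h
          rw [ha] at this
          exact congrArg Subtype.val this
        have hno : ∀ m, m < p ^ a → 0 < m → h.1 ^ m ≠ 1 := by
          intro m hm hm0 hh
          have h5 : h ^ m = 1 := Subtype.ext hh
          have h6 := orderOf_dvd_of_pow_eq_one h5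
          rw [ha] at h6
          exact absurd (Nat.le_of_dvd hm0 h6) (by omega)
        rcases a with _ | a
        · exfalso; apply hne
          rw [pow_zero, orderOf_eq_one_iff] at ha
          exact ha
        · have hk : ∀ x, zz x = x ↔ (h.1 ^ (p ^ a)) x = x := by
            apply fix_eq p hpS zz _ zzp zz1
            · rw [← pow_mul, ← pow_succ, ho]
            · apply hno _ _ (pow_pos hpp.pos _)
              exact Nat.pow_lt_pow_right hpp.one_lt (Nat.lt_succ_self a)
            · exact hfixp _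
          rcases a with _ | a
          · rw [pow_zero, pow_one] at hk; exact hk
          · exfalso
            apply no_p2 p hpS (h.1 ^ (p ^ a))
            · rw [← pow_mul, ← pow_add, ho]
            · rw [← pow_mul, ← pow_succ]
              apply hno _ _ (pow_pos hpp.pos _)
              exact Nat.pow_lt_pow_right hpp.one_lt (Nat.lt_succ_self _)
            · intro x hx
              rw [← pow_mul, ← pow_succ, ← hk] at hx
              exact hfixp _ x hx
      have hzP : restr zz P hcomm z.1 = 1 := by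
        apply RingEquiv.ext
        intro a
        apply Subtype.ext
        exact a.2
      have hcker : Nat.card (restr zz P hcomm).ker = p := by
        apply le_antisymm
        · -- injection into Fin p
          have hval : ∀ h : (restr zz P hcomm).ker, ∃ i : Fin p, h.1.1 e = e + i.1 • (1 : S) := by
            intro h
            have h0 : ∃ i : ℕ, h.1.1 e = e + i • (1 : S) := by
              by_cases h1 : h.1 = 1
              · exact ⟨0, by rw [h1, zero_smul, add_zero]; rfl⟩
              · exact ganley p hpS zz h.1.1 (hcomm _ h.1.2).symm 1 zzp1 (hker h.1 h.2 h1) e he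
            obtain ⟨i, hi⟩ := h0
            refine ⟨⟨i % p, Nat.mod_lt _ hpp.pos⟩, ?_⟩
            rw [hi]
            congr 1
            conv_lhs => rw [← Nat.mod_add_div i p]
            rw [add_smul, mul_smul, hpS, add_zero]
          choose φ hφ using hval
          have hinj : Function.Injective φ := by
            intro h h' hhh
            have h1 : h.1.1 e = h'.1.1 e := by rw [hφ h, hφ h', hhh]
            by_contra hne
            have h2 : (h'⁻¹ * h).1 ≠ 1 := by
              intro h3
              apply hne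
              have h4 : h'⁻¹ * h = 1 := Subtype.ext h3
              exact (inv_mul_eq_one.1 h4).symm
            have h5 := (hker (h'⁻¹ * h).1 (h'⁻¹ * h).2 h2 e).2 (by
              show (h'.1.1⁻¹ * h.1.1) e = e
              rw [aut_mul_apply, h1, ← aut_mul_apply, inv_mul_cancel]; rfl)
            rw [he] at h5
            exact one_ne_zero (add_eq_left.1 h5)
          have := Nat.card_le_card_of_injective φ hinj
          rwa [Nat.card_fin] at this
        · have h1 : orderOf (⟨z.1, hzP⟩ : (restr zz P hcomm).ker) = p := by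
            apply orderOf_eq_prime
            · apply Subtype.ext
              have := congrArg Subtype.val hzp
              exact this
            · intro h
              apply hz1
              apply Subtype.ext
              have h7 : z.1 = (1 : P) := congrArg (fun t : (restr zz P hcomm).ker => t.1) h
              exact h7
          have h2 := Nat.le_of_dvd Nat.card_pos (orderOf_dvd_natCard (⟨z.1, hzP⟩ : (restr zz P hcomm).ker))
          rwa [h1] at h2
      have hcP : p * Nat.card (restr zz P hcomm).range = Nat.card P := by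
        have := Subgroup.card_mul_index (restr zz P hcomm).ker
        rwa [Subgroup.index_ker, hcker] at this
      have hfinA : Finite (RingAut (fixR zz)) := finite_ringAut
      have hpos : 0 < Nat.card (restr zz P hcomm).range := Nat.card_pos
      have hP1 : IsPGroup p (restr zz P hcomm).range :=
        hP.of_surjective (restr zz P hcomm).rangeRestrict (restr zz P hcomm).rangeRestrict_surjective
      have hlt : Nat.card (restr zz P hcomm).range < n := by
        rw [← hn, ← hcP]
        have := hpp.two_le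
        nlinarith
      have hfin : Nat.card {a : fixR zz | ∀ g ∈ (restr zz P hcomm).range, g a = a}
          ^ Nat.card (restr zz P hcomm).range = Nat.card (fixR zz) := by
        apply ih (Nat.card (restr zz P hcomm).range) hlt (fixR zz)
        · intro x; exact Subtype.ext (hpS x.1)
        · exact hP1
        · rfl
      have hfc : Nat.card {a : fixR zz | ∀ g ∈ (restr zz P hcomm).range, g a = a}
          = Nat.card {x : S | ∀ g ∈ P, g x = x} := by
        apply Nat.card_congr
        refine
          { toFun := fun a => ⟨a.1.1, fun g hg => ?_⟩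
            invFun := fun x => ⟨⟨x.1, x.2 zz z.1.2⟩, ?_⟩
            left_inv := fun a => rfl
            right_inv := fun x => rfl }
        · have := a.2 (restr zz P hcomm ⟨g, hg⟩) ⟨_, rfl⟩
          exact congrArg Subtype.val this
        · rintro g ⟨g0, rfl⟩
          exact Subtype.ext (x.2 g0.1 g0.2)
      rw [hfc] at hfin
      rw [← hcP, mul_comm, pow_mul, hfin, hcA]
    · -- trivial group
      rw [not_nontrivial_iff_subsingleton] at htriv
      have hc : Nat.card P = 1 := Nat.card_unique
      rw [hc, pow_one]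
      have hall : {x : S | ∀ g ∈ P, g x = x} = Set.univ := by
        ext x
        simp only [Set.mem_ofPred_eq, Set.mem_univ, iff_true]
        intro g hg
        have : (⟨g, hg⟩ : P) = 1 := Subsingleton.elim _ _
        have h3 : g = 1 := congrArg Subtype.val this
        rw [h3]
        rfl
      rw [hall, Nat.card_congr (Equiv.Set.univ S)]

end Free

end Pool.Agent.Lib_MP_4776c2
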