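import Pool.Agent.Lib_MP_4776c2.Tri

set_option autoImplicit false

namespace Pool.Agent.Lib_MP_4776c2

universe u v w

open Module

section Desc

variable {K : Type v} [Field K] {S : Type u} [NonAssocRing S] [Module K S]
  [IsScalarTower K S S] [SMulCommClass K S S] [Finite S] [NoZeroDivisors S]

/-- Components of the multiplication of `S` on which the group `H` acts. -/
structure Tri (H : Subgroup (LG K S)) (d : ℕ) (U V W : Submodule K S) : Prop where
  dU : finrank K U = d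
  dV : finrank K V = d
  dW : finrank K W = d
  mul : ∀ u ∈ U, ∀ v ∈ V, u * v ∈ W
  iU : ∀ g ∈ H, ∀ u ∈ U, g.1.1 u ∈ U
  iV : ∀ g ∈ H, ∀ v ∈ V, g.1.2.1 v ∈ V
  iW : ∀ g ∈ H, ∀ w ∈ W, g.1.2.2 w ∈ W

omit [IsScalarTower K S S] in
theorem le_left (u : S) (hu : u ≠ 0) (V W : Submodule K S) (h : ∀ v ∈ V, u * v ∈ W) :
    finrank K V ≤ finrank K W := by
  have : FiniteDimensional K S := inferInstance
  apply LinearMap.finrank_le_finrank_of_injective (f := (LinearMap.mulLeft K u).restrict h)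
  intro x y hxy
  have h1 : u * x.1 = u * y.1 := congrArg Subtype.val hxy
  have h2 : u * (x.1 - y.1) = 0 := by rw [mul_sub, h1, sub_self]
  exact Subtype.ext (sub_eq_zero.1 ((mul_eq_zero.1 h2).resolve_left hu))

omit [SMulCommClass K S S] in
theorem le_right (v : S) (hv : v ≠ 0) (U W : Submodule K S) (h : ∀ u ∈ U, u * v ∈ W) :
    finrank K U ≤ finrank K W := by
  have : FiniteDimensional K S := inferInstance
  apply LinearMap.finrank_le_finrank_of_injective (f := (LinearMap.mulRight K v).restrict h)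
  intro x y hxy
  have h1 : x.1 * v = y.1 * v := congrArg Subtype.val hxy
  have h2 : (x.1 - y.1) * v = 0 := by rw [sub_mul, h1, sub_self]
  exact Subtype.ext (sub_eq_zero.1 ((mul_eq_zero.1 h2).resolve_right hv))

theorem mem_of_signs (F G H : S → S) (h : ∀ x y : S, F x * G y = H (x * y)) (U V W : Submodule K S)
    (f g k : S →ₗ[K] S) (hf : ∀ x, f x = F x) (hg : ∀ x, g x = G x) (hk : ∀ x, k x = H x)
    (hmul : ∀ u ∈ U, ∀ v ∈ V, u * v ∈ W) (ε δ : K) :
    ∀ u ∈ U ⊓ End.eigenspace f ε, ∀ v ∈ V ⊓ End.eigenspace g δ, u * v ∈ W ⊓ End.eigenspace k (ε * δ) := by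
  rintro u ⟨hu, hu'⟩ v ⟨hv, hv'⟩
  refine ⟨hmul u hu v hv, ?_⟩
  rw [SetLike.mem_coe, End.mem_eigenspace_iff] at hu' hv' ⊢
  rw [hk, ← h, ← hf, ← hg, hu', hv', smul_mul_smul_comm]

theorem Tri.split {H : Subgroup (LG K S)} {d : ℕ} {U V W : Submodule K S} (T : Tri H d U V W)
    (h2 : (2 : K) ≠ 0) (hd : 0 < d) (e : LG K S) (heH : e ∈ H) (hee : e * e = 1)
    (hcen : ∀ g ∈ H, g * e = e * g) :
    ((∃ ε : K, (ε = 1 ∨ ε = -1) ∧ ∀ u ∈ U, e.1.1 u = ε • u) ∧
      (∃ δ : K, (δ = 1 ∨ δ = -1) ∧ ∀ v ∈ V, e.1.2.1 v = δ • v)) ∨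
    (∃ d', d = 2 * d' ∧ 0 < d' ∧ ∀ ε δ : K, (ε = 1 ∨ ε = -1) → (δ = 1 ∨ δ = -1) →
      Tri H d' (U ⊓ End.eigenspace (e.1.1 : S →ₗ[K] S) ε) (V ⊓ End.eigenspace (e.1.2.1 : S →ₗ[K] S) δ)
        (W ⊓ End.eigenspace (e.1.2.2 : S →ₗ[K] S) (ε * δ))) := by
  have : FiniteDimensional K S := inferInstance
  have e1 : ∀ x, (e.1.1 : S →ₗ[K] S) ((e.1.1 : S →ₗ[K] S) x) = x := fun x =>
    LinearEquiv.congr_fun (congrArg (fun s : LG K S => s.1.1) hee) x
  have e2 : ∀ x, (e.1.2.1 : S →ₗ[K] S) ((e.1.2.1 : S →ₗ[K] S) x) = x := fun x =>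
    LinearEquiv.congr_fun (congrArg (fun s : LG K S => s.1.2.1) hee) x
  have e3 : ∀ x, (e.1.2.2 : S →ₗ[K] S) ((e.1.2.2 : S →ₗ[K] S) x) = x := fun x =>
    LinearEquiv.congr_fun (congrArg (fun s : LG K S => s.1.2.2) hee) x
  set EU := fun ε : K => U ⊓ End.eigenspace (e.1.1 : S →ₗ[K] S) ε with hEU
  set EV := fun ε : K => V ⊓ End.eigenspace (e.1.2.1 : S →ₗ[K] S) ε with hEV
  set EW := fun ε : K => W ⊓ End.eigenspace (e.1.2.2 : S →ₗ[K] S) ε with hEW
  have s1 : finrank K (EU 1) + finrank K (EU (-1)) = d := by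
    rw [← T.dU]; exact finrank_split h2 _ e1 U (T.iU e heH)
  have s2 : finrank K (EV 1) + finrank K (EV (-1)) = d := by
    rw [← T.dV]; exact finrank_split h2 _ e2 V (T.iV e heH)
  have s3 : finrank K (EW 1) + finrank K (EW (-1)) = d := by
    rw [← T.dW]; exact finrank_split h2 _ e3 W (T.iW e heH)
  have hm : ∀ ε δ : K, ∀ u ∈ EU ε, ∀ v ∈ EV δ, u * v ∈ EW (ε * δ) :=
    mem_of_signs (fun x => e.1.1 x) (fun x => e.1.2.1 x) (fun x => e.1.2.2 x) e.2 U V W _ _ _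
      (fun _ => rfl) (fun _ => rfl) (fun _ => rfl) T.mul
  have exU : ∀ ε : K, 0 < finrank K (EU ε) → ∃ u ∈ EU ε, u ≠ 0 := by
    intro ε hε
    have : Nontrivial (EU ε) := (finrank_pos_iff (R := K)).1 hε
    obtain ⟨u, hu⟩ := exists_ne (0 : EU ε)
    exact ⟨u.1, u.2, fun h => hu (Subtype.ext h)⟩
  have exV : ∀ ε : K, 0 < finrank K (EV ε) → ∃ u ∈ EV ε, u ≠ 0 := by
    intro ε hε
    have : Nontrivial (EV ε) := (finrank_pos_iff (R := K)).1 hε
    obtain ⟨u, hu⟩ := exists_ne (0 : EV ε)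
    exact ⟨u.1, u.2, fun h => hu (Subtype.ext h)⟩
  have L1 : ∀ ε δ : K, 0 < finrank K (EU ε) → finrank K (EV δ) ≤ finrank K (EW (ε * δ)) := by
    intro ε δ hε
    obtain ⟨u, hu, hu0⟩ := exU ε hε
    exact le_left u hu0 _ _ (fun v hv => hm ε δ u hu v hv)
  have L2 : ∀ ε δ : K, 0 < finrank K (EV δ) → finrank K (EU ε) ≤ finrank K (EW (ε * δ)) := by
    intro ε δ hδ
    obtain ⟨v, hv, hv0⟩ := exV δ hδ
    exact le_right v hv0 _ _ (fun u hu => hm ε δ u hu v hv)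
  have a1 := L1 1 1
  have a2 := L1 1 (-1)
  have a3 := L1 (-1) 1
  have a4 := L1 (-1) (-1)
  have b1 := L2 1 1
  have b2 := L2 1 (-1)
  have b3 := L2 (-1) 1
  have b4 := L2 (-1) (-1)
  rw [one_mul] at a1 a2 b1 b2
  rw [mul_one] at a3 b3
  rw [neg_mul_neg, one_mul] at a4 b4
  by_cases hh : finrank K (EU 1) = finrank K (EU (-1)) ∧ finrank K (EV 1) = finrank K (EV (-1)) ∧
      finrank K (EW 1) = finrank K (EW (-1))
  · right
    obtain ⟨c1, c2, c3⟩ := hh
    refine ⟨finrank K (EU 1), by omega, by omega, ?_⟩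
    have key : ∀ (E : K → Submodule K S), finrank K (E 1) = finrank K (EU 1) →
        finrank K (E (-1)) = finrank K (EU 1) → ∀ ε : K, (ε = 1 ∨ ε = -1) →
        finrank K (E ε) = finrank K (EU 1) := by
      rintro E h1 h3 ε (rfl | rfl)
      · exact h1
      · exact h3
    intro ε δ hε hδ
    have hεδ : ε * δ = 1 ∨ ε * δ = -1 := by
      rcases hε with rfl | rfl <;> rcases hδ with rfl | rfl <;> simp
    have inv : ∀ (g : LG K S), g ∈ H → g * e = e * g := hcen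
    refine ⟨key EU rfl c1.symm ε hε, key EV (by omega) (by omega) δ hδ,
      key EW (by omega) (by omega) _ hεδ, hm ε δ, ?_, ?_, ?_⟩
    · rintro g hg u ⟨hu, hu'⟩
      refine ⟨T.iU g hg u hu, ?_⟩
      rw [SetLike.mem_coe, End.mem_eigenspace_iff] at hu' ⊢
      have h3 : g.1.1 ((e.1.1 : S →ₗ[K] S) u) = (e.1.1 : S →ₗ[K] S) (g.1.1 u) :=
        LinearEquiv.congr_fun (congrArg (fun s : LG K S => s.1.1) (hcen g hg)) u
      rw [← h3, hu', map_smul]
    · rintro g hg u ⟨hu, hu'⟩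
      refine ⟨T.iV g hg u hu, ?_⟩
      rw [SetLike.mem_coe, End.mem_eigenspace_iff] at hu' ⊢
      have h3 : g.1.2.1 ((e.1.2.1 : S →ₗ[K] S) u) = (e.1.2.1 : S →ₗ[K] S) (g.1.2.1 u) :=
        LinearEquiv.congr_fun (congrArg (fun s : LG K S => s.1.2.1) (hcen g hg)) u
      rw [← h3, hu', map_smul]
    · rintro g hg u ⟨hu, hu'⟩
      refine ⟨T.iW g hg u hu, ?_⟩
      rw [SetLike.mem_coe, End.mem_eigenspace_iff] at hu' ⊢
      have h3 : g.1.2.2 ((e.1.2.2 : S →ₗ[K] S) u) = (e.1.2.2 : S →ₗ[K] S) (g.1.2.2 u) :=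
        LinearEquiv.congr_fun (congrArg (fun s : LG K S => s.1.2.2) (hcen g hg)) u
      rw [← h3, hu', map_smul]
  · left
    have z1 : finrank K (EU 1) = 0 ∨ finrank K (EU (-1)) = 0 := by omega
    have z2 : finrank K (EV 1) = 0 ∨ finrank K (EV (-1)) = 0 := by omega
    constructor
    · rcases z1 with z | z
      · refine ⟨-1, Or.inr rfl, fun u hu => ?_⟩
        have h3 : EU (-1) = U := Submodule.eq_of_le_of_finrank_eq inf_le_left (by rw [T.dU]; omega)
        have h4 : u ∈ EU (-1) := by rw [h3]; exact hu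
        exact End.mem_eigenspace_iff.1 h4.2
      · refine ⟨1, Or.inl rfl, fun u hu => ?_⟩
        have h3 : EU 1 = U := Submodule.eq_of_le_of_finrank_eq inf_le_left (by rw [T.dU]; omega)
        have h4 : u ∈ EU 1 := by rw [h3]; exact hu
        exact End.mem_eigenspace_iff.1 h4.2
    · rcases z2 with z | z
      · refine ⟨-1, Or.inr rfl, fun u hu => ?_⟩
        have h3 : EV (-1) = V := Submodule.eq_of_le_of_finrank_eq inf_le_left (by rw [T.dV]; omega)
        have h4 : u ∈ EV (-1) := by rw [h3]; exact hu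
        exact End.mem_eigenspace_iff.1 h4.2
      · refine ⟨1, Or.inl rfl, fun u hu => ?_⟩
        have h3 : EV 1 = V := Submodule.eq_of_le_of_finrank_eq inf_le_left (by rw [T.dV]; omega)
        have h4 : u ∈ EV 1 := by rw [h3]; exact hu
        exact End.mem_eigenspace_iff.1 h4.2

/-- Descent to a component on which the elementary abelian group `C` acts by signs. -/
theorem descent (h2 : (2 : K) ≠ 0) (H C : Subgroup (LG K S)) (hCH : C ≤ H)
    (hCe : ∀ c ∈ C, c * c = 1) (hcen : ∀ g ∈ H, ∀ c ∈ C, g * c = c * g) (e0 : LG K S) (he0 : e0 ∈ C)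
    (d : ℕ) : ∀ (U V W : Submodule K S), Tri H d U V W → 0 < d →
    (¬ (∀ u ∈ U, e0.1.1 u = u) ∨ ¬ (∀ v ∈ V, e0.1.2.1 v = v)) →
    ∃ (d' : ℕ) (U' V' W' : Submodule K S), Tri H d' U' V' W' ∧ 0 < d' ∧ d' ∣ d ∧
      (∀ c ∈ C, (∃ ε : K, (ε = 1 ∨ ε = -1) ∧ ∀ u ∈ U', c.1.1 u = ε • u) ∧
        (∃ δ : K, (δ = 1 ∨ δ = -1) ∧ ∀ v ∈ V', c.1.2.1 v = δ • v)) ∧
      ((∀ u ∈ U', e0.1.1 u = -u) ∨ (∀ v ∈ V', e0.1.2.1 v = -v)) := by
  induction d using Nat.strong_induction_on with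
  | _ d ih =>
    intro U V W T hd hnt
    by_cases hall : ∀ c ∈ C, (∃ ε : K, (ε = 1 ∨ ε = -1) ∧ ∀ u ∈ U, c.1.1 u = ε • u) ∧
        (∃ δ : K, (δ = 1 ∨ δ = -1) ∧ ∀ v ∈ V, c.1.2.1 v = δ • v)
    · refine ⟨d, U, V, W, T, hd, dvd_rfl, hall, ?_⟩
      obtain ⟨⟨ε, hε, h1⟩, ⟨δ, hδ, h3⟩⟩ := hall e0 he0
      rcases hnt with hnt | hnt
      · left
        intro u hu
        rcases hε with rfl | rfl
        · exfalso
          apply hnt
          intro u hu
          rw [h1 u hu, one_smul]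
        · rw [h1 u hu, neg_smul, one_smul]
      · right
        intro u hu
        rcases hδ with rfl | rfl
        · exfalso
          apply hnt
          intro u hu
          rw [h3 u hu, one_smul]
        · rw [h3 u hu, neg_smul, one_smul]
    · push Not at hall
      obtain ⟨c, hc, hc'⟩ := hall
      rcases T.split h2 hd c (hCH hc) (hCe c hc) (fun g hg => hcen g hg c hc) with h | h
      · exfalso
        obtain ⟨h1, δ, hδ, h3⟩ := h
        obtain ⟨v, hv, hv'⟩ := hc' h1 δ hδ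
        exact hv' (h3 v hv)
      · obtain ⟨d', hdd, hd', hT⟩ := h
        -- choose the signs
        have dec : ∀ (f : S →ₗ[K] S) (F : S → S) (U : Submodule K S) (hff : ∀ x, f (f x) = x)
            (hfU : ∀ x ∈ U, f x ∈ U) (hFadd : ∀ x y, F (x + y) = F x + F y)
            (hne : ¬ ∀ u ∈ U, F u = u), ∃ ε : K, (ε = 1 ∨ ε = -1) ∧
            ¬ ∀ u ∈ U ⊓ End.eigenspace f ε, F u = u := by
          intro f F U hff hfU hFadd hne
          by_contra hcon
          push Not at hcon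
          apply hne
          intro x hx
          have e : x = (2 : K)⁻¹ • (x + f x) + (2 : K)⁻¹ • (x - f x) := by
            rw [← smul_add, add_add_sub_cancel, ← two_smul K x, smul_smul, inv_mul_cancel₀ h2, one_smul]
          have m1 : (2 : K)⁻¹ • (x + f x) ∈ U ⊓ End.eigenspace f 1 := by
            refine Submodule.mem_inf.2 ⟨U.smul_mem _ (U.add_mem hx (hfU x hx)), ?_⟩
            rw [End.mem_eigenspace_iff, map_smul, map_add, hff, one_smul, add_comm (f x)]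
          have m2 : (2 : K)⁻¹ • (x - f x) ∈ U ⊓ End.eigenspace f (-1) := by
            refine Submodule.mem_inf.2 ⟨U.smul_mem _ (U.sub_mem hx (hfU x hx)), ?_⟩
            rw [End.mem_eigenspace_iff, map_smul, map_sub, hff, neg_smul, one_smul, ← smul_neg, neg_sub]
          have n1 := hcon 1 (Or.inl rfl) _ m1
          have n2 := hcon (-1) (Or.inr rfl) _ m2
          nth_rewrite 1 [e]
          rw [hFadd, n1, n2, ← e]
        have c1 : ∀ x, (c.1.1 : S →ₗ[K] S) ((c.1.1 : S →ₗ[K] S) x) = x := fun x =>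
          LinearEquiv.congr_fun (congrArg (fun s : LG K S => s.1.1) (hCe c hc)) x
        have c2 : ∀ x, (c.1.2.1 : S →ₗ[K] S) ((c.1.2.1 : S →ₗ[K] S) x) = x := fun x =>
          LinearEquiv.congr_fun (congrArg (fun s : LG K S => s.1.2.1) (hCe c hc)) x
        have hex : ∃ ε δ : K, (ε = 1 ∨ ε = -1) ∧ (δ = 1 ∨ δ = -1) ∧
            (¬ (∀ u ∈ U ⊓ End.eigenspace (c.1.1 : S →ₗ[K] S) ε, e0.1.1 u = u) ∨
              ¬ (∀ v ∈ V ⊓ End.eigenspace (c.1.2.1 : S →ₗ[K] S) δ, e0.1.2.1 v = v)) := by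
          rcases hnt with hnt | hnt
          · obtain ⟨ε, hε, h1⟩ := dec _ (fun x => e0.1.1 x) U c1 (T.iU c (hCH hc))
              (fun x y => map_add _ _ _) hnt
            exact ⟨ε, 1, hε, Or.inl rfl, Or.inl h1⟩
          · obtain ⟨ε, hε, h1⟩ := dec _ (fun x => e0.1.2.1 x) V c2 (T.iV c (hCH hc))
              (fun x y => map_add _ _ _) hnt
            exact ⟨1, ε, Or.inl rfl, hε, Or.inr h1⟩
        obtain ⟨ε, δ, hε, hδ, hnt'⟩ := hex
        obtain ⟨d'', U', V', W', T', hd'', hdv, h3, h4⟩ := ih d' (by omega) _ _ _ (hT ε δ hε hδ) hd' hnt'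
        exact ⟨d'', U', V', W', T', hd'', hdv.trans ⟨2, by rw [hdd, mul_comm]⟩, h3, h4⟩

end Desc

end Pool.Agent.Lib_MP_4776c2
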