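import Pool.Agent.Lib_MP_4776c2.Sect

set_option autoImplicit false

namespace Pool.Agent.Lib_MP_4776c2

universe u v w

open Module

section EvenGen

variable {S : Type u} [NonAssocRing S] [Finite S] [NoZeroDivisors S] [Nontrivial S]

/-- The general step in even characteristic, for a cyclic normal subgroup `A` of the autotopism group
whose centraliser consists of autotopisms that are linear over the centre. -/
theorem even_general (A : Subgroup (autotopismGroup S)) [A.Normal] (hA : IsCyclic A) (q m n : ℕ)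
    (hq : Nat.card (Subring.center S) = q) (hm : Nat.card S = q ^ m)
    (hdvd : ∀ P : Subgroup (autotopismGroup S), IsPGroup 2 P →
      (∀ g ∈ P, ∀ a ∈ A, g * a = a * g) → Nat.card P ∣ n)
    (hlin : ∀ g : autotopismGroup S, (∀ a ∈ A, g * a = a * g) → g ∈ LinC S)
    (hPi : ∀ r a : ℕ, r.Prime → r ≠ 2 → 0 < a → 2 ^ a ∣ n → r ∣ 2 ^ a - 1 →
      r ∣ q * (q - 1) ∧ ¬ r ∣ m) :
    ∃ O : Subgroup (autotopismGroup S), O.Normal ∧ Odd (Nat.card O) ∧
      ∀ [O.Normal], Group.IsSolvable (autotopismGroup S ⧸ O) := by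
  have h2p : Fact (Nat.Prime 2) := ⟨Nat.prime_two⟩
  obtain ⟨K, _, _, _, _, _, hK⟩ := exists_field S
  have hKq : Nat.card K = q := hK.trans hq
  have hq2 : 2 ≤ q := by rw [← hKq]; exact Finite.one_lt_card
  have hfr : Module.finrank K S = m := by
    have h1 : Nat.card S = q ^ Module.finrank K S := by
      rw [← hKq]; exact Module.natCard_eq_pow_finrank
    rw [hm] at h1
    exact (Nat.pow_right_injective hq2 h1).symm
  apply odd_by_solvable (MulAut.conjNormal (H := A)).ker (solvable_quot_conjNormal A hA)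
  apply frobenius 2 _ _ _ rfl
  apply frobHyp_of_prime_powers
  intro r hrp hr2 R hR y hy k hyk
  have : Fact r.Prime := ⟨hrp⟩
  by_contra hne
  have hmod := modEq_card r y k hyk R hy
  set C : Subgroup (MulAut.conjNormal (H := A)).ker := R ⊓ Subgroup.centralizer {y} with hC
  have hClt : C < R := by
    apply lt_of_le_of_ne inf_le_left
    intro heq
    apply hne
    intro x hx
    rw [← heq] at hx
    exact (Subgroup.mem_centralizer_iff.1 (Subgroup.mem_inf.1 hx).2) y rfl
  obtain ⟨c, hc⟩ := IsPGroup.iff_card.1 hR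
  obtain ⟨j, hj⟩ := IsPGroup.iff_card.1 (hR.to_le hClt.le)
  have hjn : j < c := by
    have h1 : Nat.card C < Nat.card R := by
      apply lt_of_le_of_ne (Subgroup.card_le_of_le hClt.le)
      intro heq
      exact hClt.ne (Subgroup.eq_of_le_of_card_ge hClt.le heq.ge)
    rw [hc, hj] at h1
    exact (Nat.pow_lt_pow_iff_right (by norm_num)).1 h1
  have hdvdm : 2 ^ c ∣ n := by
    rw [← hc, ← Subgroup.card_map_of_injective (Subgroup.subtype_injective _) (K := R)]
    apply hdvd _ (hR.map _)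
    rintro _ ⟨g, -, rfl⟩ a ha
    exact (mem_conjNormal_ker A g.1).1 g.2 a ha
  have hr : r ∣ 2 ^ (c - j) - 1 := by
    rw [hc, hj] at hmod
    have hcop : Nat.gcd r (2 ^ j) = 1 :=
      Nat.Coprime.pow_right _ ((Nat.coprime_primes hrp Nat.prime_two).2 hr2)
    have h3 : 2 ^ (c - j) ≡ 1 [MOD r] := by
      apply Nat.ModEq.cancel_right_of_coprime hcop
      rw [one_mul, ← pow_add, Nat.sub_add_cancel hjn.le]; exact hmod
    exact (Nat.modEq_iff_dvd' (Nat.one_le_two_pow)).1 h3.symm
  obtain ⟨h5, h6⟩ := hPi r (c - j) hrp hr2 (by omega) ((pow_dvd_pow 2 (Nat.sub_le c j)).trans hdvdm) hr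
  apply hne
  intro x _
  apply Subtype.ext
  exact central_of_LinC K r hrp (by rw [hKq]; exact h5) (by rw [hfr]; exact h6) y.1
    (hlin y.1 ((mem_conjNormal_ker A y.1).1 y.2)) k (congrArg Subtype.val hyk) x.1
    (hlin x.1 ((mem_conjNormal_ker A x.1).1 x.2))

omit [Finite S] [NoZeroDivisors S] [Nontrivial S] in
theorem lin_left (g : autotopismGroup S) (h : ∀ a ∈ (pV S).ker, g * a = a * g) : g ∈ LinC S := by
  rw [mem_LinC]
  intro a ha
  exact h a ha.1

/-- Multiplication by a nonzero central element. -/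
noncomputable def zPerm (z : S) (hz0 : z ≠ 0) : Equiv.Perm S :=
  Equiv.ofBijective (fun x => z * x) (Finite.injective_iff_bijective.1 (mul_right_injective₀ hz0))

omit [Nontrivial S] in
theorem zPerm_apply (z : S) (hz0 : z ≠ 0) (x : S) : zPerm z hz0 x = z * x := rfl

theorem ne_zero_of (t : autotopismGroup S) : t.1.1 1 ≠ 0 ∧ t.1.2.1 1 ≠ 0 := by
  constructor
  · intro h
    have h4 : t.1.1 0 = 0 := perm_zero _ t.2.1
    exact one_ne_zero (t.1.1.injective (h.trans h4.symm))
  · intro h
    have h4 : t.1.2.1 0 = 0 := perm_zero _ t.2.2.1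
    exact one_ne_zero (t.1.2.1.injective (h.trans h4.symm))

theorem lin_right (g : autotopismGroup S) (h : ∀ a ∈ (pU S).ker, g * a = a * g) : g ∈ LinC S := by
  apply mem_LinC_of_linear
  intro z hz x
  by_cases hz0 : z = 0
  · subst hz0
    rw [zero_mul, zero_mul, zero_mul]
    exact ⟨perm_zero _ g.2.1, perm_zero _ g.2.2.2.1⟩
  · have hmem : ((1 : Equiv.Perm S), zPerm z hz0, zPerm z hz0) ∈ autotopismGroup S :=
      ⟨fun x y => rfl, fun x y => mul_add z x y, fun x y => mul_add z x y,
        fun x y => (IsMulCentral.left_comm hz x y).symm⟩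
    have hcomm := h ⟨_, hmem⟩ rfl
    have h3 : ∀ x, g.1.2.2 (z * x) = z * g.1.2.2 x := fun x =>
      congrArg (fun t : autotopismGroup S => t.1.2.2 x) hcomm
    refine ⟨?_, h3 x⟩
    have e1 := g.2.2.2.2 (z * x) 1
    have e2 := g.2.2.2.2 x 1
    rw [mul_one] at e1 e2
    rw [h3, ← e2, IsMulCentral.left_assoc hz] at e1
    have e3 : (g.1.1 (z * x) - z * g.1.1 x) * g.1.2.1 1 = 0 := by rw [sub_mul, e1, sub_self]
    exact sub_eq_zero.1 ((mul_eq_zero.1 e3).resolve_right (ne_zero_of g).2)

theorem lin_middle (g : autotopismGroup S) (h : ∀ a ∈ (pW S).ker, g * a = a * g) : g ∈ LinC S := by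
  apply mem_LinC_of_linear
  intro z hz x
  by_cases hz0 : z = 0
  · subst hz0
    rw [zero_mul, zero_mul, zero_mul]
    exact ⟨perm_zero _ g.2.1, perm_zero _ g.2.2.2.1⟩
  · have hinv : ∀ y, z * (zPerm z hz0).symm y = y := fun y => (zPerm z hz0).apply_symm_apply y
    have hmem : (zPerm z hz0, (zPerm z hz0).symm, (1 : Equiv.Perm S)) ∈ autotopismGroup S := by
      refine ⟨fun x y => mul_add z x y, fun x y => ?_, fun x y => rfl, fun x y => ?_⟩
      · apply (zPerm z hz0).injective
        show z * (zPerm z hz0).symm (x + y) = z * ((zPerm z hz0).symm x + (zPerm z hz0).symm y)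
        rw [mul_add, hinv, hinv, hinv]
      · show (z * x) * (zPerm z hz0).symm y = x * y
        rw [← IsMulCentral.left_assoc hz, IsMulCentral.left_comm hz, hinv]
    have hcomm := h ⟨_, hmem⟩ rfl
    have h1 : ∀ x, g.1.1 (z * x) = z * g.1.1 x := fun x =>
      congrArg (fun t : autotopismGroup S => t.1.1 x) hcomm
    refine ⟨h1 x, ?_⟩
    have e1 := g.2.2.2.2 (z * x) 1
    have e2 := g.2.2.2.2 x 1
    rw [mul_one] at e1 e2
    rw [← e1, ← e2, h1, IsMulCentral.left_assoc hz]

end EvenGen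

end Pool.Agent.Lib_MP_4776c2
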