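import Pool.Agent.Lib_MP_4776c2.Nuc

set_option autoImplicit false

namespace Pool.Agent.Lib_MP_4776c2

universe u

open Subgroup

section GroupLemmas

variable {G : Type*} [Group G] [Finite G] (p : ℕ) [Fact p.Prime]

omit [Finite G] in
/-- The normal `p`-complement of a normal subgroup is normal in the whole group. -/
theorem nc_of_normal (K : Subgroup G) [hKn : K.Normal] (h : HasNC K p) :
    ∃ N : Subgroup G, N.Normal ∧ N ≤ K ∧ ¬ p ∣ Nat.card N ∧ ∀ x ∈ K, ∃ k : ℕ, x ^ (p ^ k) ∈ N := by
  have hpp : p.Prime := Fact.out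
  obtain ⟨N, hN, hNp, k, hk⟩ := h
  refine ⟨N.map K.subtype, ?_, map_subtype_le N, ?_, ?_⟩
  · have hchar : ∀ x : K, x ∈ N ↔ (orderOf x).Coprime p := by
      intro x
      constructor
      · intro hx
        have h1 : orderOf x ∣ Nat.card N := by
          have := orderOf_dvd_natCard (⟨x, hx⟩ : N)
          rwa [Subgroup.orderOf_mk] at this
        have h2 : (Nat.card N).Coprime p := ((hpp.coprime_iff_not_dvd).2 hNp).symm
        exact Nat.Coprime.coprime_dvd_left h1 h2
      · intro hx
        have h1 : orderOf (QuotientGroup.mk' N x) ∣ orderOf x := orderOf_map_dvd _ _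
        have h2 : orderOf (QuotientGroup.mk' N x) ∣ p ^ k := by
          rw [← hk]; exact orderOf_dvd_natCard _
        have h3 : orderOf (QuotientGroup.mk' N x) = 1 := by
          apply Nat.eq_one_of_dvd_coprimes _ h1 h2
          exact Nat.Coprime.pow_right _ hx
        rw [orderOf_eq_one_iff] at h3
        exact (QuotientGroup.eq_one_iff _).1 h3
    constructor
    rintro _ ⟨x, hx, rfl⟩ g
    refine ⟨⟨g * x.1 * g⁻¹, hKn.conj_mem x.1 x.2 g⟩, ?_, rfl⟩
    show _ ∈ N
    rw [hchar]
    have h1 := (hchar x).1 hx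
    have h2 : orderOf (⟨g * x.1 * g⁻¹, hKn.conj_mem x.1 x.2 g⟩ : K) = orderOf x := by
      rw [← Subgroup.orderOf_coe, ← Subgroup.orderOf_coe x]
      show orderOf (g * x.1 * g⁻¹) = orderOf x.1
      have := orderOf_injective (MulAut.conj g).toMonoidHom (MulAut.conj g).injective x.1
      exact this
    rwa [h2]
  · rw [Subgroup.card_map_of_injective (Subgroup.subtype_injective K)]
    exact hNp
  · intro x hx
    refine ⟨k, ⟨⟨x, hx⟩ ^ (p ^ k), ?_, rfl⟩⟩
    show (⟨x, hx⟩ : K) ^ (p ^ k) ∈ N
    have h2 : orderOf (QuotientGroup.mk' N ⟨x, hx⟩) ∣ p ^ k := by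
      rw [← hk]; exact orderOf_dvd_natCard _
    have h3 := orderOf_dvd_iff_pow_eq_one.1 h2
    rw [← map_pow] at h3
    exact (QuotientGroup.eq_one_iff _).1 h3

/-- From a normal `2`-complement in `K ⊴ G` with `G/K` soluble. -/
theorem odd_by_solvable (K : Subgroup G) [K.Normal] (hK : Group.IsSolvable (G ⧸ K)) (h : HasNC K 2) :
    ∃ O : Subgroup G, O.Normal ∧ Odd (Nat.card O) ∧ ∀ [O.Normal], Group.IsSolvable (G ⧸ O) := by
  have h2p : Fact (Nat.Prime 2) := ⟨Nat.prime_two⟩
  obtain ⟨N, hN, hNK, hN2, hpow⟩ := nc_of_normal 2 K h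
  refine ⟨N, hN, ?_, ?_⟩
  · rw [← Nat.not_even_iff_odd, even_iff_two_dvd]; exact hN2
  · intro _
    let g : G ⧸ N →* G ⧸ K := QuotientGroup.map N K (MonoidHom.id G) hNK
    have hker : IsPGroup 2 g.ker := by
      rintro ⟨x, hx⟩
      obtain ⟨x, rfl⟩ := QuotientGroup.mk'_surjective N x
      have hxK : x ∈ K := (QuotientGroup.eq_one_iff _).1 hx
      obtain ⟨k, hk⟩ := hpow x hxK
      refine ⟨k, Subtype.ext ?_⟩
      show (QuotientGroup.mk' N x) ^ (2 ^ k) = 1
      rw [← map_pow]
      exact (QuotientGroup.eq_one_iff _).2 hk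
    have hnil : Group.IsNilpotent g.ker := hker.isNilpotent
    have hsol : Group.IsSolvable g.ker := inferInstance
    exact Group.isSolvable_of_ker_le_range g.ker.subtype g (by rw [Subgroup.range_subtype])

/-- Groups of order not divisible by `4` have a normal `2`-complement. -/
theorem hasNC_of_not_four (h : ¬ 4 ∣ Nat.card G) : HasNC G 2 := by
  have h2p : Fact (Nat.Prime 2) := ⟨Nat.prime_two⟩
  apply frobenius 2 (Nat.card G) G _ rfl
  intro Q hQ y hy _ x hx
  by_cases hx1 : x = 1
  · rw [hx1, mul_one, one_mul]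
  · obtain ⟨k, hk⟩ := IsPGroup.iff_card.1 hQ
    have hQd : Nat.card Q ∣ Nat.card G := Subgroup.card_subgroup_dvd_card Q
    have hk1 : k < 2 := by
      by_contra hcon
      apply h
      refine dvd_trans ?_ hQd
      rw [hk]
      exact pow_dvd_pow 2 (not_lt.1 hcon)
    have hk2 : Nat.card Q = 2 := by
      rcases k with _ | k
      · exfalso
        apply hx1
        rw [pow_zero] at hk
        have := Subgroup.card_eq_one.1 hk
        rw [this] at hx
        exact Subgroup.mem_bot.1 hx
      · rw [hk]; have : k = 0 := by omega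
        rw [this]; norm_num
    obtain ⟨a, b, hab, huniv⟩ := Nat.card_eq_two_iff.1 hk2
    have hy1 : y * x * y⁻¹ ∈ Q := (mem_normalizer_iff.1 hy x).1 hx
    have hy2 : y * x * y⁻¹ ≠ 1 := by
      intro h3
      apply hx1
      have : x = y⁻¹ * (y * x * y⁻¹) * y := by group
      rw [this, h3]; group
    have key : ∀ z : Q, z ≠ 1 → z = ⟨x, hx⟩ := by
      intro z hz
      have hx1' : (⟨x, hx⟩ : Q) ≠ 1 := fun h => hx1 (congrArg Subtype.val h)
      have m1 : z = a ∨ z = b := by
        have : z ∈ ({a, b} : Set Q) := by rw [huniv]; exact Set.mem_univ z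
        simpa using this
      have m2 : (⟨x, hx⟩ : Q) = a ∨ (⟨x, hx⟩ : Q) = b := by
        have : (⟨x, hx⟩ : Q) ∈ ({a, b} : Set Q) := by rw [huniv]; exact Set.mem_univ _
        simpa using this
      have m3 : (1 : Q) = a ∨ (1 : Q) = b := by
        have : (1 : Q) ∈ ({a, b} : Set Q) := by rw [huniv]; exact Set.mem_univ _
        simpa using this
      rcases m1 with m1 | m1 <;> rcases m2 with m2 | m2 <;> rcases m3 with m3 | m3
      all_goals first
        | exact (m1.trans m2.symm)
        | exact absurd (m1.trans m3.symm) hz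
        | exact absurd (m2.trans m3.symm) hx1'
    have h4 := key ⟨y * x * y⁻¹, hy1⟩ (fun h => hy2 (congrArg Subtype.val h))
    have h5 : y * x * y⁻¹ = x := congrArg Subtype.val h4
    calc y * x = (y * x * y⁻¹) * y := by group
      _ = x * y := by rw [h5]

omit [Finite G] in
/-- The centraliser of a normal subgroup, as a kernel. -/
theorem mem_conjNormal_ker (A : Subgroup G) [A.Normal] (g : G) :
    g ∈ (MulAut.conjNormal (H := A)).ker ↔ ∀ a ∈ A, g * a = a * g := by
  constructor
  · intro hg a ha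
    have h1 : MulAut.conjNormal g ⟨a, ha⟩ = ⟨a, ha⟩ := by
      rw [MonoidHom.mem_ker.1 hg]; rfl
    have h2 : g * a * g⁻¹ = a := by
      have := congrArg Subtype.val h1
      rwa [MulAut.conjNormal_apply] at this
    calc g * a = (g * a * g⁻¹) * g := by group
      _ = a * g := by rw [h2]
  · intro h
    rw [MonoidHom.mem_ker]
    ext a
    rw [MulAut.conjNormal_apply, h a.1 a.2]
    show a.1 * g * g⁻¹ = a.1
    group

omit [Finite G] in
theorem solvable_quot_conjNormal (A : Subgroup G) [A.Normal] (hA : IsCyclic A) :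
    Group.IsSolvable (G ⧸ (MulAut.conjNormal (H := A)).ker) := by
  have h1 : Group.IsSolvable (MulAut A) := by
    have e := IsCyclic.mulAutMulEquiv A
    exact Group.isSolvable_of_surjective (f := e.symm.toMonoidHom) e.symm.surjective
  exact Group.isSolvable_of_isSolvable_injective (f := QuotientGroup.kerLift (MulAut.conjNormal (H := A)))
    (QuotientGroup.kerLift_injective _)

end GroupLemmas

section NuclearPart

variable (S : Type u) [NonAssocRing S]

/-- First component. -/
def pU : autotopismGroup S →* Equiv.Perm S where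
  toFun t := t.1.1
  map_one' := rfl
  map_mul' _ _ := rfl

/-- Second component. -/
def pV : autotopismGroup S →* Equiv.Perm S where
  toFun t := t.1.2.1
  map_one' := rfl
  map_mul' _ _ := rfl

/-- Third component. -/
def pW : autotopismGroup S →* Equiv.Perm S where
  toFun t := t.1.2.2
  map_one' := rfl
  map_mul' _ _ := rfl

/-- An additive permutation as an endomorphism. -/
def endOf (F : Equiv.Perm S) (h : ∀ x y : S, F (x + y) = F x + F y) : AddMonoid.End S where
  toFun := F
  map_zero' := perm_zero F h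
  map_add' := h

variable {S}

theorem mem_pV_ker (t : autotopismGroup S) (ht : t ∈ (pV S).ker) : ∀ y, t.1.2.1 y = y := by
  intro y
  have h1 : t.1.2.1 = 1 := ht
  rw [h1]; rfl

theorem mem_pU_ker (t : autotopismGroup S) (ht : t ∈ (pU S).ker) : ∀ y, t.1.1 y = y := by
  intro y
  have h1 : t.1.1 = 1 := ht
  rw [h1]; rfl

theorem mem_pW_ker (t : autotopismGroup S) (ht : t ∈ (pW S).ker) : ∀ y, t.1.2.2 y = y := by
  intro y
  have h1 : t.1.2.2 = 1 := ht
  rw [h1]; rfl

theorem cyclic_l [Finite S] [NoZeroDivisors S] [Nontrivial S] : IsCyclic (pV S).ker := by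
  have key : ∀ t : (pV S).ker, ∀ x y : S, t.1.1.1 (x * y) = t.1.1.1 x * y := by
    intro t x y
    have h1 := mem_pV_ker t.1 t.2
    have h2 : ∀ x y : S, t.1.1.1 x * y = t.1.1.2.2 (x * y) := by
      intro x y
      have := t.1.2.2.2.2 x y
      rwa [h1] at this
    have h3 : ∀ x, t.1.1.1 x = t.1.1.2.2 x := by
      intro x
      have := h2 x 1
      rwa [mul_one, mul_one] at this
    rw [h3, h2]
  apply isCyclic_of_embedding (Dl S) Dl_inj (fun t : (pV S).ker => endOf S t.1.1.1 t.1.2.1)
  · intro t; exact key t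
  · rfl
  · intro a b; rfl
  · intro a b hab
    have h1 : ∀ x, a.1.1.1 x = b.1.1.1 x := fun x => DFunLike.congr_fun hab x
    have h3 : ∀ t : (pV S).ker, ∀ x, t.1.1.1 x = t.1.1.2.2 x := by
      intro t x
      have h1 := mem_pV_ker t.1 t.2
      have := t.1.2.2.2.2 x 1
      rwa [h1, mul_one, mul_one] at this
    apply Subtype.ext
    apply Subtype.ext
    refine Prod.ext (Equiv.ext h1) (Prod.ext (Equiv.ext fun x => ?_) (Equiv.ext fun x => ?_))
    · rw [mem_pV_ker a.1 a.2, mem_pV_ker b.1 b.2]
    · rw [← h3 a, ← h3 b, h1]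

theorem cyclic_r [Finite S] [NoZeroDivisors S] [Nontrivial S] : IsCyclic (pU S).ker := by
  have h3 : ∀ t : (pU S).ker, ∀ x, t.1.1.2.1 x = t.1.1.2.2 x := by
    intro t x
    have h1 := mem_pU_ker t.1 t.2
    have := t.1.2.2.2.2 1 x
    rwa [h1, one_mul, one_mul] at this
  have key : ∀ t : (pU S).ker, ∀ x y : S, t.1.1.2.1 (x * y) = x * t.1.1.2.1 y := by
    intro t x y
    have h1 := mem_pU_ker t.1 t.2
    have h2 := t.1.2.2.2.2 x y
    rw [h1] at h2
    rw [h3, h2]
  apply isCyclic_of_embedding (Dr S) Dr_inj (fun t : (pU S).ker => endOf S t.1.1.2.1 t.1.2.2.1)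
  · intro t; exact key t
  · rfl
  · intro a b; rfl
  · intro a b hab
    have h1 : ∀ x, a.1.1.2.1 x = b.1.1.2.1 x := fun x => DFunLike.congr_fun hab x
    apply Subtype.ext
    apply Subtype.ext
    refine Prod.ext (Equiv.ext fun x => ?_) (Prod.ext (Equiv.ext h1) (Equiv.ext fun x => ?_))
    · rw [mem_pU_ker a.1 a.2, mem_pU_ker b.1 b.2]
    · rw [← h3 a, ← h3 b, h1]

theorem cyclic_m [Finite S] [NoZeroDivisors S] [Nontrivial S] : IsCyclic (pW S).ker := by
  have key : ∀ t : (pW S).ker, ∀ x y : S, t.1.1.1 x * t.1.1.2.1 y = x * y := by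
    intro t x y
    have h2 := t.1.2.2.2.2 x y
    rwa [mem_pW_ker t.1 t.2] at h2
  apply isCyclic_of_embedding (Dm S) Dm_inj (fun t : (pW S).ker => endOf S t.1.1.1 t.1.2.1)
  · intro t
    have hinv : ∀ x y : S, t.1.1.2.1.symm (x + y) = t.1.1.2.1.symm x + t.1.1.2.1.symm y := by
      intro x y
      apply t.1.1.2.1.injective
      rw [Equiv.apply_symm_apply, t.1.2.2.1, Equiv.apply_symm_apply, Equiv.apply_symm_apply]
    refine ⟨endOf S t.1.1.2.1.symm hinv, fun x y => ?_⟩
    show t.1.1.1 x * y = x * t.1.1.2.1.symm y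
    rw [← key t x, Equiv.apply_symm_apply]
  · rfl
  · intro a b; rfl
  · intro a b hab
    have h1 : ∀ x, a.1.1.1 x = b.1.1.1 x := fun x => DFunLike.congr_fun hab x
    have h4 : ∀ y, a.1.1.2.1 y = b.1.1.2.1 y := by
      intro y
      have ha := key a (a.1.1.1.symm 1) y
      have hb := key b (a.1.1.1.symm 1) y
      rw [← h1, Equiv.apply_symm_apply, one_mul] at hb
      rw [Equiv.apply_symm_apply, one_mul] at ha
      rw [ha, hb]
    apply Subtype.ext
    apply Subtype.ext
    refine Prod.ext (Equiv.ext h1) (Prod.ext (Equiv.ext h4) (Equiv.ext fun x => ?_))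
    rw [mem_pW_ker a.1 a.2, mem_pW_ker b.1 b.2]

/-- permutation of an injective endomorphism -/
noncomputable def permOf [Finite S] (f : AddMonoid.End S) (hf : Function.Injective f) :
    Equiv.Perm S := Equiv.ofBijective f (Finite.injective_iff_bijective.1 hf)

theorem permOf_apply [Finite S] (f : AddMonoid.End S) (hf : Function.Injective f) (x : S) :
    permOf f hf x = f x := rfl

variable [Finite S] [NoZeroDivisors S] [Nontrivial S]

theorem dvd_of_pow {q n k m c : ℕ} (hq : 2 ≤ q) (h1 : (q ^ n) ^ k = c) (h2 : c = q ^ m) : k ∣ m := by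
  rw [h2, ← pow_mul] at h1
  have := Nat.pow_right_injective hq h1
  exact ⟨n, by rw [mul_comm]; exact this.symm⟩

omit [NoZeroDivisors S] in
theorem two_le_card (D : Subring (AddMonoid.End S))  : 2 ≤ Nat.card D := by
  have hfinE : Finite (AddMonoid.End S) :=
    Finite.of_injective (fun f : AddMonoid.End S => (f : S → S)) DFunLike.coe_injective
  have hnt : Nontrivial D := by
    refine ⟨⟨0, 1, ?_⟩⟩
    intro h
    have h1 : (0 : AddMonoid.End S) = 1 := congrArg Subtype.val h
    exact one_ne_zero (DFunLike.congr_fun h1 (1 : S)).symm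
  exact Finite.one_lt_card

variable (p : ℕ) [Fact p.Prime]

theorem dvd_left (hp : ∀ x : S, p • x = 0) (P : Subgroup (autotopismGroup S)) (hP : IsPGroup p P)
    (hc : ∀ g ∈ P, ∀ a ∈ (pV S).ker, g * a = a * g) (m : ℕ)
    (hm : Nat.card S = Nat.card (leftNucleus S) ^ m) : Nat.card P ∣ m := by
  obtain ⟨h1, -, -⟩ := free_autotopism p hp (P.map (autotopismGroup S).subtype)
    (map_subtype_le _) (hP.map _)
  rw [Subgroup.card_map_of_injective (Subgroup.subtype_injective _)] at h1
  let X : AddSubgroup S :=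
    { carrier := {x | ∀ t ∈ P.map (autotopismGroup S).subtype, t.1 x = x}
      add_mem' := by
        rintro a b ha hb t ⟨g, hg, rfl⟩
        have := g.2.1 a b
        have ha' := ha g ⟨g, hg, rfl⟩
        have hb' := hb g ⟨g, hg, rfl⟩
        show g.1.1 (a + b) = a + b
        rw [this, ha', hb']
      zero_mem' := by
        rintro t ⟨g, hg, rfl⟩
        exact perm_zero _ g.2.1
      neg_mem' := by
        rintro a ha t ⟨g, hg, rfl⟩
        have ha' := ha g ⟨g, hg, rfl⟩
        exact (map_neg (endOf S g.1.1 g.2.1) a).trans (congrArg Neg.neg ha') }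
  obtain ⟨n, hn⟩ := card_invariant (Dl S) Dl_inj X (by
    intro f hf x hx
    by_cases h0 : f = 0
    · rw [h0]; exact X.zero_mem
    · have hinj := Dl_inj f hf h0
      rintro t ⟨g, hg, rfl⟩
      have hmem : (permOf f hinj, (1 : Equiv.Perm S), permOf f hinj) ∈ autotopismGroup S :=
        ⟨fun x y => map_add f x y, fun x y => rfl, fun x y => map_add f x y,
          fun x y => (hf x y).symm⟩
      have hcomm := hc g hg ⟨_, hmem⟩ rfl
      have h3 : (g.1.1 * permOf f hinj) x = (permOf f hinj * g.1.1) x := by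
        have := congrArg (fun t : autotopismGroup S => t.1.1 x) hcomm
        exact this
      have h4 : g.1.1 (f x) = f (g.1.1 x) := h3
      have h5 : g.1.1 x = x := hx g ⟨g, hg, rfl⟩
      show g.1.1 (f x) = f x
      rw [h4, h5])
  have hX : Nat.card X = Nat.card {x : S | ∀ t ∈ P.map (autotopismGroup S).subtype, t.1 x = x} := rfl
  rw [← hX, hn] at h1
  apply dvd_of_pow (two_le_card (Dl S)) h1
  rw [hm, card_Dl]

theorem dvd_middle (hp : ∀ x : S, p • x = 0) (P : Subgroup (autotopismGroup S)) (hP : IsPGroup p P)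
    (hc : ∀ g ∈ P, ∀ a ∈ (pW S).ker, g * a = a * g) (m : ℕ)
    (hm : Nat.card S = Nat.card (middleNucleus S) ^ m) : Nat.card P ∣ m := by
  obtain ⟨h1, -, -⟩ := free_autotopism p hp (P.map (autotopismGroup S).subtype)
    (map_subtype_le _) (hP.map _)
  rw [Subgroup.card_map_of_injective (Subgroup.subtype_injective _)] at h1
  let X : AddSubgroup S :=
    { carrier := {x | ∀ t ∈ P.map (autotopismGroup S).subtype, t.1 x = x}
      add_mem' := by
        rintro a b ha hb t ⟨g, hg, rfl⟩
        have := g.2.1 a b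
        have ha' := ha g ⟨g, hg, rfl⟩
        have hb' := hb g ⟨g, hg, rfl⟩
        show g.1.1 (a + b) = a + b
        rw [this, ha', hb']
      zero_mem' := by
        rintro t ⟨g, hg, rfl⟩
        exact perm_zero _ g.2.1
      neg_mem' := by
        rintro a ha t ⟨g, hg, rfl⟩
        have ha' := ha g ⟨g, hg, rfl⟩
        exact (map_neg (endOf S g.1.1 g.2.1) a).trans (congrArg Neg.neg ha') }
  obtain ⟨n, hn⟩ := card_invariant (Dm S) Dm_inj X (by
    rintro f ⟨f', hf⟩ x hx
    by_cases h0 : f = 0
    · rw [h0]; exact X.zero_mem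
    · have hinj := Dm_inj f ⟨f', hf⟩ h0
      obtain ⟨e1, e2, e3⟩ := Dm_apply hf
      have hf1 : f 1 ≠ 0 := by
        intro h
        have := e2 1
        apply h0
        ext x
        rw [e2, h, mul_zero]; rfl
      have hinj' : Function.Injective f' := by
        rw [injective_iff_map_eq_zero]
        intro x hx
        rw [e3] at hx
        exact (mul_eq_zero.1 hx).resolve_left hf1
      have hGs : ∀ y, f' ((permOf f' hinj').symm y) = y := fun y =>
        (permOf f' hinj').apply_symm_apply y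
      rintro t ⟨g, hg, rfl⟩
      have hmem : (permOf f hinj, (permOf f' hinj').symm, (1 : Equiv.Perm S)) ∈ autotopismGroup S := by
        refine ⟨fun x y => map_add f x y, fun x y => ?_, fun x y => rfl, fun x y => ?_⟩
        · show (permOf f' hinj').symm (x + y)
            = (permOf f' hinj').symm x + (permOf f' hinj').symm y
          apply hinj'
          rw [hGs, map_add f', hGs, hGs]
        · show f x * (permOf f' hinj').symm y = x * y
          rw [hf, hGs]
      have hcomm := hc g hg ⟨_, hmem⟩ rfl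
      have h3 : (g.1.1 * permOf f hinj) x = (permOf f hinj * g.1.1) x := by
        have := congrArg (fun t : autotopismGroup S => t.1.1 x) hcomm
        exact this
      have h4 : g.1.1 (f x) = f (g.1.1 x) := h3
      have h5 : g.1.1 x = x := hx g ⟨g, hg, rfl⟩
      show g.1.1 (f x) = f x
      rw [h4, h5])
  have hX : Nat.card X = Nat.card {x : S | ∀ t ∈ P.map (autotopismGroup S).subtype, t.1 x = x} := rfl
  rw [← hX, hn] at h1
  apply dvd_of_pow (two_le_card (Dm S)) h1
  rw [hm, card_Dm]

theorem dvd_right (hp : ∀ x : S, p • x = 0) (P : Subgroup (autotopismGroup S)) (hP : IsPGroup p P)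
    (hc : ∀ g ∈ P, ∀ a ∈ (pU S).ker, g * a = a * g) (m : ℕ)
    (hm : Nat.card S = Nat.card (rightNucleus S) ^ m) : Nat.card P ∣ m := by
  obtain ⟨-, h1, -⟩ := free_autotopism p hp (P.map (autotopismGroup S).subtype)
    (map_subtype_le _) (hP.map _)
  rw [Subgroup.card_map_of_injective (Subgroup.subtype_injective _)] at h1
  let X : AddSubgroup S :=
    { carrier := {x | ∀ t ∈ P.map (autotopismGroup S).subtype, t.2.1 x = x}
      add_mem' := by
        rintro a b ha hb t ⟨g, hg, rfl⟩
        have := g.2.2.1 a b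
        have ha' := ha g ⟨g, hg, rfl⟩
        have hb' := hb g ⟨g, hg, rfl⟩
        show g.1.2.1 (a + b) = a + b
        rw [this, ha', hb']
      zero_mem' := by
        rintro t ⟨g, hg, rfl⟩
        exact perm_zero _ g.2.2.1
      neg_mem' := by
        rintro a ha t ⟨g, hg, rfl⟩
        have ha' := ha g ⟨g, hg, rfl⟩
        exact (map_neg (endOf S g.1.2.1 g.2.2.1) a).trans (congrArg Neg.neg ha') }
  obtain ⟨n, hn⟩ := card_invariant (Dr S) Dr_inj X (by
    intro f hf x hx
    by_cases h0 : f = 0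
    · rw [h0]; exact X.zero_mem
    · have hinj := Dr_inj f hf h0
      rintro t ⟨g, hg, rfl⟩
      have hmem : ((1 : Equiv.Perm S), permOf f hinj, permOf f hinj) ∈ autotopismGroup S :=
        ⟨fun x y => rfl, fun x y => map_add f x y, fun x y => map_add f x y,
          fun x y => (hf x y).symm⟩
      have hcomm := hc g hg ⟨_, hmem⟩ rfl
      have h3 : (g.1.2.1 * permOf f hinj) x = (permOf f hinj * g.1.2.1) x := by
        have := congrArg (fun t : autotopismGroup S => t.1.2.1 x) hcomm
        exact this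
      have h4 : g.1.2.1 (f x) = f (g.1.2.1 x) := h3
      have h5 : g.1.2.1 x = x := hx g ⟨g, hg, rfl⟩
      show g.1.2.1 (f x) = f x
      rw [h4, h5])
  have hX : Nat.card X = Nat.card {x : S | ∀ t ∈ P.map (autotopismGroup S).subtype, t.2.1 x = x} := rfl
  rw [← hX, hn] at h1
  apply dvd_of_pow (two_le_card (Dr S)) h1
  rw [hm, card_Dr]

omit [NoZeroDivisors S] [Nontrivial S] in
/-- Solubility up to a normal subgroup of odd order, general step. -/
theorem odd_by_solvable_of_cyclic (A : Subgroup (autotopismGroup S)) [A.Normal] (hA : IsCyclic A)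
    (m : ℕ) (h4 : ¬ 4 ∣ m)
    (hdvd : ∀ P : Subgroup (autotopismGroup S), IsPGroup 2 P →
      (∀ g ∈ P, ∀ a ∈ A, g * a = a * g) → Nat.card P ∣ m) :
    ∃ O : Subgroup (autotopismGroup S), O.Normal ∧ Odd (Nat.card O) ∧
      ∀ [O.Normal], Group.IsSolvable (autotopismGroup S ⧸ O) := by
  have h2p : Fact (Nat.Prime 2) := ⟨Nat.prime_two⟩
  apply odd_by_solvable (MulAut.conjNormal (H := A)).ker (solvable_quot_conjNormal A hA)
  apply hasNC_of_not_four
  intro hcon
  have hcon' : 2 ^ 2 ∣ Nat.card (MulAut.conjNormal (H := A)).ker := by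
    rw [show (2 : ℕ) ^ 2 = 4 by norm_num]; exact hcon
  obtain ⟨Q, hQ⟩ := Sylow.exists_subgroup_card_pow_prime 2 hcon'
  have hQp : IsPGroup 2 Q := IsPGroup.of_card hQ
  have h3 := hdvd (Q.map (Subgroup.subtype _)) (hQp.map _) (by
    rintro g ⟨g0, hg0, rfl⟩ a ha
    exact (mem_conjNormal_ker A g0.1).1 g0.2 a ha)
  rw [Subgroup.card_map_of_injective (Subgroup.subtype_injective _), hQ] at h3
  exact h4 (by rwa [show (2 : ℕ) ^ 2 = 4 by norm_num] at h3)

end NuclearPart

section Char

variable {S : Type u} [NonAssocRing S] [Finite S] [NoZeroDivisors S]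

theorem char_of_dvd (p : ℕ) [Fact p.Prime] (h : p ∣ Nat.card S) (x : S) : p • x = 0 := by
  obtain ⟨a, ha⟩ := exists_prime_addOrderOf_dvd_card' p h
  have ha0 : a ≠ 0 := by
    intro h0
    rw [h0, addOrderOf_zero] at ha
    exact (Fact.out : p.Prime).one_lt.ne ha
  have h1 : p • a = 0 := by rw [← ha]; exact addOrderOf_nsmul_eq_zero a
  have h2 : (p • (1 : S)) * a = 0 := by rw [smul_mul_assoc, one_mul, h1]
  have h3 : p • (1 : S) = 0 := (mul_eq_zero.1 h2).resolve_right ha0
  have h4 : (p • (1 : S)) * x = p • x := by rw [smul_mul_assoc, one_mul]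
  rw [← h4, h3, zero_mul]

end Char

end Pool.Agent.Lib_MP_4776c2
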