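import Pool.Agent.Lib_MP_4776c2.Desc
import Pool.Agent.Lib_MP_4776c2.Sol

set_option autoImplicit false

namespace Pool.Agent.Lib_MP_4776c2

universe u v w

open Module

section Red

variable {G : Type*} [Group G] [Finite G]

/-- It is enough to consider elements of prime power order. -/
theorem frobHyp_of_prime_powers
    (h : ∀ r : ℕ, r.Prime → r ≠ 2 → ∀ R : Subgroup G, IsPGroup 2 R →
      ∀ y ∈ Subgroup.normalizer (R : Set G), ∀ k : ℕ, y ^ (r ^ k) = 1 → ∀ x ∈ R, y * x = x * y) :
    FrobHyp G 2 := by
  intro R hR
  have key : ∀ n : ℕ, ∀ y ∈ Subgroup.normalizer (R : Set G), orderOf y = n → n.Coprime 2 →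
      y ∈ Subgroup.centralizer (R : Set G) := by
    intro n
    induction n using Nat.strong_induction_on with
    | _ n ih =>
      intro y hy hn hcop
      have hnpos : 0 < n := by rw [← hn]; exact orderOf_pos y
      by_cases h1 : n = 1
      · rw [h1, orderOf_eq_one_iff] at hn
        rw [hn]; exact Subgroup.one_mem _
      · obtain ⟨r, hr, hrn⟩ := Nat.exists_prime_and_dvd h1
        obtain ⟨k, n', hn', hk⟩ := Nat.exists_eq_pow_mul_and_not_dvd hnpos.ne' r hr.ne_one
        have hk0 : k ≠ 0 := by
          rintro rfl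
          rw [pow_zero, one_mul] at hk
          exact hn' (by rw [← hk]; exact hrn)
        have hr2 : r ≠ 2 := by
          rintro rfl
          have := Nat.eq_one_of_dvd_coprimes hcop hrn dvd_rfl
          omega
        have hn'pos : 0 < n' := by
          rw [Nat.pos_iff_ne_zero]; rintro rfl
          exact hn' (dvd_zero r)
        have m1 : y ^ n' ∈ Subgroup.centralizer (R : Set G) := by
          rw [Subgroup.mem_centralizer_iff]
          intro x hx
          exact (h r hr hr2 R hR (y ^ n') (Subgroup.pow_mem _ hy _) k (by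
            rw [← pow_mul, mul_comm, ← hk, ← hn, pow_orderOf_eq_one]) x hx).symm
        have hrk : 1 < r ^ k := Nat.one_lt_pow hk0 hr.one_lt
        have m2 : y ^ (r ^ k) ∈ Subgroup.centralizer (R : Set G) := by
          refine ih n' ?_ (y ^ (r ^ k)) (Subgroup.pow_mem _ hy _) ?_ ?_
          · rw [hk]
            exact (Nat.lt_mul_iff_one_lt_left hn'pos).2 hrk
          · rw [orderOf_pow_of_dvd (by omega) (by rw [hn, hk]; exact dvd_mul_right _ _), hn, hk,
              Nat.mul_div_cancel_left _ (by omega)]
          · exact Nat.Coprime.coprime_dvd_left (by rw [hk]; exact dvd_mul_left _ _) hcop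
        have hc : Nat.gcd n' (r ^ k) = 1 :=
          (Nat.Coprime.pow_right k ((Nat.Prime.coprime_iff_not_dvd hr).2 hn').symm)
        have hb := Nat.gcd_eq_gcd_ab n' (r ^ k)
        rw [hc] at hb
        have hy1 : y = (y ^ n') ^ (Nat.gcdA n' (r ^ k)) * (y ^ (r ^ k)) ^ (Nat.gcdB n' (r ^ k)) := by
          rw [← zpow_natCast y n', ← zpow_natCast y (r ^ k), ← zpow_mul, ← zpow_mul, ← zpow_add, ← hb]
          simp
        rw [hy1]
        exact Subgroup.mul_mem _ (Subgroup.zpow_mem _ m1 _) (Subgroup.zpow_mem _ m2 _)
  intro y hy hyo x hx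
  exact ((Subgroup.mem_centralizer_iff.1 (key (orderOf y) y hy rfl hyo)) x hx).symm

end Red

section Main

variable {K : Type v} [Field K] {S : Type u} [NonAssocRing S] [Module K S]
  [IsScalarTower K S S] [SMulCommClass K S S]

/-- The underlying autotopism. -/
def toAut : LG K S →* Equiv.Perm S × Equiv.Perm S × Equiv.Perm S where
  toFun t := (t.1.1.toEquiv, t.1.2.1.toEquiv, t.1.2.2.toEquiv)
  map_one' := rfl
  map_mul' _ _ := rfl

theorem toAut_mem (t : LG K S) : toAut t ∈ autotopismGroup S :=
  ⟨fun x y => map_add t.1.1 x y, fun x y => map_add t.1.2.1 x y, fun x y => map_add t.1.2.2 x y,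
    fun x y => t.2 x y⟩

theorem toAut_injective : Function.Injective (toAut : LG K S →* _) := by
  intro s t h
  apply LG_ext
  · intro x
    exact congrArg (fun e : Equiv.Perm S × Equiv.Perm S × Equiv.Perm S => e.1 x) h
  · intro x
    exact congrArg (fun e : Equiv.Perm S × Equiv.Perm S × Equiv.Perm S => e.2.1 x) h
  · intro x
    exact congrArg (fun e : Equiv.Perm S × Equiv.Perm S × Equiv.Perm S => e.2.2 x) h

/-- first component -/
def π1 : LG K S →* (S ≃ₗ[K] S) where
  toFun t := t.1.1
  map_one' := rfl
  map_mul' _ _ := rfl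

/-- second component -/
def π2 : LG K S →* (S ≃ₗ[K] S) where
  toFun t := t.1.2.1
  map_one' := rfl
  map_mul' _ _ := rfl

variable [Finite S] [NoZeroDivisors S] [Nontrivial S]

theorem card_dvd_finrank [Finite K] (p : ℕ) [Fact p.Prime] (hp : ∀ x : S, p • x = 0)
    (P : Subgroup (LG K S)) (hP : IsPGroup p P) : Nat.card P ∣ finrank K S := by
  obtain ⟨h1, -, -⟩ := free_autotopism p hp (P.map toAut) (by
    rintro _ ⟨t, -, rfl⟩
    exact toAut_mem t) (hP.map _)
  rw [Subgroup.card_map_of_injective toAut_injective] at h1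
  let X : Submodule K S :=
    { carrier := {x | ∀ t ∈ P.map toAut, t.1 x = x}
      add_mem' := by
        rintro a b ha hb t ⟨g, hg, rfl⟩
        have ha' : g.1.1 a = a := ha (toAut g) ⟨g, hg, rfl⟩
        have hb' : g.1.1 b = b := hb (toAut g) ⟨g, hg, rfl⟩
        show g.1.1 (a + b) = a + b
        rw [map_add, ha', hb']
      zero_mem' := by
        rintro t ⟨g, hg, rfl⟩
        exact map_zero g.1.1
      smul_mem' := by
        rintro c x hx t ⟨g, hg, rfl⟩
        have hx' : g.1.1 x = x := hx (toAut g) ⟨g, hg, rfl⟩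
        show g.1.1 (c • x) = c • x
        rw [map_smul, hx'] }
  have hX : Nat.card X = Nat.card {x : S | ∀ t ∈ P.map toAut, t.1 x = x} := rfl
  rw [← hX, Module.natCard_eq_pow_finrank (K := K) (V := X)] at h1
  exact dvd_of_pow (Finite.one_lt_card (α := K)) h1 (Module.natCard_eq_pow_finrank (K := K) (V := S))

/-- Linear autotopisms of order a power of `r` are scalar if `r` divides `q (q - 1)`, but not the
dimension. -/
theorem scalar_of_prime [Finite K] (r : ℕ) (hrp : r.Prime)
    (hr : r ∣ Nat.card K * (Nat.card K - 1)) (hm : ¬ r ∣ finrank K S) (t : LG K S) (k : ℕ)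
    (ht : t ^ (r ^ k) = 1) : IsSc t := by
  have : Fact r.Prime := ⟨hrp⟩
  rcases (Nat.Prime.dvd_mul hrp).1 hr with h | h
  · have hcS : r ∣ Nat.card S := by
      rw [Module.natCard_eq_pow_finrank (K := K) (V := S)]
      apply dvd_pow h
      exact (finrank_pos (R := K) (M := S)).ne'
    have hP : IsPGroup r (Subgroup.zpowers t) := by
      rintro ⟨z, j, rfl⟩
      refine ⟨k, ?_⟩
      apply Subtype.ext
      show (t ^ j) ^ (r ^ k) = 1
      rw [← zpow_natCast, ← zpow_mul, mul_comm, zpow_mul, zpow_natCast, ht, one_zpow]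
    have hfin : Finite (LG K S) := finite_LG
    have h1 := card_dvd_finrank r (char_of_dvd r hcS) (Subgroup.zpowers t) hP
    obtain ⟨j, hj⟩ := IsPGroup.iff_card.1 hP
    have hj0 : j = 0 := by
      by_contra hj0
      apply hm
      exact (dvd_pow_self r hj0).trans (by rw [← hj]; exact h1)
    rw [hj0, pow_zero, Subgroup.card_eq_one, Subgroup.zpowers_eq_bot] at hj
    rw [hj]
    exact isSc_of _ 1 1 one_ne_zero one_ne_zero (fun x => (one_smul K x).symm)
      (fun x => (one_smul K x).symm)
  · exact scalar_of_order r h hm t k ht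

/-- The hypothesis of Frobenius' theorem in even characteristic. -/
theorem frobHyp_even [Finite K] (hev : 2 ∣ Nat.card K)
    (hPi : ∀ r a : ℕ, r.Prime → r ≠ 2 → 0 < a → 2 ^ a ∣ finrank K S → r ∣ 2 ^ a - 1 →
      r ∣ Nat.card K * (Nat.card K - 1) ∧ ¬ r ∣ finrank K S) : FrobHyp (LG K S) 2 := by
  have hfin : Finite (LG K S) := finite_LG
  have h2p : Fact (Nat.Prime 2) := ⟨Nat.prime_two⟩
  have hcS : 2 ∣ Nat.card S := by
    rw [Module.natCard_eq_pow_finrank (K := K) (V := S)]
    exact dvd_pow hev (finrank_pos (R := K) (M := S)).ne'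
  apply frobHyp_of_prime_powers
  intro r hrp hr2 R hR y hy k hyk
  have : Fact r.Prime := ⟨hrp⟩
  by_contra hne
  have hmod := modEq_card r y k hyk R hy
  set C : Subgroup (LG K S) := R ⊓ Subgroup.centralizer {y} with hC
  have hClt : C < R := by
    apply lt_of_le_of_ne inf_le_left
    intro heq
    apply hne
    intro x hx
    rw [← heq] at hx
    exact (Subgroup.mem_centralizer_iff.1 (Subgroup.mem_inf.1 hx).2) y rfl
  obtain ⟨n, hn⟩ := IsPGroup.iff_card.1 hR
  obtain ⟨j, hj⟩ := IsPGroup.iff_card.1 (hR.to_le hClt.le)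
  have hjn : j < n := by
    have h1 : Nat.card C < Nat.card R := by
      apply lt_of_le_of_ne (Subgroup.card_le_of_le hClt.le)
      intro heq
      exact hClt.ne (Subgroup.eq_of_le_of_card_ge hClt.le heq.ge)
    rw [hn, hj] at h1
    exact (Nat.pow_lt_pow_iff_right (by norm_num)).1 h1
  have hdvdm : 2 ^ n ∣ finrank K S := by
    rw [← hn]; exact card_dvd_finrank 2 (char_of_dvd 2 hcS) R hR
  have hr : r ∣ 2 ^ (n - j) - 1 := by
    rw [hn, hj] at hmod
    have hcop : Nat.gcd r (2 ^ j) = 1 :=
      Nat.Coprime.pow_right _ ((Nat.coprime_primes hrp Nat.prime_two).2 hr2)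
    have h3 : 2 ^ (n - j) ≡ 1 [MOD r] := by
      apply Nat.ModEq.cancel_right_of_coprime hcop
      rw [one_mul, ← pow_add, Nat.sub_add_cancel hjn.le]; exact hmod
    exact (Nat.modEq_iff_dvd' (Nat.one_le_two_pow)).1 h3.symm
  obtain ⟨h5, h6⟩ := hPi r (n - j) hrp hr2 (by omega)
    ((pow_dvd_pow 2 (Nat.sub_le n j)).trans hdvdm) hr
  apply hne
  intro x _
  exact isSc_central y (scalar_of_prime r hrp h5 h6 y k hyk) x

/-- The hypothesis of Frobenius' theorem in odd characteristic. -/
theorem frobHyp_odd [Finite K] (h2 : (2 : K) ≠ 0)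
    (hPi : ∀ r a : ℕ, r.Prime → r ≠ 2 → 0 < a → 2 ^ a ∣ finrank K S → r ∣ 4 ^ a - 1 →
      r ∣ Nat.card K * (Nat.card K - 1) ∧ ¬ r ∣ finrank K S) : FrobHyp (LG K S) 2 := by
  have hfin : Finite (LG K S) := finite_LG
  have hfd : FiniteDimensional K S := inferInstance
  have h2p : Fact (Nat.Prime 2) := ⟨Nat.prime_two⟩
  apply frobHyp_of_prime_powers
  intro r hrp hr2 R0 hR0 y hy0 k hyk
  have : Fact r.Prime := ⟨hrp⟩
  have hyo : Odd (orderOf y) := by
    have h1 : orderOf y ∣ r ^ k := orderOf_dvd_of_pow_eq_one hyk
    exact Odd.of_dvd_nat ((hrp.odd_of_ne_two hr2).pow) h1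
  have key : ∀ n : ℕ, ∀ R : Subgroup (LG K S), Nat.card R = n → IsPGroup 2 R →
      y ∈ Subgroup.normalizer (R : Set (LG K S)) → ∀ x ∈ R, y * x = x * y := by
    intro n
    induction n using Nat.strong_induction_on with
    | _ n ih =>
      intro R hRn hR hy
      by_contra hne
      have ih' : ∀ R1 : Subgroup (LG K S), R1 < R → y ∈ Subgroup.normalizer (R1 : Set (LG K S)) →
          ∀ x ∈ R1, y * x = x * y := by
        intro R1 hR1 hy1
        refine ih (Nat.card R1) ?_ R1 rfl (hR.to_le hR1.le) hy1
        rw [← hRn]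
        apply lt_of_le_of_ne (Subgroup.card_le_of_le hR1.le)
        intro heq
        exact hR1.ne (Subgroup.eq_of_le_of_card_ge hR1.le heq.ge)
      have hgen := minimal_step y hyo R hR hy ih' hne
      obtain ⟨C, hCR, hCof, hCy, hsq, hcom, hcen, hC2, hab, hr⟩ :=
        minimal_structure r hr2 y k hyk R hR hy hgen ih' hne
      have fin : ∀ a : ℕ, 0 < a → 2 ^ a ∣ finrank K S → r ∣ 4 ^ a - 1 → False := by
        intro a ha ha1 ha2
        obtain ⟨h5, h6⟩ := hPi r a hrp hr2 ha ha1 ha2
        apply hne
        intro x _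
        exact isSc_central y (scalar_of_prime r hrp h5 h6 y k hyk) x
      by_cases hcomm : ∀ g ∈ R, ∀ h ∈ R, g * h = h * g
      · -- abelian case
        have hCbot := hab hcomm
        have hR2 : ∀ g : R, g * g = 1 := by
          intro g
          have := hsq g.1 g.2
          rw [hCbot, Subgroup.mem_bot] at this
          exact Subtype.ext this
        obtain ⟨j, hj⟩ := IsPGroup.iff_card.1 hR
        have hj0 : 0 < j := by
          rw [Nat.pos_iff_ne_zero]
          rintro rfl
          rw [pow_zero, Subgroup.card_eq_one] at hj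
          apply hne
          intro x hx
          rw [hj, Subgroup.mem_bot] at hx
          rw [hx, mul_one, one_mul]
        let ρ : R →* End K S :=
          { toFun := fun g => (g.1.1.1 : S →ₗ[K] S)
            map_one' := rfl
            map_mul' := fun _ _ => rfl }
        have hTtop : Tri R (finrank K S) (⊤ : Submodule K S) ⊤ ⊤ :=
          { dU := finrank_top K S, dV := finrank_top K S, dW := finrank_top K S
            mul := fun _ _ _ _ => Submodule.mem_top
            iU := fun _ _ _ _ => Submodule.mem_top
            iV := fun _ _ _ _ => Submodule.mem_top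
            iW := fun _ _ _ _ => Submodule.mem_top }
        have hdvd := elem_ab h2 (Nat.card R) S R rfl hR2 ρ (by
          intro g hg
          have hns : ¬ IsSc g.1 := by
            intro hsc
            apply hg
            have h1 : g.1 ∈ C := hCof g.1 g.2 (isSc_central g.1 hsc y).symm
            rw [hCbot, Subgroup.mem_bot] at h1
            exact Subtype.ext h1
          rcases hTtop.split h2 (finrank_pos (R := K) (M := S)) g.1 g.2 (congrArg Subtype.val (hR2 g))
            (fun h hh => hcomm h hh g.1 g.2) with h | h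
          · exfalso
            obtain ⟨⟨ε, hε, h1⟩, ⟨δ, hδ, h3⟩⟩ := h
            apply hns
            refine isSc_of g.1 ε δ ?_ ?_ (fun x => h1 x Submodule.mem_top) (fun x => h3 x Submodule.mem_top)
            · rcases hε with rfl | rfl
              · exact one_ne_zero
              · exact neg_ne_zero.2 one_ne_zero
            · rcases hδ with rfl | rfl
              · exact one_ne_zero
              · exact neg_ne_zero.2 one_ne_zero
          · obtain ⟨d', hdd, -, hT⟩ := h
            have h1 := (hT 1 1 (Or.inl rfl) (Or.inl rfl)).dU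
            rw [top_inf_eq] at h1
            show 2 * finrank K (End.eigenspace (g.1.1.1 : S →ₗ[K] S) 1) = finrank K S
            rw [h1, hdd])
        rw [hj] at hdvd
        apply fin j hj0 hdvd
        have h1 := hr j (by rw [hCbot, Subgroup.card_bot, mul_one, hj])
        refine h1.trans ?_
        have h3 := Nat.sub_dvd_pow_sub_pow (2 ^ j) 1 2
        rw [one_pow, ← pow_mul, mul_comm j 2, pow_mul] at h3
        exact h3
      · -- nonabelian case
        push Not at hcomm
        obtain ⟨x, hx, x', hx', hxx⟩ := hcomm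
        set e0 := x * x' * x⁻¹ * x'⁻¹ with he0
        have he0C : e0 ∈ C := hcom x hx x' hx'
        have he01 : e0 ≠ 1 := by
          intro h
          apply hxx
          calc x * x' = e0 * (x' * x) := by rw [he0]; group
            _ = x' * x := by rw [h, one_mul]
        let H : Subgroup (LG K S) := R ⊔ Subgroup.zpowers y
        have hRH : R ≤ H := le_sup_left
        have hyH : y ∈ H := (le_sup_right : Subgroup.zpowers y ≤ H) (Subgroup.mem_zpowers y)
        have hcenH : ∀ g ∈ H, ∀ c ∈ C, g * c = c * g := by
          intro g hg c hc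
          have hle : H ≤ Subgroup.centralizer {c} := by
            apply sup_le
            · intro z hz
              rw [Subgroup.mem_centralizer_iff]
              intro w hw
              rw [Set.mem_singleton_iff.1 hw]
              exact (hcen z hz c hc).symm
            · rw [Subgroup.zpowers_le, Subgroup.mem_centralizer_iff]
              intro w hw
              rw [Set.mem_singleton_iff.1 hw]
              exact (hCy c hc).symm
          exact ((Subgroup.mem_centralizer_iff.1 (hle hg)) c rfl).symm
        have hTtop : Tri H (finrank K S) (⊤ : Submodule K S) ⊤ ⊤ :=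
          { dU := finrank_top K S, dV := finrank_top K S, dW := finrank_top K S
            mul := fun _ _ _ _ => Submodule.mem_top
            iU := fun _ _ _ _ => Submodule.mem_top
            iV := fun _ _ _ _ => Submodule.mem_top
            iW := fun _ _ _ _ => Submodule.mem_top }
        obtain ⟨d', U', V', W', hT', hd', hdd', hsc, hneg⟩ := descent h2 H C (hCR.trans hRH) hC2 hcenH e0
          he0C (finrank K S) ⊤ ⊤ ⊤ hTtop (finrank_pos (R := K) (M := S)) (by
            by_contra hcon
            push Not at hcon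
            obtain ⟨h1, h3⟩ := hcon
            apply he01
            have h1' : ∀ x, e0.1.1 x = x := fun x => h1 x Submodule.mem_top
            have h3' : ∀ x, e0.1.2.1 x = x := fun x => h3 x Submodule.mem_top
            apply LG_ext e0 1 h1' h3'
            intro x
            have h4 := LG_apply e0 1 x
            rw [one_mul, h1', h3', one_mul] at h4
            exact h4.symm)
        rcases hneg with hneg | hneg
        · obtain ⟨a, ha, had, har⟩ := cliff_step h2 r y R C hCR hCof hsq hcom hcen hr ih' hy π1 U'
            (fun g hg u hu => hT'.iU g (hRH hg) u hu) (fun u hu => hT'.iU y⁻¹ (H.inv_mem hyH) u hu)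
            (by rw [hT'.dU]; exact hd') (fun c hc => (hsc c hc).1) x x' hx hx' hneg
          exact fin a ha ((had.trans (by rw [hT'.dU])).trans hdd') har
        · obtain ⟨a, ha, had, har⟩ := cliff_step h2 r y R C hCR hCof hsq hcom hcen hr ih' hy π2 V'
            (fun g hg u hu => hT'.iV g (hRH hg) u hu) (fun u hu => hT'.iV y⁻¹ (H.inv_mem hyH) u hu)
            (by rw [hT'.dV]; exact hd') (fun c hc => (hsc c hc).2) x x' hx hx' hneg
          exact fin a ha ((had.trans (by rw [hT'.dV])).trans hdd') har
  exact key (Nat.card R0) R0 rfl hR0 hy0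

end Main

end Pool.Agent.Lib_MP_4776c2
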