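import Mathlib

set_option autoImplicit false

namespace Pool.Agent.Lib_MP_4776c2

open Subgroup Pointwise
open scoped commutatorElement

section Frobenius

variable {G : Type*} [Group G] [Finite G] (p : ℕ) [Fact p.Prime]

/-- The hypothesis of Frobenius' theorem: `p`-regular elements normalising a `p`-subgroup
centralise it. -/
def FrobHyp (G : Type*) [Group G] (p : ℕ) : Prop :=
  ∀ Q : Subgroup G, IsPGroup p Q → ∀ y ∈ normalizer (Q : Set G), (orderOf y).Coprime p →
    ∀ x ∈ Q, y * x = x * y

/-- `G` has a normal `p`-complement. -/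
def HasNC (G : Type*) [Group G] (p : ℕ) : Prop :=
  ∃ N : Subgroup G, N.Normal ∧ ¬ p ∣ Nat.card N ∧ ∃ k : ℕ, N.index = p ^ k

theorem quot_isPGroup (h : FrobHyp G p) (D : Subgroup G) (hD : IsPGroup p D) :
    ∀ m ∈ normalizer (D : Set G), ∃ k : ℕ, m ^ (p ^ k) ∈ centralizer (D : Set G) := by
  intro m hm
  have hpp : p.Prime := Fact.out
  obtain ⟨k, n, hn, hk⟩ := Nat.exists_eq_pow_mul_and_not_dvd (orderOf_pos m).ne' p hpp.ne_one
  refine ⟨k, ?_⟩
  rw [mem_centralizer_iff]
  intro x hx
  have hord : orderOf (m ^ (p ^ k)) = n := by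
    rw [orderOf_pow_of_dvd (pow_pos hpp.pos k).ne' (by rw [hk]; exact dvd_mul_right _ _), hk,
      Nat.mul_div_cancel_left _ (pow_pos hpp.pos k)]
  exact (h D hD (m ^ (p ^ k)) (Subgroup.pow_mem _ hm _)
    (by rw [hord]; exact ((hpp.coprime_iff_not_dvd).2 hn).symm) x hx).symm

/-- `N(D) = C(D) T` for a Sylow subgroup `T` of `N(D)`. -/
theorem factor (h : FrobHyp G p) (D : Subgroup G) (hD : IsPGroup p D)
    (T : Sylow p (normalizer (D : Set G))) (m : normalizer (D : Set G)) :
    ∃ c t : normalizer (D : Set G), c.1 ∈ centralizer (D : Set G) ∧ t ∈ T ∧ m = c * t := by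
  have hpp : p.Prime := Fact.out
  set C : Subgroup (normalizer (D : Set G)) :=
    (centralizer (D : Set G)).subgroupOf (normalizer (D : Set G)) with hC
  have hCn : C.Normal := by
    constructor
    intro n hn g
    rw [hC, mem_subgroupOf, mem_centralizer_iff] at hn ⊢
    intro x hx
    have hx' : g.1⁻¹ * x * g.1 ∈ D := by
      have h1 := (mem_normalizer_iff.1 (Subgroup.inv_mem _ g.2) x).1 hx
      rwa [inv_inv] at h1
    have h2 := hn _ hx'
    show x * (g.1 * n.1 * g.1⁻¹) = g.1 * n.1 * g.1⁻¹ * x
    calc x * (g.1 * n.1 * g.1⁻¹) = g.1 * ((g.1⁻¹ * x * g.1) * n.1) * g.1⁻¹ := by group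
      _ = g.1 * (n.1 * (g.1⁻¹ * x * g.1)) * g.1⁻¹ := by rw [h2]
      _ = _ := by group
  have hpg : IsPGroup p (normalizer (D : Set G) ⧸ C) := by
    intro q
    obtain ⟨m, rfl⟩ := QuotientGroup.mk'_surjective C q
    obtain ⟨k, hk⟩ := quot_isPGroup p h D hD m.1 m.2
    refine ⟨k, ?_⟩
    rw [← map_pow]
    exact (QuotientGroup.eq_one_iff _).2 hk
  have hidx : (C ⊔ (T : Subgroup (normalizer (D : Set G)))).index = 1 := by
    have h1 : (C ⊔ (T : Subgroup (normalizer (D : Set G)))).index ∣
        (T : Subgroup (normalizer (D : Set G))).index :=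
      index_dvd_of_le le_sup_right
    have h2 : (C ⊔ (T : Subgroup (normalizer (D : Set G)))).index ∣ C.index :=
      index_dvd_of_le le_sup_left
    obtain ⟨k, hk⟩ := IsPGroup.iff_card.1 hpg
    have h3 : C.index = p ^ k := hk
    rw [h3] at h2
    obtain ⟨j, -, hj⟩ := (Nat.dvd_prime_pow hpp).1 h2
    rcases Nat.eq_zero_or_pos j with h0 | h0
    · rw [hj, h0, pow_zero]
    · exfalso
      apply T.not_dvd_index
      exact (dvd_trans (dvd_pow_self p h0.ne') (by rw [← hj])).trans h1
  have htop : C ⊔ (T : Subgroup (normalizer (D : Set G))) = ⊤ := index_eq_one.1 hidx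
  have hm : m ∈ C ⊔ (T : Subgroup (normalizer (D : Set G))) := by rw [htop]; exact mem_top m
  obtain ⟨c, hc, t, ht, hct⟩ := mem_sup_of_normal_left.1 hm
  exact ⟨c, t, hc, ht, hct.symm⟩

/-- If `D < P` for a `p`-group `P` then `D < P ⊓ N(D)`. -/
theorem lt_normalizer_inf (P D : Subgroup G) (hP : IsPGroup p P) (hlt : D < P) :
    D < P ⊓ normalizer (D : Set G) := by
  have hle : D ≤ P := hlt.le
  have hnil : Group.IsNilpotent P := hP.isNilpotent
  have hnc := Group.normalizerCondition_of_isNilpotent (G := P)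
  have h1 : D.subgroupOf P < ⊤ := by
    rw [lt_top_iff_ne_top]
    intro h
    rw [subgroupOf_eq_top] at h
    exact absurd (le_antisymm hle h) hlt.ne
  have h2 := hnc _ h1
  refine lt_of_le_of_ne (le_inf hle le_normalizer) ?_
  intro heq
  apply h2.ne
  apply le_antisymm h2.le
  intro x hx
  rw [mem_subgroupOf, heq]
  refine ⟨x.2, ?_⟩
  show (x : G) ∈ normalizer (D : Set G)
  rw [mem_normalizer_iff] at hx ⊢
  intro y
  constructor
  · intro hy
    have := (hx ⟨y, hle hy⟩).1 (by rw [mem_subgroupOf]; exact hy)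
    exact this
  · intro hy
    have hyP : y ∈ P := by
      have h3 : x.1⁻¹ * (x.1 * y * x.1⁻¹) * x.1 ∈ P :=
        P.mul_mem (P.mul_mem (P.inv_mem x.2) (hle hy)) x.2
      have h4 : x.1⁻¹ * (x.1 * y * x.1⁻¹) * x.1 = y := by group
      rwa [h4] at h3
    have := (hx ⟨y, hyP⟩).2 (by rw [mem_subgroupOf]; exact hy)
    exact this

omit [Finite G] [Fact p.Prime] in
theorem mem_smul_sylow (g x : G) (P : Sylow p G) : x ∈ g • P ↔ g⁻¹ * x * g ∈ P := by
  rw [← SetLike.mem_coe, ← SetLike.mem_coe]
  show x ∈ ((g • P : Sylow p G) : Subgroup G) ↔ g⁻¹ * x * g ∈ (P : Subgroup G)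
  rw [Sylow.coe_subgroup_smul, Subgroup.mem_pointwise_smul_iff_inv_smul_mem]
  simp [MulAut.smul_def]

omit [Finite G] [Fact p.Prime] in
theorem smul_sylow_mono (g : G) (A : Subgroup G) (P : Sylow p G) (h : A ≤ (P : Subgroup G))
    (x : G) (hx : g⁻¹ * x * g ∈ A) : x ∈ g • P := (mem_smul_sylow p g x P).2 (h hx)

/-- Two Sylow subgroups are conjugate by an element centralising their intersection. -/
theorem conj_sylow (h : FrobHyp G p) (n : ℕ) : ∀ P S : Sylow p G,
    Nat.card P - Nat.card ((P : Subgroup G) ⊓ S : Subgroup G) = n →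
    ∃ c ∈ centralizer (((P : Subgroup G) ⊓ S : Subgroup G) : Set G), S = c • P := by
  induction n using Nat.strong_induction_on with
  | _ n ih =>
    intro P S hn
    set D : Subgroup G := (P : Subgroup G) ⊓ S with hDdef
    have hD : IsPGroup p D := P.2.to_le inf_le_left
    have hcardle : ∀ Q : Sylow p G, Nat.card Q = Nat.card P := fun Q => by
      rw [Sylow.card_eq_multiplicity, Sylow.card_eq_multiplicity]
    by_cases hDP : D = P
    · -- P ≤ S
      have hPS : (P : Subgroup G) ≤ S := by rw [← hDP]; exact inf_le_right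
      have : P = S := by
        apply Sylow.ext
        exact (P.3 S.2 hPS).symm
      exact ⟨1, one_mem _, by rw [← this, one_smul]⟩
    · have hDltP : D < P := lt_of_le_of_ne inf_le_left hDP
      have hDltS : D < S := by
        refine lt_of_le_of_ne inf_le_right ?_
        intro hDS
        have : (S : Subgroup G) ≤ P := by rw [← hDS]; exact inf_le_left
        have hSP : P = S := by
          apply Sylow.ext
          exact S.3 P.2 this
        apply hDP
        rw [hDdef, ← hSP, inf_idem]
      have hA := lt_normalizer_inf p (P : Subgroup G) D P.2 hDltP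
      have hB := lt_normalizer_inf p (S : Subgroup G) D S.2 hDltS
      set A : Subgroup G := (P : Subgroup G) ⊓ normalizer (D : Set G) with hAdef
      set B : Subgroup G := (S : Subgroup G) ⊓ normalizer (D : Set G) with hBdef
      -- Sylow subgroups of the normaliser
      have hA' : IsPGroup p (A.subgroupOf (normalizer (D : Set G))) := by
        have : IsPGroup p A := P.2.to_le inf_le_left
        exact this.comap_of_injective _ (Subgroup.subtype_injective _)
      have hB' : IsPGroup p (B.subgroupOf (normalizer (D : Set G))) := by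
        have : IsPGroup p B := S.2.to_le inf_le_left
        exact this.comap_of_injective _ (Subgroup.subtype_injective _)
      obtain ⟨T1, hT1⟩ := hA'.exists_le_sylow
      obtain ⟨T2, hT2⟩ := hB'.exists_le_sylow
      obtain ⟨m, hm⟩ := MulAction.exists_smul_eq (normalizer (D : Set G)) T1 T2
      obtain ⟨c, t, hc, ht, hmct⟩ := factor p h D hD T1 m
      have hT21 : T2 = c • T1 := by
        rw [← hm, hmct, mul_smul]
        congr 1
        exact Sylow.smul_eq_iff_mem_normalizer.2 (le_normalizer ht)
      -- the first intermediate Sylow subgroup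
      have hT1' : IsPGroup p ((T1 : Subgroup (normalizer (D : Set G))).map
          (normalizer (D : Set G)).subtype) := T1.2.map _
      obtain ⟨P1, hP1⟩ := hT1'.exists_le_sylow
      have hAP1 : A ≤ P1 := by
        intro a ha
        apply hP1
        have haN : a ∈ normalizer (D : Set G) := (inf_le_right : A ≤ _) ha
        exact ⟨⟨a, haN⟩, hT1 (show (⟨a, haN⟩ : normalizer (D : Set G)) ∈ A.subgroupOf _ from
          mem_subgroupOf.2 ha), rfl⟩
      have hcardpos : ∀ (X Y : Subgroup G), X < Y → Nat.card X < Nat.card Y := by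
        intro X Y hXY
        apply lt_of_le_of_ne (Subgroup.card_le_of_le hXY.le)
        intro heq
        exact hXY.ne (Subgroup.eq_of_le_of_card_ge hXY.le heq.ge)
      have hDcardP : Nat.card D < Nat.card P := hcardpos D P hDltP
      have h1 : Nat.card D < Nat.card ((P : Subgroup G) ⊓ P1 : Subgroup G) :=
        lt_of_lt_of_le (hcardpos D A hA) (Subgroup.card_le_of_le (le_inf inf_le_left hAP1))
      have h1' : Nat.card ((P : Subgroup G) ⊓ P1 : Subgroup G) ≤ Nat.card P :=
        Subgroup.card_le_of_le inf_le_left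
      obtain ⟨c1, hc1, hP1c⟩ := ih (Nat.card P - Nat.card ((P : Subgroup G) ⊓ P1 : Subgroup G))
        (by omega) P P1 rfl
      -- the second one
      have hBP2 : B ≤ ((c.1 • P1 : Sylow p G) : Subgroup G) := by
        intro b hb
        show b ∈ (c.1 • P1 : Sylow p G)
        rw [mem_smul_sylow]
        have hbN : b ∈ normalizer (D : Set G) := (inf_le_right : B ≤ _) hb
        have hb2 : (⟨b, hbN⟩ : normalizer (D : Set G)) ∈ T2 :=
          hT2 (show (⟨b, hbN⟩ : normalizer (D : Set G)) ∈ B.subgroupOf _ from mem_subgroupOf.2 hb)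
        rw [hT21, mem_smul_sylow] at hb2
        apply hP1
        exact ⟨_, hb2, rfl⟩
      have h2 : Nat.card D < Nat.card (((c.1 • P1 : Sylow p G) : Subgroup G) ⊓ S : Subgroup G) :=
        lt_of_lt_of_le (hcardpos D B hB) (Subgroup.card_le_of_le (le_inf hBP2 inf_le_left))
      have h2' : Nat.card (((c.1 • P1 : Sylow p G) : Subgroup G) ⊓ S : Subgroup G)
          ≤ Nat.card (c.1 • P1 : Sylow p G) :=
        Subgroup.card_le_of_le inf_le_left
      have h2'' := hcardle (c.1 • P1)
      obtain ⟨c2, hc2, hS⟩ := ih (Nat.card (c.1 • P1 : Sylow p G)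
        - Nat.card (((c.1 • P1 : Sylow p G) : Subgroup G) ⊓ S : Subgroup G))
        (by omega) (c.1 • P1) S rfl
      refine ⟨c2 * (c.1 * c1), ?_, ?_⟩
      · apply Subgroup.mul_mem
        · apply centralizer_le _ hc2
          intro x hx
          exact ⟨hBP2 (hB.le hx), hDltS.le hx⟩
        · apply Subgroup.mul_mem _ hc
          apply centralizer_le _ hc1
          intro x hx
          exact ⟨hDltP.le hx, hAP1 (hA.le hx)⟩
      · rw [mul_smul, mul_smul, ← hP1c, ← hS]

/-- Fusion is controlled by a Sylow subgroup. -/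
theorem fusion (h : FrobHyp G p) (P : Sylow p G) (x g : G) (hx : x ∈ P) (hgx : g * x * g⁻¹ ∈ P) :
    ∃ v ∈ P, g * x * g⁻¹ = v * x * v⁻¹ := by
  obtain ⟨c, hc, hcP⟩ := conj_sylow p h _ P (g⁻¹ • P) rfl
  have hxg : x ∈ g⁻¹ • P := by
    rw [mem_smul_sylow, inv_inv]; exact hgx
  have hcx : x * c = c * x := mem_centralizer_iff.1 hc x ⟨hx, hxg⟩
  have hn : g * c ∈ normalizer ((P : Subgroup G) : Set G) := by
    have h3 : (g * c) • P = P := by rw [mul_smul, ← hcP, smul_inv_smul]
    have h4 := Sylow.smul_eq_iff_mem_normalizer.1 h3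
    exact h4
  obtain ⟨T⟩ : Nonempty (Sylow p (normalizer ((P : Subgroup G) : Set G))) := inferInstance
  obtain ⟨c', t, hc', ht, hm⟩ := factor p h (P : Subgroup G) P.2 T ⟨g * c, hn⟩
  have htP : t.1 ∈ P := by
    have h1 : IsPGroup p ((T : Subgroup (normalizer ((P : Subgroup G) : Set G))).map
          (normalizer ((P : Subgroup G) : Set G)).subtype) := T.2.map _
    have h2 := h1.inf_normalizer_sylow P
    have h3 : t.1 ∈ ((T : Subgroup (normalizer ((P : Subgroup G) : Set G))).map
          (normalizer ((P : Subgroup G) : Set G)).subtype) ⊓ normalizer (P : Set G) :=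
      ⟨⟨t, ht, rfl⟩, t.2⟩
    rw [h2] at h3
    exact h3.2
  refine ⟨t.1, htP, ?_⟩
  have hm' : g * c = c'.1 * t.1 := congrArg Subtype.val hm
  have hgc : g * x * g⁻¹ = (g * c) * x * (g * c)⁻¹ := by
    calc g * x * g⁻¹ = g * (x * c) * c⁻¹ * g⁻¹ := by group
      _ = g * (c * x) * c⁻¹ * g⁻¹ := by rw [hcx]
      _ = _ := by group
  rw [hgc, hm']
  have htx : t.1 * x * t.1⁻¹ ∈ P := P.mul_mem (P.mul_mem htP hx) (P.inv_mem htP)
  have hcc := mem_centralizer_iff.1 hc' _ htx
  calc c'.1 * t.1 * x * (c'.1 * t.1)⁻¹ = (c'.1 * (t.1 * x * t.1⁻¹)) * c'.1⁻¹ := by group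
    _ = ((t.1 * x * t.1⁻¹) * c'.1) * c'.1⁻¹ := by rw [hcc]
    _ = _ := by group

theorem focal_le (h : FrobHyp G p) (P : Sylow p G) :
    (P : Subgroup G).focalSubgroup ≤ ⁅(P : Subgroup G), (P : Subgroup G)⁆ := by
  rw [Subgroup.focalSubgroup_def, Subgroup.closure_le]
  rintro z ⟨hz, x, hx, u, rfl⟩
  have h1 : u * x⁻¹ * u⁻¹ ∈ P := by
    have : u * x⁻¹ * u⁻¹ = x⁻¹ * (x * u * x⁻¹ * u⁻¹) := by group
    rw [this]
    exact P.mul_mem (P.inv_mem hx) hz
  obtain ⟨v, hv, huv⟩ := fusion p h P x⁻¹ u (P.inv_mem hx) h1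
  have h2 : ⁅x, u⁆ = ⁅x, v⁆ := by
    rw [commutatorElement_def, commutatorElement_def]
    calc x * u * x⁻¹ * u⁻¹ = x * (u * x⁻¹ * u⁻¹) := by group
      _ = x * (v * x⁻¹ * v⁻¹) := by rw [huv]
      _ = _ := by group
  rw [h2]
  exact commutator_mem_commutator hx hv

omit [Finite G] [Fact p.Prime] in
theorem frobHyp_subgroup (h : FrobHyp G p) (K : Subgroup G) : FrobHyp K p := by
  intro Q hQ y hy hyo x hx
  have h1 := h (Q.map K.subtype) (hQ.map _) y.1 (by
    rw [mem_normalizer_iff]
    intro z
    constructor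
    · rintro ⟨w, hw, rfl⟩
      exact ⟨y * w * y⁻¹, (mem_normalizer_iff.1 hy w).1 hw, rfl⟩
    · rintro ⟨w, hw, hwz⟩
      have hzK : z ∈ K := by
        have : z = y.1⁻¹ * (K.subtype w) * y.1 := by rw [hwz]; group
        rw [this]
        exact K.mul_mem (K.mul_mem (K.inv_mem y.2) w.2) y.2
      refine ⟨⟨z, hzK⟩, ?_, rfl⟩
      apply (mem_normalizer_iff.1 hy _).2
      have : y * ⟨z, hzK⟩ * y⁻¹ = w := Subtype.ext hwz.symm
      rw [this]; exact hw) (by rwa [← Subgroup.orderOf_coe] at hyo) x.1 ⟨x, hx, rfl⟩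
  exact Subtype.ext h1

/-- Frobenius' normal `p`-complement theorem. -/
theorem frobenius (n : ℕ) : ∀ (G : Type*) [Group G] [Finite G], FrobHyp G p → Nat.card G = n →
    HasNC G p := by
  induction n using Nat.strong_induction_on with
  | _ n ih =>
    intro G _ _ h hn
    have hpp : p.Prime := Fact.out
    obtain ⟨P⟩ : Nonempty (Sylow p G) := inferInstance
    by_cases hP : (P : Subgroup G) = ⊥
    · refine ⟨⊤, inferInstance, ?_, 0, by rw [index_top, pow_zero]⟩
      have h1 := P.not_dvd_index
      rw [hP, index_bot] at h1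
      rwa [Subgroup.card_top]
    · have hfoc : (P : Subgroup G).focalSubgroup < P := by
        refine lt_of_le_of_lt (focal_le p h P) ?_
        have hnil : Group.IsNilpotent P := P.2.isNilpotent
        have hnt : Nontrivial P := (Subgroup.nontrivial_iff_ne_bot _).2 hP
        have h1 : commutator P < ⊤ := Group.IsSolvable.commutator_lt_top_of_nontrivial P
        have h2 := Subgroup.map_subtype_commutator (P : Subgroup G)
        rw [← h2]
        refine lt_of_le_of_ne (Subgroup.map_subtype_le _) ?_
        intro heq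
        apply h1.ne
        rw [eq_top_iff]
        intro x _
        have hx : x.1 ∈ (commutator P).map (P : Subgroup G).subtype := by rw [heq]; exact x.2
        obtain ⟨w, hw, hwx⟩ := hx
        have : w = x := Subtype.ext hwx
        rwa [this] at hw
      set K := (P : Subgroup G).transferFocal.ker with hK
      have hKP : K ⊓ P = (P : Subgroup G).focalSubgroup := Subgroup.ker_transferFocal_inf_eq_focalSubgroup P
      have hidx : ∃ k, K.index = p ^ k := by
        have h1 : K.index = Nat.card (P ⧸ (P : Subgroup G).focalSubgroupOf) :=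
          Nat.card_congr (Subgroup.transferFocal.quotientKerMulEquivQuotientFocalSubroupOf P).toEquiv
        rw [h1]
        exact IsPGroup.iff_card.1 (P.2.to_quotient _)
      have hlt : K < ⊤ := by
        rw [lt_top_iff_ne_top]
        intro htop
        rw [htop, top_inf_eq] at hKP
        exact hfoc.ne hKP.symm
      have hcard : Nat.card K < n := by
        rw [← hn]
        apply lt_of_le_of_ne (Subgroup.card_le_card_group K)
        intro heq
        exact hlt.ne (Subgroup.eq_top_of_card_eq K heq)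
      obtain ⟨N, hN, hNp, k, hk⟩ := ih (Nat.card K) hcard K (frobHyp_subgroup p h K) rfl
      obtain ⟨j, hj⟩ := hidx
      refine ⟨N.map K.subtype, ?_, ?_, j + k, ?_⟩
      · -- characteristic
        have hchar : ∀ x : K, x ∈ N ↔ (orderOf x).Coprime p := by
          intro x
          constructor
          · intro hx
            have h1 : orderOf x ∣ Nat.card N := by
              have := orderOf_dvd_natCard (⟨x, hx⟩ : N)
              rwa [Subgroup.orderOf_mk] at this
            have h2 : (Nat.card N).Coprime p := ((hpp.coprime_iff_not_dvd).2 hNp).symm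
            exact Nat.Coprime.coprime_dvd_left h1 h2
          · intro hx
            have h1 : orderOf (QuotientGroup.mk' N x) ∣ orderOf x := orderOf_map_dvd _ _
            have h2 : orderOf (QuotientGroup.mk' N x) ∣ p ^ k := by
              rw [← hk]; exact orderOf_dvd_natCard _
            have h3 : orderOf (QuotientGroup.mk' N x) = 1 := by
              apply Nat.eq_one_of_dvd_coprimes _ h1 h2
              exact Nat.Coprime.pow_right _ hx
            rw [orderOf_eq_one_iff] at h3
            exact (QuotientGroup.eq_one_iff _).1 h3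
        constructor
        rintro _ ⟨x, hx, rfl⟩ g
        have hKn : K.Normal := inferInstance
        refine ⟨⟨g * x.1 * g⁻¹, hKn.conj_mem x.1 x.2 g⟩, ?_, rfl⟩
        show _ ∈ N
        rw [hchar]
        have h1 := (hchar x).1 hx
        have h2 : orderOf (⟨g * x.1 * g⁻¹, hKn.conj_mem x.1 x.2 g⟩ : K) = orderOf x := by
          rw [← Subgroup.orderOf_coe, ← Subgroup.orderOf_coe x]
          show orderOf (g * x.1 * g⁻¹) = orderOf x.1
          have := orderOf_injective (MulAut.conj g).toMonoidHom (MulAut.conj g).injective x.1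
          exact this
        rwa [h2]
      · rw [Subgroup.card_map_of_injective (Subgroup.subtype_injective K)]
        exact hNp
      · rw [Subgroup.index_map_subtype, hk, hj, pow_add, mul_comm]

end Frobenius

end Pool.Agent.Lib_MP_4776c2
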