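import Pool.Agent.Lib_MP_4776c2.Odd
import Pool.Agent.Lib_MP_4776c2.Frob

set_option autoImplicit false

namespace Pool.Agent.Lib_MP_4776c2

universe u v

open Module

section Main

variable {K : Type v} [Field K] {S : Type u} [NonAssocRing S] [Module K S]
  [IsScalarTower K S S] [SMulCommClass K S S] [Finite S]

omit [IsScalarTower K S S] [SMulCommClass K S S] in
theorem finite_lequiv : Finite (S ≃ₗ[K] S) :=
  Finite.of_injective (fun f : S ≃ₗ[K] S => (f : S → S)) (fun f g h => LinearEquiv.ext (fun x => congrFun h x))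

theorem finite_LG : Finite (LG K S) := by
  have := finite_lequiv (K := K) (S := S)
  infer_instance

variable [NoZeroDivisors S]

/-- The case where the dimension is twice an odd number. -/
theorem two_elements_commute (h2 : (2 : K) ≠ 0) (i : K) (hi : i * i = -1) (m' : ℕ)
    (hm : finrank K S = 2 * m') (hodd : Odd m') (n : ℕ) :
    ∀ R : Subgroup (LG K S), Nat.card R = n → IsPGroup 2 R →
      ∀ y ∈ Subgroup.normalizer (R : Set (LG K S)), Odd (orderOf y) → ∀ x ∈ R, y * x = x * y := by
  have hfin : Finite (LG K S) := finite_LG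
  have hnt : Nontrivial S := by
    apply (finrank_pos_iff (R := K) (M := S)).1
    rw [hm]; exact Nat.mul_pos two_pos hodd.pos
  obtain ⟨x0, hx0⟩ := exists_ne (0 : S)
  induction n using Nat.strong_induction_on with
  | _ n ih =>
    intro R hRn hR y hy hyo
    by_contra hne
    have hgen := minimal_step y hyo R hR hy (by
      intro R1 hR1 hy1
      refine ih (Nat.card R1) ?_ R1 rfl ?_ y hy1 hyo
      · rw [← hRn]
        apply lt_of_le_of_ne (Subgroup.card_le_of_le hR1.le)
        intro heq
        exact hR1.ne (Subgroup.eq_of_le_of_card_ge hR1.le heq.ge)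
      · exact hR.to_le hR1.le) hne
    have hnotle : ¬ R ≤ Scg K S := by
      intro hle
      exact hne (fun x hx => (isSc_central x (hle hx) y).symm)
    obtain ⟨z, hzR, hzS, hzz, hzc⟩ := exists_central_involution R (Scg K S)
      (fun s hs g => isSc_central s hs g) hR hnotle
    have hcen : ∀ s : LG K S, IsSc s → ∀ g : LG K S, s * g = g * s := fun s hs g => isSc_central s hs g
    have hdU : dU z = 1 := triv_of_invariant R y hy hgen dU dU_one (fun g _ h _ => dU_mul g h)
      (fun g _ => dU_conj y g) z hzR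
    have hdV : dV z = 1 := triv_of_invariant R y hy hgen dV dV_one (fun g _ h _ => dV_mul g h)
      (fun g _ => dV_conj y g) z hzR
    obtain ⟨a, b, ha0, hb0, ha, hb, -⟩ := (mem_Scg (z * z)).1 hzz
    have hda : (a ^ m') ^ 2 = 1 := by
      have h1 : dU (z * z) = a ^ finrank K S := det_scalar _ a ha
      rw [dU_mul, hdU, one_mul, hm] at h1
      rw [← pow_mul, mul_comm m' 2, ← h1]
    have hdb : (b ^ m') ^ 2 = 1 := by
      have h1 : dV (z * z) = b ^ finrank K S := det_scalar _ b hb
      rw [dV_mul, hdV, one_mul, hm] at h1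
      rw [← pow_mul, mul_comm m' 2, ← h1]
    obtain ⟨l, hl0, hl⟩ := sq_root i a hi ha0 m' hodd hda
    obtain ⟨μ, hμ0, hμ⟩ := sq_root i b hi hb0 m' hodd hdb
    set s0 : LG K S := scal K S l μ hl0 hμ0 with hs0
    have hs0Sc : IsSc s0 := isSc_of s0 l μ hl0 hμ0 (fun _ => rfl) (fun _ => rfl)
    have hs0i : IsSc s0⁻¹ := (Scg K S).inv_mem hs0Sc
    have hs0sq : s0 * s0 = z * z := by
      obtain ⟨a', b', -, -, ha', hb', hab'⟩ := (mem_Scg (z * z)).1 hzz
      have haa : a' = a := by
        have h1 := (ha' x0).symm.trans (ha x0)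
        exact smul_left_injective K hx0 h1
      have hbb : b' = b := by
        have h1 := (hb' x0).symm.trans (hb x0)
        exact smul_left_injective K hx0 h1
      apply LG_ext
      · intro x
        rw [ha]
        show l • (l • x) = _
        rw [smul_smul, hl]
      · intro x
        rw [hb]
        show μ • (μ • x) = _
        rw [smul_smul, hμ]
      · intro x
        rw [hab']
        show (l * μ) • ((l * μ) • x) = _
        rw [smul_smul, haa, hbb, ← hl, ← hμ]
        congr 1; ring
    set z' : LG K S := s0⁻¹ * z with hz'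
    have hzz' : z = s0 * z' := by rw [hz']; group
    have hsq : ∀ q : LG K S, q * q = z * z → (s0⁻¹ * q) * (s0⁻¹ * q) = 1 := by
      intro q hq
      calc (s0⁻¹ * q) * (s0⁻¹ * q) = s0⁻¹ * (q * s0⁻¹) * q := by group
        _ = s0⁻¹ * (s0⁻¹ * q) * q := by rw [hcen _ hs0i q]
        _ = s0⁻¹ * s0⁻¹ * (q * q) := by group
        _ = s0⁻¹ * s0⁻¹ * (s0 * s0) := by rw [hq, ← hs0sq]
        _ = 1 := by group
    have hz'sq : z' * z' = 1 := hsq z rfl
    have hz'ns : ¬ IsSc z' := by
      intro h
      apply hzS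
      rw [hzz']
      exact (Scg K S).mul_mem hs0Sc h
    by_cases hA : y * z * y⁻¹ * z⁻¹ ∈ Scg K S
    · -- case A
      set c := y * z * y⁻¹ * z⁻¹ with hc
      have hcS : IsSc c := hA
      have hyz1 : y * z * y⁻¹ = c * z := by rw [hc]; group
      have hc2 : c * c = 1 := by
        have h1 : y * (z * z) * y⁻¹ = z * z := by
          rw [← hcen (z * z) hzz y]; group
        have h3 : y * (z * z) * y⁻¹ = c * c * (z * z) := by
          calc y * (z * z) * y⁻¹ = (y * z * y⁻¹) * (y * z * y⁻¹) := by group
            _ = c * z * (c * z) := by rw [hyz1]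
            _ = c * (z * c) * z := by group
            _ = c * (c * z) * z := by rw [hcen c hcS z]
            _ = c * c * (z * z) := by group
        rw [h1] at h3
        have h4 : 1 * (z * z) = c * c * (z * z) := by rw [one_mul]; exact h3
        exact (mul_right_cancel h4).symm
      have hpow : ∀ k : ℕ, y ^ k * z * (y ^ k)⁻¹ = c ^ k * z := by
        intro k
        induction k with
        | zero => simp
        | succ k ihk =>
          have hck : y * c ^ k = c ^ k * y :=
            ((Commute.pow_right (show Commute y c from (hcen c hcS y).symm) k)).eq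
          calc y ^ (k + 1) * z * (y ^ (k + 1))⁻¹ = y * (y ^ k * z * (y ^ k)⁻¹) * y⁻¹ := by
                rw [pow_succ']; group
            _ = y * c ^ k * z * y⁻¹ := by rw [ihk]; group
            _ = c ^ k * (y * z * y⁻¹) := by rw [hck]; group
            _ = c ^ (k + 1) * z := by rw [hyz1, pow_succ]; group
      have hc1 : c = 1 := by
        have h1 := hpow (orderOf y)
        rw [pow_orderOf_eq_one, inv_one, mul_one, one_mul] at h1
        obtain ⟨j, hj⟩ := hyo
        rw [hj, pow_succ, pow_mul, sq, hc2, one_pow, one_mul] at h1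
        exact (mul_right_cancel (h1.symm.trans (one_mul z).symm))
      have hyz : y * z = z * y := by
        rw [hc1, one_mul] at hyz1
        calc y * z = y * z * y⁻¹ * y := by group
          _ = z * y := by rw [hyz1]
      have hφ := triv_of_invariant R y hy hgen (fun g => z * g * z⁻¹ * g⁻¹) (by group)
        (by
          intro g hg h hh
          have h1 : IsSc (z * h * z⁻¹ * h⁻¹) := hzc h hh
          show z * (g * h) * z⁻¹ * (g * h)⁻¹ = (z * g * z⁻¹ * g⁻¹) * (z * h * z⁻¹ * h⁻¹)
          calc z * (g * h) * z⁻¹ * (g * h)⁻¹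
              = (z * g * z⁻¹) * (z * h * z⁻¹ * h⁻¹) * g⁻¹ := by group
            _ = (z * g * z⁻¹) * ((z * h * z⁻¹ * h⁻¹) * g⁻¹) := by group
            _ = (z * g * z⁻¹) * (g⁻¹ * (z * h * z⁻¹ * h⁻¹)) := by rw [hcen _ h1 g⁻¹]
            _ = _ := by group)
        (by
          intro g hg
          have h1 : IsSc (z * g * z⁻¹ * g⁻¹) := hzc g hg
          show z * (y * g * y⁻¹) * z⁻¹ * (y * g * y⁻¹)⁻¹ = z * g * z⁻¹ * g⁻¹
          have hyz' : y⁻¹ * z⁻¹ = z⁻¹ * y⁻¹ := by
            rw [← mul_inv_rev, ← mul_inv_rev, hyz]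
          calc z * (y * g * y⁻¹) * z⁻¹ * (y * g * y⁻¹)⁻¹
              = (z * y) * g * (y⁻¹ * z⁻¹) * y * g⁻¹ * y⁻¹ := by group
            _ = (y * z) * g * (z⁻¹ * y⁻¹) * y * g⁻¹ * y⁻¹ := by rw [hyz', hyz]
            _ = y * (z * g * z⁻¹ * g⁻¹) * y⁻¹ := by group
            _ = (z * g * z⁻¹ * g⁻¹) * y * y⁻¹ := by rw [hcen _ h1 y]
            _ = _ := by group)
      have hRz : ∀ g ∈ R, g * z = z * g := by
        intro g hg
        have h1 : z * g * z⁻¹ * g⁻¹ = 1 := hφ g hg
        calc g * z = 1 * g * z := by group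
          _ = (z * g * z⁻¹ * g⁻¹) * g * z := by rw [h1]
          _ = z * g := by group
      exact caseA h2 m' hm hodd R y hy hgen z hzR hyz hRz s0 l hs0Sc (fun _ => rfl) z' hzz' hz'sq hz'ns
    · -- case B
      set z1 : LG K S := y * z * y⁻¹ with hz1
      have hz1R : z1 ∈ R := (Subgroup.mem_normalizer_iff.1 hy z).1 hzR
      have hz1sq : z1 * z1 = z * z := by
        calc z1 * z1 = y * (z * z) * y⁻¹ := by rw [hz1]; group
          _ = (z * z) * y * y⁻¹ := by rw [hcen (z * z) hzz y]
          _ = z * z := by group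
      set z1' : LG K S := s0⁻¹ * z1 with hz1'
      have hz1'sq : z1' * z1' = 1 := hsq z1 hz1sq
      have hz1'ns : ¬ IsSc z1' := by
        intro h
        apply hzS
        have h1 : IsSc z1 := by
          have : z1 = s0 * z1' := by rw [hz1']; group
          rw [this]
          exact (Scg K S).mul_mem hs0Sc h
        have h3 : z = z1 := by
          calc z = y⁻¹ * (z1 * y) := by rw [hz1]; group
            _ = y⁻¹ * (y * z1) := by rw [hcen z1 h1 y]
            _ = z1 := by group
        rw [h3]; exact h1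
      set w : LG K S := z' * z1' with hw
      set c : LG K S := z * z1 * z⁻¹ * z1⁻¹ with hc
      have hcS : IsSc c := hzc z1 hz1R
      have hcc : z' * z1' = c * (z1' * z') := by
        rw [hz', hz1', hc]
        have e1 : z * s0⁻¹ = s0⁻¹ * z := (hcen _ hs0i z).symm
        have e2 : z1 * s0⁻¹ = s0⁻¹ * z1 := (hcen _ hs0i z1).symm
        calc s0⁻¹ * z * (s0⁻¹ * z1) = s0⁻¹ * (z * s0⁻¹) * z1 := by group
          _ = s0⁻¹ * (s0⁻¹ * z) * z1 := by rw [e1]
          _ = s0⁻¹ * s0⁻¹ * (z * z1 * z⁻¹ * z1⁻¹) * (z1 * z) := by group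
          _ = (z * z1 * z⁻¹ * z1⁻¹) * (s0⁻¹ * s0⁻¹) * (z1 * z) := by
              rw [hcen _ hcS (s0⁻¹ * s0⁻¹)]
          _ = (z * z1 * z⁻¹ * z1⁻¹) * (s0⁻¹ * (s0⁻¹ * z1) * z) := by group
          _ = (z * z1 * z⁻¹ * z1⁻¹) * (s0⁻¹ * (z1 * s0⁻¹) * z) := by rw [e2]
          _ = _ := by group
      have hw2 : w * w = c := by
        calc w * w = (z' * z1') * (z' * z1') := rfl
          _ = c * (z1' * z') * (z' * z1') := by rw [← hcc]
          _ = c * (z1' * (z' * z') * z1') := by group
          _ = c := by rw [hz'sq, mul_one, hz1'sq, mul_one]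
      have hc2 : c * c = 1 := by
        -- conjugation by z' inverts w
        have h1 : z' * w * z' = c⁻¹ * w := by
          have h3 : c⁻¹ * (z' * z1') = z1' * z' := by rw [hcc]; group
          calc z' * w * z' = (z' * z') * (z1' * z') := by rw [hw]; group
            _ = z1' * z' := by rw [hz'sq, one_mul]
            _ = c⁻¹ * w := by rw [← h3]
        have hci : IsSc c⁻¹ := (Scg K S).inv_mem hcS
        have h3 : w = c⁻¹ * (c⁻¹ * w) := by
          calc w = (z' * z') * w * (z' * z') := by rw [hz'sq]; group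
            _ = z' * (z' * w * z') * z' := by group
            _ = z' * c⁻¹ * w * z' := by rw [h1]; group
            _ = c⁻¹ * (z' * w * z') := by rw [← hcen _ hci z']; group
            _ = c⁻¹ * (c⁻¹ * w) := by rw [h1]
        have h4 : 1 * w = (c⁻¹ * c⁻¹) * w := by rw [one_mul, mul_assoc]; exact h3
        have h5 : (1 : LG K S) = c⁻¹ * c⁻¹ := mul_right_cancel h4
        calc c * c = c * 1 * c := by group
          _ = c * (c⁻¹ * c⁻¹) * c := by rw [← h5]
          _ = 1 := by group
      have hwns : ¬ IsSc w := by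
        intro h
        apply hA
        show IsSc (y * z * y⁻¹ * z⁻¹)
        have h1 : w = z⁻¹ * z1 := by
          have h3 : z' = z'⁻¹ := by
            calc z' = z' * z' * z'⁻¹ := by group
              _ = z'⁻¹ := by rw [hz'sq, one_mul]
          calc w = z'⁻¹ * z1' := by rw [hw, ← h3]
            _ = z⁻¹ * z1 := by rw [hz', hz1']; group
        have h3 : y * z * y⁻¹ * z⁻¹ = w := by
          calc y * z * y⁻¹ * z⁻¹ = z * (z⁻¹ * z1) * z⁻¹ := by rw [hz1]; group
            _ = z * w * z⁻¹ := by rw [h1]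
            _ = w * z * z⁻¹ := by rw [hcen w h z]
            _ = w := by group
        rw [h3]; exact h
      obtain ⟨α, β, hα0, hβ0, hα, hβ, hαβ⟩ := hcS
      have hα2 : α * α = 1 := by
        have h1 : (c * c).1.1 x0 = x0 := by rw [hc2]; rfl
        have h3 : (c * c).1.1 x0 = (α * α) • x0 := by
          show c.1.1 (c.1.1 x0) = _
          rw [hα, hα, smul_smul]
        rw [h3] at h1
        exact smul_left_injective K hx0 (h1.trans (one_smul K x0).symm)
      have hβ2 : β * β = 1 := by
        have h1 : (c * c).1.2.1 x0 = x0 := by rw [hc2]; rfl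
        have h3 : (c * c).1.2.1 x0 = (β * β) • x0 := by
          show c.1.2.1 (c.1.2.1 x0) = _
          rw [hβ, hβ, smul_smul]
        rw [h3] at h1
        exact smul_left_injective K hx0 (h1.trans (one_smul K x0).symm)
      have hroot : ∀ α : K, α * α = 1 → ∃ r : K, r ≠ 0 ∧ r * r = α := by
        intro α h
        rcases mul_self_eq_one_iff.1 h with h1 | h1
        · exact ⟨1, one_ne_zero, by rw [h1, one_mul]⟩
        · refine ⟨i, ?_, by rw [hi, h1]⟩
          rintro rfl
          rw [mul_zero] at hi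
          exact (neg_ne_zero.2 (one_ne_zero (α := K))) hi.symm
      obtain ⟨l1, hl10, hl1⟩ := hroot α hα2
      obtain ⟨μ1, hμ10, hμ1⟩ := hroot β hβ2
      set s1 : LG K S := scal K S l1 μ1 hl10 hμ10 with hs1
      have hs1Sc : IsSc s1 := isSc_of s1 l1 μ1 hl10 hμ10 (fun _ => rfl) (fun _ => rfl)
      have hs1i : IsSc s1⁻¹ := (Scg K S).inv_mem hs1Sc
      have hs1sq : s1 * s1 = c := by
        apply LG_ext
        · intro x
          rw [hα]
          show l1 • (l1 • x) = _
          rw [smul_smul, hl1]
        · intro x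
          rw [hβ]
          show μ1 • (μ1 • x) = _
          rw [smul_smul, hμ1]
        · intro x
          rw [hαβ]
          show (l1 * μ1) • ((l1 * μ1) • x) = _
          rw [smul_smul, ← hl1, ← hμ1]
          congr 1; ring
      set w' : LG K S := s1⁻¹ * w with hw'
      have hw'w : w = s1 * w' := by rw [hw']; group
      have hw'sq : w' * w' = 1 := by
        calc w' * w' = s1⁻¹ * (w * s1⁻¹) * w := by rw [hw']; group
          _ = s1⁻¹ * (s1⁻¹ * w) * w := by rw [hcen _ hs1i w]
          _ = s1⁻¹ * s1⁻¹ * (w * w) := by group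
          _ = s1⁻¹ * s1⁻¹ * (s1 * s1) := by rw [hw2, hs1sq]
          _ = 1 := by group
      have hw'ns : ¬ IsSc w' := by
        intro h
        apply hwns
        rw [hw'w]
        exact (Scg K S).mul_mem hs1Sc h
      obtain ⟨p1, p2, p3⟩ := inv_dets h2 m' hm hodd z' hz'sq hz'ns
      obtain ⟨q1, q2, q3⟩ := inv_dets h2 m' hm hodd z1' hz1'sq hz1'ns
      obtain ⟨r1, r2, r3⟩ := inv_dets h2 m' hm hodd w' hw'sq hw'ns
      have f1 : dU s1 = α ^ m' := by
        have : dU s1 = l1 ^ finrank K S := det_scalar _ l1 (fun _ => rfl)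
        rw [this, hm, pow_mul, sq, hl1]
      have f2 : dV s1 = β ^ m' := by
        have : dV s1 = μ1 ^ finrank K S := det_scalar _ μ1 (fun _ => rfl)
        rw [this, hm, pow_mul, sq, hμ1]
      have f3 : dW s1 = (α * β) ^ m' := by
        have : dW s1 = (l1 * μ1) ^ finrank K S := det_scalar _ (l1 * μ1) (fun _ => rfl)
        rw [this, hm, pow_mul, sq, mul_mul_mul_comm, hl1, hμ1]
      have g1 : α ^ m' = -1 := by
        have h1 : dU w = 1 := by rw [hw, dU_mul, p1, q1]; ring
        rw [hw'w, dU_mul, f1, r1] at h1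
        linear_combination -h1
      have g2 : β ^ m' = -1 := by
        have h1 : dV w = 1 := by rw [hw, dV_mul, p2, q2]; ring
        rw [hw'w, dV_mul, f2, r2] at h1
        linear_combination -h1
      have g3 : (α * β) ^ m' = -1 := by
        have h1 : dW w = 1 := by rw [hw, dW_mul, p3, q3]; ring
        rw [hw'w, dW_mul, f3, r3] at h1
        linear_combination -h1
      rw [mul_pow, g1, g2] at g3
      apply h2
      linear_combination g3

/-- The hypothesis of Frobenius' theorem for the group of `K`-linear autotopisms. -/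
theorem frobHyp_LG [Finite K] [Nontrivial S] (h4 : Nat.card K % 4 = 1) (hm : ¬ 4 ∣ finrank K S) :
    FrobHyp (LG K S) 2 := by
  have hfin : Finite (LG K S) := finite_LG
  have := Fintype.ofFinite K
  have h2p : Fact (Nat.Prime 2) := ⟨Nat.prime_two⟩
  have hcard : Fintype.card K % 4 = 1 := by rw [← Nat.card_eq_fintype_card]; exact h4
  have h2 : (2 : K) ≠ 0 := by
    intro h
    have h3 : ringChar K = 2 := by
      have h5 : ringChar K ∣ 2 := by
        rw [← ringChar.spec]; exact_mod_cast h
      rcases (Nat.dvd_prime Nat.prime_two).1 h5 with h6 | h6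
      · exact absurd h6 (CharP.ringChar_ne_one)
      · exact h6
    have h5 := FiniteField.even_card_of_char_two h3
    omega
  intro Q hQ y hy hyo x hx
  have hyo' : Odd (orderOf y) := Nat.coprime_two_right.1 hyo
  by_cases hev : 2 ∣ finrank K S
  · obtain ⟨m', hm'⟩ := hev
    have hodd : Odd m' := by
      rw [← Nat.not_even_iff_odd]
      rintro ⟨j, hj⟩
      apply hm
      exact ⟨j, by omega⟩
    have hsq : IsSquare (-1 : K) := by
      rw [FiniteField.isSquare_neg_one_iff]
      omega
    obtain ⟨i, hi⟩ := hsq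
    exact two_elements_commute h2 i hi.symm m' hm' hodd (Nat.card Q) Q rfl hQ y hy hyo' x hx
  · obtain ⟨k, hk⟩ := hQ ⟨x, hx⟩
    have hk' : x ^ (2 ^ k) = 1 := congrArg Subtype.val hk
    obtain ⟨a, b, ha0, hb0, ha, hb, hab⟩ := scalar_of_order 2 (by omega) hev x k hk'
    exact (isSc_central x ⟨a, b, ha0, hb0, ha, hb, hab⟩ y).symm

end Main

end Pool.Agent.Lib_MP_4776c2
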