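import Pool.Agent.Lib_MP_4776c2.Lin

set_option autoImplicit false

namespace Pool.Agent.Lib_MP_4776c2

universe u v

open Module

section DetLemma

variable {K : Type v} [Field K] {V : Type u} [AddCommGroup V] [Module K V] [FiniteDimensional K V]

/-- A map that is the scalar `a` on a subspace and the scalar `b` modulo it. -/
theorem det_two (f : V →ₗ[K] V) (W : Submodule K V) (a b : K) (hW : ∀ x ∈ W, f x = a • x)
    (hb : ∀ x, f x - b • x ∈ W) :
    LinearMap.det f = b ^ finrank K (V ⧸ W) * a ^ finrank K W := by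
  have he : W ≤ W.comap f := by
    intro x hx
    rw [Submodule.mem_comap, hW x hx]
    exact W.smul_mem a hx
  have h1 := LinearMap.det_eq_det_mul_det W f he
  have h2 : W.mapQ W f he = b • LinearMap.id := by
    apply LinearMap.ext
    intro q
    obtain ⟨x, rfl⟩ := Submodule.mkQ_surjective W q
    rw [Submodule.mkQ_apply, Submodule.mapQ_apply]
    show (Submodule.Quotient.mk (f x) : V ⧸ W) = b • (Submodule.Quotient.mk x : V ⧸ W)
    rw [← Submodule.Quotient.mk_smul, Submodule.Quotient.eq]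
    exact hb x
  have h3 : f.restrict he = a • LinearMap.id := by
    apply LinearMap.ext
    intro x
    apply Subtype.ext
    exact hW x.1 x.2
  rw [h1, h2, h3, LinearMap.det_smul, LinearMap.det_smul, LinearMap.det_id, LinearMap.det_id,
    mul_one, mul_one, mul_comm]

/-- The dimensions of the two eigenspaces of an involution. -/
theorem finrank_involution (h2 : (2 : K) ≠ 0) (f : V →ₗ[K] V) (hf : ∀ x, f (f x) = x) :
    finrank K (End.eigenspace f 1) + finrank K (End.eigenspace f (-1)) = finrank K V := by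
  have h1 := LinearMap.finrank_range_add_finrank_ker (f - (1 : K) • (LinearMap.id : V →ₗ[K] V))
  have hker : LinearMap.ker (f - (1 : K) • (LinearMap.id : V →ₗ[K] V)) = End.eigenspace f 1 := by
    ext x
    rw [LinearMap.mem_ker, End.mem_eigenspace_iff, LinearMap.sub_apply, sub_eq_zero]
    rfl
  have hrange : LinearMap.range (f - (1 : K) • (LinearMap.id : V →ₗ[K] V)) = End.eigenspace f (-1) := by
    ext x
    rw [End.mem_eigenspace_iff]
    constructor
    · rintro ⟨y, rfl⟩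
      show f (f y - (1 : K) • y) = (-1 : K) • (f y - (1 : K) • y)
      rw [map_sub, map_smul, hf, one_smul, one_smul, neg_smul, one_smul]
      abel
    · intro hx
      refine ⟨(-(2 : K)⁻¹) • x, ?_⟩
      show f ((-(2 : K)⁻¹) • x) - (1 : K) • ((-(2 : K)⁻¹) • x) = x
      rw [map_smul, hx, one_smul, smul_smul, ← sub_smul]
      have : (-(2 : K)⁻¹ * -1 - -(2 : K)⁻¹) = 1 := by
        field_simp
        ring
      rw [this, one_smul]
  rw [hker, hrange] at h1
  omega

end DetLemma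

section Inv

variable {K : Type v} [Field K] {S : Type u} [NonAssocRing S] [Module K S]
  [IsScalarTower K S S] [SMulCommClass K S S] [Finite S] [NoZeroDivisors S]

theorem eig_le_left (F G H : S →ₗ[K] S) (h : ∀ x y : S, F x * G y = H (x * y)) (a b : K)
    (hne : End.eigenspace F a ≠ ⊥) :
    finrank K (End.eigenspace G b) ≤ finrank K (End.eigenspace H (a * b)) := by
  have : FiniteDimensional K S := inferInstance
  obtain ⟨u, hu, hu0⟩ := Submodule.exists_mem_ne_zero_of_ne_bot hne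
  rw [End.mem_eigenspace_iff] at hu
  have hmap : ∀ x ∈ End.eigenspace G b, LinearMap.mulLeft K u x ∈ End.eigenspace H (a * b) := by
    intro x hx
    rw [End.mem_eigenspace_iff] at hx ⊢
    show H (u * x) = (a * b) • (u * x)
    rw [← h, hu, hx, smul_mul_smul_comm]
  apply LinearMap.finrank_le_finrank_of_injective
    (f := (LinearMap.mulLeft K u).restrict hmap)
  intro x y hxy
  have h1 : u * x.1 = u * y.1 := congrArg Subtype.val hxy
  have h2 : u * (x.1 - y.1) = 0 := by rw [mul_sub, h1, sub_self]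
  exact Subtype.ext (sub_eq_zero.1 ((mul_eq_zero.1 h2).resolve_left hu0))

theorem eig_le_right (F G H : S →ₗ[K] S) (h : ∀ x y : S, F x * G y = H (x * y)) (a b : K)
    (hne : End.eigenspace G b ≠ ⊥) :
    finrank K (End.eigenspace F a) ≤ finrank K (End.eigenspace H (a * b)) := by
  have : FiniteDimensional K S := inferInstance
  obtain ⟨u, hu, hu0⟩ := Submodule.exists_mem_ne_zero_of_ne_bot hne
  rw [End.mem_eigenspace_iff] at hu
  have hmap : ∀ x ∈ End.eigenspace F a, LinearMap.mulRight K u x ∈ End.eigenspace H (a * b) := by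
    intro x hx
    rw [End.mem_eigenspace_iff] at hx ⊢
    show H (x * u) = (a * b) • (x * u)
    rw [← h, hu, hx, smul_mul_smul_comm]
  apply LinearMap.finrank_le_finrank_of_injective
    (f := (LinearMap.mulRight K u).restrict hmap)
  intro x y hxy
  have h1 : x.1 * u = y.1 * u := congrArg Subtype.val hxy
  have h2 : (x.1 - y.1) * u = 0 := by rw [sub_mul, h1, sub_self]
  exact Subtype.ext (sub_eq_zero.1 ((mul_eq_zero.1 h2).resolve_right hu0))

/-- The scalar autotopisms. -/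
def IsSc (t : LG K S) : Prop :=
  ∃ a b : K, a ≠ 0 ∧ b ≠ 0 ∧ (∀ x, t.1.1 x = a • x) ∧ (∀ x, t.1.2.1 x = b • x) ∧
      ∀ x, t.1.2.2 x = (a * b) • x

omit [Finite S] [NoZeroDivisors S] in
theorem isSc_of (t : LG K S) (a b : K) (ha : a ≠ 0) (hb : b ≠ 0) (h1 : ∀ x, t.1.1 x = a • x)
    (h2 : ∀ x, t.1.2.1 x = b • x) : IsSc t := by
  refine ⟨a, b, ha, hb, h1, h2, fun x => ?_⟩
  have h3 := LG_apply t 1 x
  rw [one_mul, h1, h2, smul_mul_smul_comm, one_mul] at h3
  exact h3.symm

/-- Nonscalar involutions have eigenspaces of half the dimension. -/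
theorem inv_dims (h2 : (2 : K) ≠ 0) (m' : ℕ) (hm : finrank K S = 2 * m') (hm' : 0 < m')
    (t : LG K S) (ht : t * t = 1) (hns : ¬ IsSc t) :
    (finrank K (End.eigenspace (t.1.1 : S →ₗ[K] S) 1) = m' ∧
      finrank K (End.eigenspace (t.1.1 : S →ₗ[K] S) (-1)) = m') ∧
    (finrank K (End.eigenspace (t.1.2.1 : S →ₗ[K] S) 1) = m' ∧
      finrank K (End.eigenspace (t.1.2.1 : S →ₗ[K] S) (-1)) = m') ∧
    (finrank K (End.eigenspace (t.1.2.2 : S →ₗ[K] S) 1) = m' ∧
      finrank K (End.eigenspace (t.1.2.2 : S →ₗ[K] S) (-1)) = m') := by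
  have : FiniteDimensional K S := inferInstance
  have e1 : ∀ x, (t.1.1 : S →ₗ[K] S) ((t.1.1 : S →ₗ[K] S) x) = x := fun x =>
    LinearEquiv.congr_fun (congrArg (fun s : LG K S => s.1.1) ht) x
  have e2 : ∀ x, (t.1.2.1 : S →ₗ[K] S) ((t.1.2.1 : S →ₗ[K] S) x) = x := fun x =>
    LinearEquiv.congr_fun (congrArg (fun s : LG K S => s.1.2.1) ht) x
  have e3 : ∀ x, (t.1.2.2 : S →ₗ[K] S) ((t.1.2.2 : S →ₗ[K] S) x) = x := fun x =>
    LinearEquiv.congr_fun (congrArg (fun s : LG K S => s.1.2.2) ht) x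
  have d1 := finrank_involution h2 _ e1
  have d2 := finrank_involution h2 _ e2
  have d3 := finrank_involution h2 _ e3
  rw [hm] at d1 d2 d3
  have hmul : ∀ x y : S, (t.1.1 : S →ₗ[K] S) x * (t.1.2.1 : S →ₗ[K] S) y
      = (t.1.2.2 : S →ₗ[K] S) (x * y) := t.2
  -- the inequalities
  have l1 := fun b (h : End.eigenspace (t.1.1 : S →ₗ[K] S) 1 ≠ ⊥) =>
    eig_le_left _ _ _ hmul 1 b h
  have l2 := fun b (h : End.eigenspace (t.1.1 : S →ₗ[K] S) (-1) ≠ ⊥) =>
    eig_le_left _ _ _ hmul (-1) b h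
  have r1 := fun a (h : End.eigenspace (t.1.2.1 : S →ₗ[K] S) 1 ≠ ⊥) =>
    eig_le_right _ _ _ hmul a 1 h
  have r2 := fun a (h : End.eigenspace (t.1.2.1 : S →ₗ[K] S) (-1) ≠ ⊥) =>
    eig_le_right _ _ _ hmul a (-1) h
  have bot_of : ∀ W : Submodule K S, W = ⊥ → finrank K W = 0 := by
    intro W hW; rw [hW]; exact finrank_bot K S
  have ne_of : ∀ W : Submodule K S, 0 < finrank K W → W ≠ ⊥ := by
    intro W hW h
    rw [bot_of W h] at hW
    exact lt_irrefl 0 hW
  -- scalar on a component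
  have sc : ∀ (f : S ≃ₗ[K] S) (a : K), finrank K (End.eigenspace (f : S →ₗ[K] S) a) = 2 * m' →
      ∀ x, f x = a • x := by
    intro f a hf x
    have h1 : End.eigenspace (f : S →ₗ[K] S) a = ⊤ := by
      apply Submodule.eq_top_of_finrank_eq
      rw [hf, hm]
    have h3 : x ∈ End.eigenspace (f : S →ₗ[K] S) a := by rw [h1]; exact Submodule.mem_top
    exact End.mem_eigenspace_iff.1 h3
  have hn1 : (-1 : K) ≠ 0 := neg_ne_zero.2 one_ne_zero
  by_cases hU : End.eigenspace (t.1.1 : S →ₗ[K] S) 1 ≠ ⊥ ∧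
      End.eigenspace (t.1.1 : S →ₗ[K] S) (-1) ≠ ⊥
  · have a1 := l1 1 hU.1
    have a2 := l1 (-1) hU.1
    have a3 := l2 1 hU.2
    have a4 := l2 (-1) hU.2
    rw [one_mul] at a1 a2
    rw [mul_one] at a3
    rw [neg_mul_neg, one_mul] at a4
    have hV1 : finrank K (End.eigenspace (t.1.2.1 : S →ₗ[K] S) 1) = m' := by omega
    have hV2 : finrank K (End.eigenspace (t.1.2.1 : S →ₗ[K] S) (-1)) = m' := by omega
    have b1 := r1 1 (ne_of _ (by omega))
    have b2 := r1 (-1) (ne_of _ (by omega))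
    rw [mul_one] at b1 b2
    refine ⟨⟨?_, ?_⟩, ⟨hV1, hV2⟩, ⟨?_, ?_⟩⟩ <;> omega
  · exfalso
    -- V must be scalar as well
    by_cases hV : End.eigenspace (t.1.2.1 : S →ₗ[K] S) 1 ≠ ⊥ ∧
        End.eigenspace (t.1.2.1 : S →ₗ[K] S) (-1) ≠ ⊥
    · apply hU
      have b1 := r1 1 hV.1
      have b2 := r1 (-1) hV.1
      have b3 := r2 1 hV.2
      have b4 := r2 (-1) hV.2
      rw [mul_one] at b1 b2
      rw [one_mul] at b3
      rw [neg_mul_neg, one_mul] at b4
      exact ⟨ne_of _ (by omega), ne_of _ (by omega)⟩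
    · apply hns
      have hU' : ∃ a : K, a ≠ 0 ∧ ∀ x, t.1.1 x = a • x := by
        by_cases h : End.eigenspace (t.1.1 : S →ₗ[K] S) 1 = ⊥
        · refine ⟨-1, hn1, sc _ _ ?_⟩
          have := bot_of _ h
          omega
        · have h' : End.eigenspace (t.1.1 : S →ₗ[K] S) (-1) = ⊥ := by
            by_contra h''
            exact hU ⟨h, h''⟩
          refine ⟨1, one_ne_zero, sc _ _ ?_⟩
          have := bot_of _ h'
          omega
      have hV' : ∃ a : K, a ≠ 0 ∧ ∀ x, t.1.2.1 x = a • x := by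
        by_cases h : End.eigenspace (t.1.2.1 : S →ₗ[K] S) 1 = ⊥
        · refine ⟨-1, hn1, sc _ _ ?_⟩
          have := bot_of _ h
          omega
        · have h' : End.eigenspace (t.1.2.1 : S →ₗ[K] S) (-1) = ⊥ := by
            by_contra h''
            exact hV ⟨h, h''⟩
          refine ⟨1, one_ne_zero, sc _ _ ?_⟩
          have := bot_of _ h'
          omega
      obtain ⟨a, ha0, ha⟩ := hU'
      obtain ⟨b, hb0, hb⟩ := hV'
      exact isSc_of t a b ha0 hb0 ha hb

/-- The determinant of a linear combination of the two projections of an involution. -/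
theorem det_comb {V : Type*} [AddCommGroup V] [Module K V] [FiniteDimensional K V]
    (h2 : (2 : K) ≠ 0) (m' : ℕ) (hm : finrank K V = 2 * m') (f : V →ₗ[K] V)
    (hf : ∀ x, f (f x) = x) (h1 : finrank K (End.eigenspace f 1) = m') (g : V →ₗ[K] V) (a b : K)
    (hg : ∀ x, g x = ((2 : K)⁻¹ * (a + b)) • x + ((2 : K)⁻¹ * (a - b)) • f x) :
    LinearMap.det g = b ^ m' * a ^ m' := by
  have hq : finrank K (V ⧸ End.eigenspace f 1) = m' := by
    have := Submodule.finrank_quotient_add_finrank (End.eigenspace f 1)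
    omega
  have h3 := det_two g (End.eigenspace f 1) a b (by
    intro x hx
    rw [End.mem_eigenspace_iff, one_smul] at hx
    rw [hg, hx, ← add_smul]
    congr 1
    field_simp
    ring) (by
    intro x
    rw [End.mem_eigenspace_iff, one_smul]
    have h4 : g x - b • x = ((2 : K)⁻¹ * (a - b)) • (x + f x) := by
      rw [hg, smul_add]
      have : ((2 : K)⁻¹ * (a + b)) • x = ((2 : K)⁻¹ * (a - b)) • x + b • x := by
        rw [← add_smul]
        congr 1
        field_simp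
        ring
      rw [this]; abel
    rw [h4, map_smul, map_add, hf, add_comm (f x)])
  rw [h3, hq, h1]

omit [Field K] [NonAssocRing S] [Module K S] [IsScalarTower K S S] [SMulCommClass K S S]
  [Finite S] [NoZeroDivisors S] in
/-- Functions that are multiplicative on `Q = [Q, y]` and `y`-invariant are trivial on `Q`. -/
theorem triv_of_invariant {G M : Type*} [Group G] [Monoid M] (Q : Subgroup G) (y : G)
    (hy : y ∈ Subgroup.normalizer (Q : Set G))
    (hgen : Q = Subgroup.closure {z | ∃ g ∈ Q, z = y * g * y⁻¹ * g⁻¹}) (φ : G → M) (h1 : φ 1 = 1)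
    (hmul : ∀ g ∈ Q, ∀ h ∈ Q, φ (g * h) = φ g * φ h)
    (hconj : ∀ g ∈ Q, φ (y * g * y⁻¹) = φ g) : ∀ g ∈ Q, φ g = 1 := by
  let K0 : Subgroup G :=
    { carrier := {g | g ∈ Q ∧ φ g = 1}
      mul_mem' := by
        rintro a b ⟨ha, ha1⟩ ⟨hb, hb1⟩
        exact ⟨Q.mul_mem ha hb, by rw [hmul a ha b hb, ha1, hb1, one_mul]⟩
      one_mem' := ⟨Q.one_mem, h1⟩
      inv_mem' := by
        rintro a ⟨ha, ha1⟩
        refine ⟨Q.inv_mem ha, ?_⟩
        have := hmul a⁻¹ (Q.inv_mem ha) a ha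
        rw [inv_mul_cancel, h1, ha1, mul_one] at this
        exact this.symm }
  have hle : Q ≤ K0 := by
    conv_lhs => rw [hgen]
    rw [Subgroup.closure_le]
    rintro z ⟨g, hg, rfl⟩
    have h3 : y * g * y⁻¹ ∈ Q := (Subgroup.mem_normalizer_iff.1 hy g).1 hg
    refine ⟨Q.mul_mem h3 (Q.inv_mem hg), ?_⟩
    rw [hmul _ h3 _ (Q.inv_mem hg), hconj g hg, ← hmul g hg _ (Q.inv_mem hg), mul_inv_cancel, h1]
  intro g hg
  exact (hle hg).2

end Inv

section Coprime

variable {G : Type*} [Group G] [Finite G]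

/-- Reduction to `Q = [Q, y]` for a `2`-group `Q` and `y` of odd order. -/
theorem minimal_step (y : G) (hyo : Odd (orderOf y)) (Q : Subgroup G) (hQ : IsPGroup 2 Q)
    (hy : y ∈ Subgroup.normalizer (Q : Set G))
    (ih : ∀ R : Subgroup G, R < Q → y ∈ Subgroup.normalizer (R : Set G) → ∀ x ∈ R, y * x = x * y)
    (hne : ¬ ∀ x ∈ Q, y * x = x * y) :
    Q = Subgroup.closure {z | ∃ g ∈ Q, z = y * g * y⁻¹ * g⁻¹} := by
  set Q1 := Subgroup.closure {z | ∃ g ∈ Q, z = y * g * y⁻¹ * g⁻¹} with hQ1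
  have hconj : ∀ g ∈ Q, y * g * y⁻¹ ∈ Q := fun g hg => (Subgroup.mem_normalizer_iff.1 hy g).1 hg
  have hle : Q1 ≤ Q := by
    rw [hQ1, Subgroup.closure_le]
    rintro z ⟨g, hg, rfl⟩
    exact Q.mul_mem (hconj g hg) (Q.inv_mem hg)
  by_contra hne'
  have hlt : Q1 < Q := lt_of_le_of_ne hle (fun h => hne' h.symm)
  have hy1 : y ∈ Subgroup.normalizer (Q1 : Set G) := by
    have hmap : Q1.map (MulAut.conj y).toMonoidHom ≤ Q1 := by
      rw [hQ1, MonoidHom.map_closure, Subgroup.closure_le]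
      rintro _ ⟨z, ⟨g, hg, rfl⟩, rfl⟩
      apply Subgroup.subset_closure
      refine ⟨y * g * y⁻¹, hconj g hg, ?_⟩
      show y * (y * g * y⁻¹ * g⁻¹) * y⁻¹ = _
      group
    have heq : Q1.map (MulAut.conj y).toMonoidHom = Q1 := by
      apply Subgroup.eq_of_le_of_card_ge hmap
      rw [Subgroup.card_map_of_injective (MulAut.conj y).injective]
    rw [Subgroup.mem_normalizer_iff]
    intro h
    constructor
    · intro hh
      rw [← heq]
      exact ⟨h, hh, rfl⟩
    · intro hh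
      rw [← heq] at hh
      obtain ⟨w, hw, hwh⟩ := hh
      have : w = h := (MulAut.conj y).injective hwh
      rwa [this] at hw
  apply hne
  intro x hx
  have hc := ih Q1 hlt hy1 (y * x * y⁻¹ * x⁻¹) (Subgroup.subset_closure ⟨x, hx, rfl⟩)
  set c := y * x * y⁻¹ * x⁻¹ with hcdef
  have hcQ : c ∈ Q := Q.mul_mem (hconj x hx) (Q.inv_mem hx)
  have hyx : y * x * y⁻¹ = c * x := by rw [hcdef]; group
  have hpow : ∀ n : ℕ, y ^ n * x * (y ^ n)⁻¹ = c ^ n * x := by
    intro n
    induction n with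
    | zero => simp
    | succ n ihn =>
      have hcn : y * c ^ n = c ^ n * y := ((Commute.pow_right (show Commute y c from hc) n)).eq
      calc y ^ (n + 1) * x * (y ^ (n + 1))⁻¹ = y * (y ^ n * x * (y ^ n)⁻¹) * y⁻¹ := by
            rw [pow_succ']; group
        _ = y * c ^ n * x * y⁻¹ := by rw [ihn]; group
        _ = c ^ n * (y * x * y⁻¹) := by rw [hcn]; group
        _ = c ^ (n + 1) * x := by rw [hyx, pow_succ]; group
  have hcord : c ^ orderOf y = 1 := by
    have h1 := hpow (orderOf y)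
    rw [pow_orderOf_eq_one, inv_one, mul_one, one_mul] at h1
    exact mul_right_cancel (h1.symm.trans (one_mul x).symm)
  obtain ⟨k, hk⟩ := hQ ⟨c, hcQ⟩
  have hk' : c ^ (2 ^ k) = 1 := congrArg Subtype.val hk
  have h1 : orderOf c ∣ orderOf y := orderOf_dvd_of_pow_eq_one hcord
  have h2 : orderOf c ∣ 2 ^ k := orderOf_dvd_of_pow_eq_one hk'
  have h3 : orderOf c = 1 := by
    apply Nat.eq_one_of_dvd_coprimes _ h1 h2
    exact (Nat.Coprime.pow_right _ (Nat.coprime_two_right.2 hyo))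
  rw [orderOf_eq_one_iff] at h3
  rw [h3, one_mul] at hyx
  calc y * x = (y * x * y⁻¹) * y := by group
    _ = x * y := by rw [hyx]

/-- An element that is a central involution modulo a central subgroup. -/
theorem exists_central_involution (Q Z : Subgroup G) (hZ : ∀ z ∈ Z, ∀ g : G, z * g = g * z)
    (hQ : IsPGroup 2 Q) (hne : ¬ Q ≤ Z) :
    ∃ z ∈ Q, z ∉ Z ∧ z * z ∈ Z ∧ ∀ g ∈ Q, z * g * z⁻¹ * g⁻¹ ∈ Z := by
  have h2p : Fact (Nat.Prime 2) := ⟨Nat.prime_two⟩
  have hn : (Z.subgroupOf Q).Normal := by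
    constructor
    intro n hn g
    rw [Subgroup.mem_subgroupOf] at hn ⊢
    show g.1 * n.1 * g.1⁻¹ ∈ Z
    rw [← hZ _ hn g.1]
    have : n.1 * g.1 * g.1⁻¹ = n.1 := by group
    rw [this]; exact hn
  have hnt : Nontrivial (Q ⧸ Z.subgroupOf Q) := by
    rw [QuotientGroup.nontrivial_iff]
    intro h
    rw [Subgroup.subgroupOf_eq_top] at h
    exact hne h
  have hq : IsPGroup 2 (Q ⧸ Z.subgroupOf Q) := hQ.to_quotient _
  have hcen : Nontrivial (Subgroup.center (Q ⧸ Z.subgroupOf Q)) := hq.center_nontrivial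
  have hdvd : 2 ∣ Nat.card (Subgroup.center (Q ⧸ Z.subgroupOf Q)) := by
    have hpc : IsPGroup 2 (Subgroup.center (Q ⧸ Z.subgroupOf Q)) := hq.to_subgroup _
    obtain ⟨k, hk⟩ := IsPGroup.iff_card.1 hpc
    have hk1 : 1 < Nat.card (Subgroup.center (Q ⧸ Z.subgroupOf Q)) := Finite.one_lt_card
    rw [hk] at hk1 ⊢
    rcases k with _ | k
    · simp at hk1
    · exact Dvd.intro_left (2 ^ k) rfl
  obtain ⟨w, hw⟩ := exists_prime_orderOf_dvd_card' 2 hdvd
  obtain ⟨z, hz⟩ := QuotientGroup.mk'_surjective (Z.subgroupOf Q) w.1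
  have hw1 : w ≠ 1 := by
    intro h; rw [h, orderOf_one] at hw; omega
  refine ⟨z.1, z.2, ?_, ?_, ?_⟩
  · intro hzZ
    apply hw1
    apply Subtype.ext
    rw [← hz]
    exact (QuotientGroup.eq_one_iff _).2 hzZ
  · have h1 : w ^ 2 = 1 := by rw [← hw]; exact pow_orderOf_eq_one w
    have h3 : QuotientGroup.mk' (Z.subgroupOf Q) (z * z) = 1 := by
      rw [map_mul, hz, ← sq]
      exact congrArg Subtype.val h1
    have h4 : z * z ∈ Z.subgroupOf Q := (QuotientGroup.eq_one_iff (z * z)).1 h3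
    exact Subgroup.mem_subgroupOf.1 h4
  · intro g hg
    have h1 := (Subgroup.mem_center_iff.1 w.2) (QuotientGroup.mk' (Z.subgroupOf Q) ⟨g, hg⟩)
    have h3 : QuotientGroup.mk' (Z.subgroupOf Q) (z * ⟨g, hg⟩ * z⁻¹ * ⟨g, hg⟩⁻¹) = 1 := by
      rw [map_mul, map_mul, map_mul, map_inv, map_inv, hz, ← h1]
      group
    have h4 : z * ⟨g, hg⟩ * z⁻¹ * ⟨g, hg⟩⁻¹ ∈ Z.subgroupOf Q :=
      (QuotientGroup.eq_one_iff (z * (⟨g, hg⟩ : Q) * z⁻¹ * (⟨g, hg⟩ : Q)⁻¹)).1 h3
    exact Subgroup.mem_subgroupOf.1 h4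

end Coprime

end Pool.Agent.Lib_MP_4776c2
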