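import Pool.Agent.Lib_MP_4776c2.Core

set_option autoImplicit false

namespace Pool.Agent.Lib_MP_4776c2

universe u

/-- Data of a principal isotope: `R x = x * v` and `L y = u * y` are bijective. -/
structure IsoData (S : Type u) [NonAssocRing S] where
  u : S
  v : S
  R : S ≃+ S
  L : S ≃+ S
  hR : ∀ x, R x = x * v
  hL : ∀ y, L y = u * y

/-- The principal isotope, on the same set. -/
def IsoData.T {S : Type u} [NonAssocRing S] (_D : IsoData S) : Type u := S

section

variable {S : Type u} [NonAssocRing S] (D : IsoData S)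

instance instAddT : AddCommGroup D.T := inferInstanceAs (AddCommGroup S)

/-- the additive group identification -/
def IsoData.toS : D.T ≃+ S := AddEquiv.refl S

/-- The multiplication of the isotope. -/
def IsoData.mulT (s t : D.T) : D.T :=
  D.toS.symm ((D.R.symm (D.toS s)) * (D.L.symm (D.toS t)))

instance instRingT : NonAssocRing D.T where
  __ := instAddT D
  mul := D.mulT
  left_distrib a b c := by
    show D.mulT a (b + c) = D.mulT a b + D.mulT a c
    simp only [IsoData.mulT, map_add, mul_add]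
  right_distrib a b c := by
    show D.mulT (a + b) c = D.mulT a c + D.mulT b c
    simp only [IsoData.mulT, map_add, add_mul]
  zero_mul a := by
    show D.mulT 0 a = 0
    simp only [IsoData.mulT, map_zero, zero_mul]
  mul_zero a := by
    show D.mulT a 0 = 0
    simp only [IsoData.mulT, map_zero, mul_zero]
  one := D.toS.symm (D.u * D.v)
  one_mul a := by
    show D.mulT (D.toS.symm (D.u * D.v)) a = a
    simp only [IsoData.mulT]
    rw [AddEquiv.apply_symm_apply, ← D.hR, AddEquiv.symm_apply_apply, ← D.hL,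
      AddEquiv.apply_symm_apply, AddEquiv.symm_apply_apply]
  mul_one a := by
    show D.mulT a (D.toS.symm (D.u * D.v)) = a
    simp only [IsoData.mulT]
    rw [AddEquiv.apply_symm_apply, ← D.hL, AddEquiv.symm_apply_apply, ← D.hR,
      AddEquiv.apply_symm_apply, AddEquiv.symm_apply_apply]

theorem toS_mul (s t : D.T) : D.toS (s * t) = (D.R.symm (D.toS s)) * (D.L.symm (D.toS t)) := rfl

theorem mul_toS (x y : S) : D.toS (D.toS.symm (D.R x) * D.toS.symm (D.L y)) = x * y := by
  rw [toS_mul, AddEquiv.apply_symm_apply, AddEquiv.apply_symm_apply, AddEquiv.symm_apply_apply,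
    AddEquiv.symm_apply_apply]

instance instFiniteT [Finite S] : Finite D.T := inferInstanceAs (Finite S)

instance instNontrivialT [Nontrivial S] : Nontrivial D.T := inferInstanceAs (Nontrivial S)

instance instNZDT [NoZeroDivisors S] : NoZeroDivisors D.T where
  eq_zero_or_eq_zero_of_mul_eq_zero := by
    intro a b hab
    have h1 : (D.R.symm (D.toS a)) * (D.L.symm (D.toS b)) = 0 := by
      rw [← toS_mul, hab, map_zero]
    rcases mul_eq_zero.1 h1 with h | h
    · left
      have := (map_eq_zero_iff D.R.symm D.R.symm.injective).1 h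
      exact (map_eq_zero_iff D.toS D.toS.injective).1 this
    · right
      have := (map_eq_zero_iff D.L.symm D.L.symm.injective).1 h
      exact (map_eq_zero_iff D.toS D.toS.injective).1 this

end

/-- The autotopism group of a (not necessarily associative) ring. -/
def autotopismGroup (S : Type u) [NonAssocRing S] :
    Subgroup (Equiv.Perm S × Equiv.Perm S × Equiv.Perm S) where
  carrier := {t | (∀ x y : S, t.1 (x + y) = t.1 x + t.1 y) ∧
    (∀ x y : S, t.2.1 (x + y) = t.2.1 x + t.2.1 y) ∧
    (∀ x y : S, t.2.2 (x + y) = t.2.2 x + t.2.2 y) ∧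
    (∀ x y : S, t.1 x * t.2.1 y = t.2.2 (x * y))}
  mul_mem' := by
    rintro ⟨F, G, H⟩ ⟨F', G', H'⟩ ⟨h1, h2, h3, h4⟩ ⟨h1', h2', h3', h4'⟩
    refine ⟨fun x y => ?_, fun x y => ?_, fun x y => ?_, fun x y => ?_⟩
    · show F (F' (x + y)) = F (F' x) + F (F' y)
      rw [h1', h1]
    · show G (G' (x + y)) = G (G' x) + G (G' y)
      rw [h2', h2]
    · show H (H' (x + y)) = H (H' x) + H (H' y)
      rw [h3', h3]
    · show F (F' x) * G (G' y) = H (H' (x * y))
      rw [h4, h4']
  one_mem' := ⟨fun _ _ => rfl, fun _ _ => rfl, fun _ _ => rfl, fun _ _ => rfl⟩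
  inv_mem' := by
    rintro ⟨F, G, H⟩ ⟨h1, h2, h3, h4⟩
    have e1 : ∀ x, F (F⁻¹ x) = x := fun x => F.apply_symm_apply x
    have e2 : ∀ x, G (G⁻¹ x) = x := fun x => G.apply_symm_apply x
    have e3 : ∀ x, H (H⁻¹ x) = x := fun x => H.apply_symm_apply x
    refine ⟨fun x y => ?_, fun x y => ?_, fun x y => ?_, fun x y => ?_⟩
    · show F⁻¹ (x + y) = F⁻¹ x + F⁻¹ y
      apply F.injective
      have := h1 (F⁻¹ x) (F⁻¹ y)
      exact (e1 _).trans (this.trans (by rw [e1, e1])).symm
    · show G⁻¹ (x + y) = G⁻¹ x + G⁻¹ y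
      apply G.injective
      have := h2 (G⁻¹ x) (G⁻¹ y)
      exact (e2 _).trans (this.trans (by rw [e2, e2])).symm
    · show H⁻¹ (x + y) = H⁻¹ x + H⁻¹ y
      apply H.injective
      have := h3 (H⁻¹ x) (H⁻¹ y)
      exact (e3 _).trans (this.trans (by rw [e3, e3])).symm
    · show F⁻¹ x * G⁻¹ y = H⁻¹ (x * y)
      apply H.injective
      have := h4 (F⁻¹ x) (G⁻¹ y)
      exact (this.symm.trans (by rw [e1, e2])).trans (e3 _).symm

section Main

variable {S : Type u} [NonAssocRing S] (p : ℕ) [Fact p.Prime]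

theorem dvd_card [Finite S] [Nontrivial S] (hp : ∀ x : S, p • x = 0) : p ∣ Nat.card S := by
  have hpp : p.Prime := Fact.out
  have h1 : addOrderOf (1 : S) ∣ p :=
    addOrderOf_dvd_of_nsmul_eq_zero (hp 1)
  have h3 : addOrderOf (1 : S) = p := by
    rcases (Nat.dvd_prime hpp).1 h1 with h | h
    · exact absurd (AddMonoid.addOrderOf_eq_one_iff.1 h) one_ne_zero
    · exact h
  rw [← h3]; exact addOrderOf_dvd_natCard 1

/-- A `p`-group acting on a set whose cardinality is divisible by `p`, fixing `0`, fixes a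
nonzero element. -/
theorem exists_fixed [Finite S] [Nontrivial S] (hp : ∀ x : S, p • x = 0) {P : Type*} [Group P]
    (hP : IsPGroup p P) (f : P →* Equiv.Perm S) (hf : ∀ g, f g 0 = 0) :
    ∃ x : S, x ≠ 0 ∧ ∀ g, f g x = x := by
  let _ : MulAction P S := MulAction.compHom S f
  have h0 : (0 : S) ∈ MulAction.fixedPoints P S := fun g => hf g
  obtain ⟨b, hb, hb0⟩ := hP.exists_fixed_point_of_prime_dvd_card_of_fixed_point S
    (dvd_card p hp) h0
  exact ⟨b, fun h => hb0 h.symm, fun g => hb g⟩

variable [Finite S] [NoZeroDivisors S]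

/-- Isotopism data from nonzero vectors. -/
theorem exists_isoData (u v : S) (hu : u ≠ 0) (hv : v ≠ 0) :
    ∃ D : IsoData S, D.u = u ∧ D.v = v := by
  have hR : Function.Bijective (AddMonoidHom.mulRight v : S →+ S) := by
    apply Finite.injective_iff_bijective.1
    rw [injective_iff_map_eq_zero]
    intro x hx
    rcases mul_eq_zero.1 (show x * v = 0 from hx) with h | h
    · exact h
    · exact absurd h hv
  have hL : Function.Bijective (AddMonoidHom.mulLeft u : S →+ S) := by
    apply Finite.injective_iff_bijective.1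
    rw [injective_iff_map_eq_zero]
    intro x hx
    rcases mul_eq_zero.1 (show u * x = 0 from hx) with h | h
    · exact absurd h hu
    · exact h
  exact ⟨{ u := u, v := v, R := AddEquiv.ofBijective _ hR, L := AddEquiv.ofBijective _ hL,
           hR := fun x => rfl, hL := fun y => rfl }, rfl, rfl⟩

omit [Finite S] [NoZeroDivisors S] in
theorem mem_autotopismGroup (t : Equiv.Perm S × Equiv.Perm S × Equiv.Perm S) :
    t ∈ autotopismGroup S ↔ (∀ x y : S, t.1 (x + y) = t.1 x + t.1 y) ∧
    (∀ x y : S, t.2.1 (x + y) = t.2.1 x + t.2.1 y) ∧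
    (∀ x y : S, t.2.2 (x + y) = t.2.2 x + t.2.2 y) ∧
    (∀ x y : S, t.1 x * t.2.1 y = t.2.2 (x * y)) := Iff.rfl

omit [Finite S] [NoZeroDivisors S] in
theorem perm_zero (F : Equiv.Perm S) (h : ∀ x y : S, F (x + y) = F x + F y) : F 0 = 0 := by
  have := h 0 0
  rw [add_zero] at this
  exact (add_eq_left.1 this.symm)

/-- The automorphism of the isotope attached to an autotopism fixing the base points. -/
def autOf (D : IsoData S) (t : Equiv.Perm S × Equiv.Perm S × Equiv.Perm S)
    (ht : t ∈ autotopismGroup S) (hu : t.1 D.u = D.u) (hv : t.2.1 D.v = D.v) : RingAut D.T where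
  toFun x := D.toS.symm (t.2.2 (D.toS x))
  invFun x := D.toS.symm (t.2.2.symm (D.toS x))
  left_inv x := by simp
  right_inv x := by simp
  map_add' x y := by
    rw [map_add, ht.2.2.1, map_add]
  map_mul' x y := by
    have hR : ∀ z, t.2.2 (D.R z) = D.R (t.1 z) := by
      intro z; rw [D.hR, D.hR, ← ht.2.2.2, hv]
    have hL : ∀ z, t.2.2 (D.L z) = D.L (t.2.1 z) := by
      intro z; rw [D.hL, D.hL, ← ht.2.2.2, hu]
    obtain ⟨x', hx'⟩ := D.R.surjective (D.toS x)
    obtain ⟨y', hy'⟩ := D.L.surjective (D.toS y)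
    have hx : x = D.toS.symm (D.R x') := by rw [hx', AddEquiv.symm_apply_apply]
    have hy : y = D.toS.symm (D.L y') := by rw [hy', AddEquiv.symm_apply_apply]
    apply D.toS.injective
    rw [AddEquiv.apply_symm_apply, hx, hy, mul_toS, AddEquiv.apply_symm_apply,
      AddEquiv.apply_symm_apply, hR, hL, mul_toS, ht.2.2.2]

variable [Nontrivial S]

/-- A `p`-group of autotopisms acts freely on each of the three additive groups. -/
theorem free_autotopism (hp : ∀ x : S, p • x = 0)
    (P : Subgroup (Equiv.Perm S × Equiv.Perm S × Equiv.Perm S)) (hPG : P ≤ autotopismGroup S)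
    (hP : IsPGroup p P) :
    Nat.card {x : S | ∀ t ∈ P, t.1 x = x} ^ Nat.card P = Nat.card S ∧
    Nat.card {x : S | ∀ t ∈ P, t.2.1 x = x} ^ Nat.card P = Nat.card S ∧
    Nat.card {x : S | ∀ t ∈ P, t.2.2 x = x} ^ Nat.card P = Nat.card S := by
  obtain ⟨u, hu0, hu⟩ := exists_fixed p hp hP
    ((MonoidHom.fst (Equiv.Perm S) (Equiv.Perm S × Equiv.Perm S)).comp P.subtype)
    (fun g => perm_zero _ (hPG g.2).1)
  obtain ⟨v, hv0, hv⟩ := exists_fixed p hp hP
    (((MonoidHom.fst (Equiv.Perm S) (Equiv.Perm S)).comp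
      (MonoidHom.snd (Equiv.Perm S) (Equiv.Perm S × Equiv.Perm S))).comp P.subtype)
    (fun g => perm_zero _ (hPG g.2).2.1)
  obtain ⟨D, hDu, hDv⟩ := exists_isoData u v hu0 hv0
  have hu' : ∀ g : P, g.1.1 D.u = D.u := fun g => by rw [hDu]; exact hu g
  have hv' : ∀ g : P, g.1.2.1 D.v = D.v := fun g => by rw [hDv]; exact hv g
  let φ : P →* RingAut D.T :=
    { toFun := fun g => autOf D g.1 (hPG g.2) (hu' g) (hv' g)
      map_one' := RingEquiv.ext fun x => rfl
      map_mul' := fun g h => RingEquiv.ext fun x => rfl }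
  have hR : ∀ (g : P) (z : S), g.1.2.2 (D.R z) = D.R (g.1.1 z) := by
    intro g z; rw [D.hR, D.hR, ← (hPG g.2).2.2.2, hv']
  have hL : ∀ (g : P) (z : S), g.1.2.2 (D.L z) = D.L (g.1.2.1 z) := by
    intro g z; rw [D.hL, D.hL, ← (hPG g.2).2.2.2, hu']
  have hinj : Function.Injective φ := by
    rw [injective_iff_map_eq_one]
    intro g hg
    have hH : ∀ z : S, g.1.2.2 z = z := by
      intro z
      have := DFunLike.congr_fun hg (D.toS.symm z)
      exact this
    have hF : ∀ z : S, g.1.1 z = z := by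
      intro z
      apply D.R.injective
      rw [← hR, hH]
    have hG : ∀ z : S, g.1.2.1 z = z := by
      intro z
      apply D.L.injective
      rw [← hL, hH]
    apply Subtype.ext
    exact Prod.ext (Equiv.ext hF) (Prod.ext (Equiv.ext hG) (Equiv.ext hH))
  have hfinA : Finite (RingAut D.T) := finite_ringAut
  have hcard : Nat.card φ.range = Nat.card P :=
    (Nat.card_congr (MonoidHom.ofInjective hinj).toEquiv).symm
  have hPr : IsPGroup p φ.range :=
    hP.of_surjective φ.rangeRestrict φ.rangeRestrict_surjective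
  have hmain := free_action p (Nat.card φ.range) D.T (fun x => hp x) φ.range hPr rfl
  rw [hcard] at hmain
  have hW : Nat.card {x : D.T | ∀ g ∈ φ.range, g x = x} = Nat.card {x : S | ∀ t ∈ P, t.2.2 x = x} := by
    apply Nat.card_congr
    refine
      { toFun := fun a => ⟨D.toS a.1, fun t ht => ?_⟩
        invFun := fun a => ⟨D.toS.symm a.1, ?_⟩
        left_inv := fun a => rfl
        right_inv := fun a => rfl }
    · exact a.2 (φ ⟨t, ht⟩) ⟨_, rfl⟩
    · rintro g ⟨t, rfl⟩
      exact a.2 t.1 t.2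
  have hU : Nat.card {x : S | ∀ t ∈ P, t.1 x = x} = Nat.card {x : S | ∀ t ∈ P, t.2.2 x = x} := by
    apply Nat.card_congr
    refine
      { toFun := fun a => ⟨D.R a.1, fun t ht => ?_⟩
        invFun := fun a => ⟨D.R.symm a.1, fun t ht => ?_⟩
        left_inv := fun a => Subtype.ext (D.R.symm_apply_apply _)
        right_inv := fun a => Subtype.ext (D.R.apply_symm_apply _) }
    · rw [hR ⟨t, ht⟩, a.2 t ht]
    · apply D.R.injective
      rw [← hR ⟨t, ht⟩, D.R.apply_symm_apply, a.2 t ht]
  have hV : Nat.card {x : S | ∀ t ∈ P, t.2.1 x = x} = Nat.card {x : S | ∀ t ∈ P, t.2.2 x = x} := by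
    apply Nat.card_congr
    refine
      { toFun := fun a => ⟨D.L a.1, fun t ht => ?_⟩
        invFun := fun a => ⟨D.L.symm a.1, fun t ht => ?_⟩
        left_inv := fun a => Subtype.ext (D.L.symm_apply_apply _)
        right_inv := fun a => Subtype.ext (D.L.apply_symm_apply _) }
    · rw [hL ⟨t, ht⟩, a.2 t ht]
    · apply D.L.injective
      rw [← hL ⟨t, ht⟩, D.L.apply_symm_apply, a.2 t ht]
  have hcT : Nat.card D.T = Nat.card S := Nat.card_congr D.toS.toEquiv
  rw [hcT, hW] at hmain
  exact ⟨by rw [hU]; exact hmain, by rw [hV]; exact hmain, hmain⟩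

end Main

end Pool.Agent.Lib_MP_4776c2
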