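import Pool.Agent.Lib_MP_4776c2.Sol

set_option autoImplicit false

namespace Pool.Agent.Lib_MP_4776c2

universe u v

open Module Polynomial

section LinAlg

variable {K : Type v} [Field K] [Finite K] {V : Type u} [AddCommGroup V] [Module K V] [Finite V]

/-- An invertible map of `r`-power order has an eigenvector if `r ∣ |K| - 1` and `r ∤ dim V`. -/
theorem exists_eigenvector (r : ℕ) [Fact r.Prime] (hr : r ∣ Nat.card K - 1)
    (hm : ¬ r ∣ finrank K V) (f : V ≃ₗ[K] V) (k : ℕ) (hf : f ^ (r ^ k) = 1) :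
    ∃ u : V, u ≠ 0 ∧ ∃ a : K, f u = a • u := by
  classical
  have hfin : Finite (Projectivization K V) := inferInstance
  have := Fintype.ofFinite (Projectivization K V)
  have hcard : ¬ r ∣ Fintype.card (Projectivization K V) := by
    rw [← Nat.card_eq_fintype_card, Projectivization.card_of_finrank (h := rfl)]
    have hmod : (∑ i ∈ Finset.range (finrank K V), Nat.card K ^ i) ≡ finrank K V [MOD r] := by
      have h1 : Nat.card K ≡ 1 [MOD r] := by
        have hpos : 1 ≤ Nat.card K := Nat.card_pos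
        exact ((Nat.modEq_iff_dvd' hpos).2 hr).symm
      have h2 : ∀ i ∈ Finset.range (finrank K V), Nat.card K ^ i ≡ 1 [MOD r] := by
        intro i _
        have := h1.pow i
        rwa [one_pow] at this
      have h3 : (∑ i ∈ Finset.range (finrank K V), Nat.card K ^ i)
          ≡ ∑ i ∈ Finset.range (finrank K V), 1 [MOD r] := by
        rw [← ZMod.natCast_eq_natCast_iff]
        push_cast
        apply Finset.sum_congr rfl
        intro i hi
        have := (ZMod.natCast_eq_natCast_iff _ _ _).2 (h2 i hi)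
        push_cast at this
        exact this
      simpa using h3
    intro hd
    exact hm ((hmod.dvd_iff dvd_rfl).1 hd)
  let σ : Equiv.Perm (Projectivization K V) := MulAction.toPermHom (LinearMap.GeneralLinearGroup K V)
    (Projectivization K V) (LinearMap.GeneralLinearGroup.ofLinearEquiv f)
  have hσ : σ ^ r ^ k = 1 := by
    rw [← map_pow]
    have h1 : (LinearMap.GeneralLinearGroup.ofLinearEquiv f) ^ r ^ k = 1 := by
      have h2 : (LinearMap.GeneralLinearGroup.generalLinearEquiv K V).symm (f ^ (r ^ k)) = 1 := by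
        rw [hf, map_one]
      rwa [map_pow] at h2
    rw [h1, map_one]
  obtain ⟨P, hP⟩ := Equiv.Perm.exists_fixed_point_of_prime hcard hσ
  induction P using Projectivization.ind with
  | _ v hv =>
    refine ⟨v, hv, ?_⟩
    have h1 : LinearMap.GeneralLinearGroup.ofLinearEquiv f • Projectivization.mk K v hv
        = Projectivization.mk K v hv := hP
    rw [Projectivization.smul_mk, Projectivization.mk_eq_mk_iff'] at h1
    obtain ⟨a, ha⟩ := h1
    exact ⟨a, ha.symm⟩

omit [Finite K] [Finite V] in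
/-- If a product of linear factors kills a nonzero vector, one of them has an eigenvector. -/
theorem exists_of_prod (g : V →ₗ[K] V) (s : Multiset K) : ∀ v : V, v ≠ 0 →
    (aeval g (s.map (fun a => (X - C a : K[X]))).prod) v = 0 →
    ∃ a ∈ s, ∃ w : V, w ≠ 0 ∧ g w = a • w := by
  induction s using Multiset.induction_on with
  | empty =>
    intro v hv h
    rw [Multiset.map_zero, Multiset.prod_zero, map_one] at h
    exact absurd h hv
  | cons a s ih =>
    intro v hv h
    rw [Multiset.map_cons, Multiset.prod_cons, map_mul] at h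
    by_cases h0 : (aeval g (s.map (fun a => (X - C a : K[X]))).prod) v = 0
    · obtain ⟨b, hb, w, hw, hgw⟩ := ih v hv h0
      exact ⟨b, Multiset.mem_cons_of_mem hb, w, hw, hgw⟩
    · refine ⟨a, Multiset.mem_cons_self a s, _, h0, ?_⟩
      have h1 : (aeval g (X - C a : K[X])) ((aeval g (s.map (fun a => (X - C a : K[X]))).prod) v) = 0 := h
      rw [map_sub, aeval_X, aeval_C] at h1
      rw [LinearMap.sub_apply, sub_eq_zero] at h1
      rw [h1]; rfl

omit [Finite V] in
/-- A nontrivial map of order `r` has a nontrivial eigenvalue if `r ∣ |K| - 1`. -/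
theorem exists_root_eigen (r : ℕ) [Fact r.Prime] (hr : r ∣ Nat.card K - 1) (g : V →ₗ[K] V)
    (hg : g ^ r = 1) (hg1 : g ≠ 1) : ∃ a : K, a ≠ 1 ∧ a ^ r = 1 ∧ ∃ w : V, w ≠ 0 ∧ g w = a • w := by
  classical
  have hrp : r.Prime := Fact.out
  have := Fintype.ofFinite K
  obtain ⟨z, hz⟩ := exists_prime_orderOf_dvd_card' (G := Kˣ) r (by
    rwa [Nat.card_units])
  have hprim : IsPrimitiveRoot (z : K) r := by
    rw [← hz]
    exact IsPrimitiveRoot.coe_units_iff.2 (IsPrimitiveRoot.orderOf z)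
  have hprod := X_pow_sub_one_eq_prod hrp.pos hprim
  obtain ⟨x, hx⟩ : ∃ x, g x ≠ x := by
    by_contra hcon
    push Not at hcon
    exact hg1 (LinearMap.ext hcon)
  have h1mem : (1 : K) ∈ nthRootsFinset r (1 : K) := by
    rw [mem_nthRootsFinset hrp.pos, one_pow]
  rw [← Finset.prod_erase_mul _ _ h1mem] at hprod
  have h0 : (aeval g (∏ a ∈ (nthRootsFinset r (1 : K)).erase 1, (X - C a : K[X]))) (g x - x) = 0 := by
    have h2 : (aeval g (X ^ r - 1 : K[X])) x = 0 := by
      rw [map_sub, map_pow, aeval_X, map_one, hg, sub_self]; rfl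
    rw [hprod, map_mul] at h2
    have h3 : (aeval g (X - C 1 : K[X])) x = g x - x := by
      rw [map_sub, aeval_X, C_1, map_one]; rfl
    rw [← h3]
    exact h2
  have hne : g x - x ≠ 0 := sub_ne_zero.2 hx
  obtain ⟨a, ha, w, hw, hgw⟩ := exists_of_prod g ((nthRootsFinset r (1 : K)).erase 1).val _ hne h0
  have ha' : a ∈ (nthRootsFinset r (1 : K)).erase 1 := ha
  rw [Finset.mem_erase, mem_nthRootsFinset hrp.pos] at ha'
  exact ⟨a, ha'.1, ha'.2, w, hw, hgw⟩

/-- Scalar criterion. -/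
theorem scalar_of_ratio (r : ℕ) [Fact r.Prime] (hr : r ∣ Nat.card K - 1)
    (hm : ¬ r ∣ finrank K V) (f : V ≃ₗ[K] V) (k : ℕ) (hf : f ^ (r ^ k) = 1)
    (hR : ∀ (n : ℕ) (a b : K), (∃ u : V, u ≠ 0 ∧ (f ^ n) u = a • u) →
      (∃ u : V, u ≠ 0 ∧ (f ^ n) u = b • u) → a ^ finrank K V = b ^ finrank K V) :
    ∃ a : K, a ≠ 0 ∧ ∀ x, f x = a • x := by
  classical
  have hrp : r.Prime := Fact.out
  obtain ⟨u, hu, a, hfu⟩ := exists_eigenvector r hr hm f k hf
  have ha0 : a ≠ 0 := by
    intro h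
    rw [h, zero_smul] at hfu
    exact hu ((map_eq_zero_iff f f.injective).1 hfu)
  refine ⟨a, ha0, ?_⟩
  have hpowu : ∀ n : ℕ, (f ^ n) u = a ^ n • u := by
    intro n
    induction n with
    | zero => rw [pow_zero, pow_zero, one_smul]; rfl
    | succ n ih =>
      rw [pow_succ']
      show f ((f ^ n) u) = _
      rw [ih, map_smul, hfu, smul_smul, pow_succ]
  -- the scaled map
  let g : V →ₗ[K] V := a⁻¹ • (f : V →ₗ[K] V)
  have hgpow : ∀ (n : ℕ) (x : V), (g ^ n) x = (a⁻¹) ^ n • (f ^ n) x := by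
    intro n
    induction n with
    | zero => intro x; rw [pow_zero, pow_zero, one_smul]; rfl
    | succ n ih =>
      intro x
      rw [pow_succ', pow_succ', pow_succ']
      show g ((g ^ n) x) = _
      rw [ih]
      show a⁻¹ • f ((a⁻¹) ^ n • (f ^ n) x) = (a⁻¹ * (a⁻¹) ^ n) • f ((f ^ n) x)
      rw [map_smul, smul_smul]
  have hapow : a ^ (r ^ k) = 1 := by
    have h1 := hpowu (r ^ k)
    rw [hf] at h1
    have h2 : (a ^ (r ^ k) - 1) • u = 0 := by
      rw [sub_smul, one_smul, ← h1]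
      exact sub_self u
    rcases smul_eq_zero.1 h2 with h | h
    · exact sub_eq_zero.1 h
    · exact absurd h hu
  have hgk : g ^ (r ^ k) = 1 := by
    ext x
    rw [hgpow, hf, inv_pow, hapow, inv_one, one_smul]; rfl
  by_contra hcon
  push Not at hcon
  obtain ⟨x0, hx0⟩ := hcon
  have hg1 : g ≠ 1 := by
    intro h
    have h1 : a⁻¹ • f x0 = x0 := LinearMap.congr_fun h x0
    apply hx0
    rw [← h1, smul_smul, mul_inv_cancel₀ ha0, one_smul, h1]
  -- minimal power
  have hex : ∃ j, g ^ (r ^ j) = 1 := ⟨k, hgk⟩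
  have hj0 : Nat.find hex ≠ 0 := by
    intro h
    have := Nat.find_spec hex
    rw [h, pow_zero, pow_one] at this
    exact hg1 this
  obtain ⟨j, hj⟩ := Nat.exists_eq_succ_of_ne_zero hj0
  have h1 : g ^ (r ^ j) ≠ 1 := Nat.find_min hex (by omega)
  have h2 : (g ^ (r ^ j)) ^ r = 1 := by
    rw [← pow_mul, ← pow_succ]
    have := Nat.find_spec hex
    rwa [hj] at this
  obtain ⟨b, hb1, hbr, w, hw, hgw⟩ := exists_root_eigen r hr (g ^ (r ^ j)) h2 h1
  rw [hgpow] at hgw
  have hfw : (f ^ (r ^ j)) w = (a ^ (r ^ j) * b) • w := by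
    rw [mul_smul, ← hgw, smul_smul, ← mul_pow, mul_inv_cancel₀ ha0, one_pow, one_smul]
  have hrat := hR (r ^ j) (a ^ (r ^ j) * b) (a ^ (r ^ j)) ⟨w, hw, hfw⟩ ⟨u, hu, hpowu _⟩
  rw [mul_pow] at hrat
  have hbm : b ^ finrank K V = 1 := by
    have h3 : (a ^ (r ^ j)) ^ finrank K V ≠ 0 := pow_ne_zero _ (pow_ne_zero _ ha0)
    exact mul_left_cancel₀ h3 (by rw [mul_one]; exact hrat)
  apply hm
  have hord : orderOf b = r := orderOf_eq_prime hbr hb1
  rw [← hord]
  exact orderOf_dvd_of_pow_eq_one hbm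

end LinAlg

section Semi

variable {K : Type v} [Field K] {S : Type u} [NonAssocRing S] [Module K S]
  [IsScalarTower K S S] [SMulCommClass K S S]

/-- The `K`-linear autotopisms. -/
def LG (K : Type v) [Field K] (S : Type u) [NonAssocRing S] [Module K S]
    [IsScalarTower K S S] [SMulCommClass K S S] :
    Subgroup ((S ≃ₗ[K] S) × (S ≃ₗ[K] S) × (S ≃ₗ[K] S)) where
  carrier := {t | ∀ x y : S, t.1 x * t.2.1 y = t.2.2 (x * y)}
  mul_mem' := by
    rintro ⟨F, G, H⟩ ⟨F', G', H'⟩ h h' x y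
    show F (F' x) * G (G' y) = H (H' (x * y))
    rw [← h' x y]
    exact h _ _
  one_mem' := fun _ _ => rfl
  inv_mem' := by
    rintro ⟨F, G, H⟩ h x y
    show F.symm x * G.symm y = H.symm (x * y)
    apply H.injective
    have h1 := h (F.symm x) (G.symm y)
    simp only [LinearEquiv.apply_symm_apply] at h1 ⊢
    exact h1.symm

theorem LG_apply (t : LG K S) (x y : S) : t.1.1 x * t.1.2.1 y = t.1.2.2 (x * y) := t.2 x y

variable [Finite S] [NoZeroDivisors S]

omit [IsScalarTower K S S] in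
theorem det_mulLeft_ne (u : S) (hu : u ≠ 0) : LinearMap.det (LinearMap.mulLeft K u) ≠ 0 := by
  have hinj : Function.Injective (LinearMap.mulLeft K u) := by
    rw [injective_iff_map_eq_zero]
    intro x hx
    rw [LinearMap.mulLeft_apply] at hx
    exact (mul_eq_zero.1 hx).resolve_left hu
  have hbij : Function.Bijective (LinearMap.mulLeft K u) := Finite.injective_iff_bijective.1 hinj
  have := (LinearEquiv.ofBijective (LinearMap.mulLeft K u) hbij).isUnit_det'
  exact this.ne_zero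

omit [SMulCommClass K S S] in
theorem det_mulRight_ne (u : S) (hu : u ≠ 0) : LinearMap.det (LinearMap.mulRight K u) ≠ 0 := by
  have hinj : Function.Injective (LinearMap.mulRight K u) := by
    rw [injective_iff_map_eq_zero]
    intro x hx
    rw [LinearMap.mulRight_apply] at hx
    exact (mul_eq_zero.1 hx).resolve_right hu
  have hbij : Function.Bijective (LinearMap.mulRight K u) := Finite.injective_iff_bijective.1 hinj
  have := (LinearEquiv.ofBijective (LinearMap.mulRight K u) hbij).isUnit_det'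
  exact this.ne_zero

/-- The determinant relation for eigenvectors of the first component. -/
theorem det_left (F G H : S →ₗ[K] S) (h : ∀ x y : S, F x * G y = H (x * y)) (u : S) (hu : u ≠ 0)
    (a : K) (ha : F u = a • u) : LinearMap.det H = a ^ finrank K S * LinearMap.det G := by
  have h1 : H ∘ₗ LinearMap.mulLeft K u = a • (LinearMap.mulLeft K u ∘ₗ G) := by
    ext y
    show H (u * y) = a • (u * G y)
    rw [← h, ha, smul_mul_assoc]
  have h2 := congrArg LinearMap.det h1
  rw [LinearMap.det_comp, LinearMap.det_smul, LinearMap.det_comp] at h2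
  have h3 := det_mulLeft_ne (K := K) u hu
  apply mul_right_cancel₀ h3
  rw [h2]; ring

/-- The determinant relation for eigenvectors of the second component. -/
theorem det_right (F G H : S →ₗ[K] S) (h : ∀ x y : S, F x * G y = H (x * y)) (u : S) (hu : u ≠ 0)
    (a : K) (ha : G u = a • u) : LinearMap.det H = a ^ finrank K S * LinearMap.det F := by
  have h1 : H ∘ₗ LinearMap.mulRight K u = a • (LinearMap.mulRight K u ∘ₗ F) := by
    ext y
    show H (y * u) = a • (F y * u)
    rw [← h, ha, mul_smul_comm]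
  have h2 := congrArg LinearMap.det h1
  rw [LinearMap.det_comp, LinearMap.det_smul, LinearMap.det_comp] at h2
  have h3 := det_mulRight_ne (K := K) u hu
  apply mul_right_cancel₀ h3
  rw [h2]; ring

omit [Finite S] [NoZeroDivisors S] in
theorem LG_pow (t : LG K S) (n : ℕ) (x y : S) :
    (t.1.1 ^ n) x * (t.1.2.1 ^ n) y = (t.1.2.2 ^ n) (x * y) := (t ^ n).2 x y

/-- Elements of `r`-power order are scalar. -/
theorem scalar_of_order [Finite K] [Nontrivial S] (r : ℕ) [Fact r.Prime] (hr : r ∣ Nat.card K - 1)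
    (hm : ¬ r ∣ finrank K S) (t : LG K S) (k : ℕ) (ht : t ^ (r ^ k) = 1) :
    ∃ a b : K, a ≠ 0 ∧ b ≠ 0 ∧ (∀ x, t.1.1 x = a • x) ∧ (∀ x, t.1.2.1 x = b • x) ∧
      ∀ x, t.1.2.2 x = (a * b) • x := by
  have ht1 : t.1.1 ^ (r ^ k) = 1 := congrArg (fun s : LG K S => s.1.1) ht
  have ht2 : t.1.2.1 ^ (r ^ k) = 1 := congrArg (fun s : LG K S => s.1.2.1) ht
  have hdet : ∀ f : S ≃ₗ[K] S, LinearMap.det (f : S →ₗ[K] S) ≠ 0 := fun f => f.isUnit_det'.ne_zero
  obtain ⟨a, ha0, ha⟩ := scalar_of_ratio r hr hm t.1.1 k ht1 (by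
    rintro n a b ⟨u, hu, hau⟩ ⟨w, hw, hbw⟩
    have h1 := det_left ((t.1.1 ^ n : S ≃ₗ[K] S) : S →ₗ[K] S) ((t.1.2.1 ^ n : S ≃ₗ[K] S) : S →ₗ[K] S)
      ((t.1.2.2 ^ n : S ≃ₗ[K] S) : S →ₗ[K] S) (LG_pow t n) u hu a hau
    have h2 := det_left ((t.1.1 ^ n : S ≃ₗ[K] S) : S →ₗ[K] S) ((t.1.2.1 ^ n : S ≃ₗ[K] S) : S →ₗ[K] S)
      ((t.1.2.2 ^ n : S ≃ₗ[K] S) : S →ₗ[K] S) (LG_pow t n) w hw b hbw
    exact mul_right_cancel₀ (hdet _) (h1.symm.trans h2))
  obtain ⟨b, hb0, hb⟩ := scalar_of_ratio r hr hm t.1.2.1 k ht2 (by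
    rintro n a b ⟨u, hu, hau⟩ ⟨w, hw, hbw⟩
    have h1 := det_right ((t.1.1 ^ n : S ≃ₗ[K] S) : S →ₗ[K] S) ((t.1.2.1 ^ n : S ≃ₗ[K] S) : S →ₗ[K] S)
      ((t.1.2.2 ^ n : S ≃ₗ[K] S) : S →ₗ[K] S) (LG_pow t n) u hu a hau
    have h2 := det_right ((t.1.1 ^ n : S ≃ₗ[K] S) : S →ₗ[K] S) ((t.1.2.1 ^ n : S ≃ₗ[K] S) : S →ₗ[K] S)
      ((t.1.2.2 ^ n : S ≃ₗ[K] S) : S →ₗ[K] S) (LG_pow t n) w hw b hbw
    exact mul_right_cancel₀ (hdet _) (h1.symm.trans h2))
  refine ⟨a, b, ha0, hb0, ha, hb, fun x => ?_⟩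
  have h1 := LG_apply t 1 x
  rw [one_mul, ha, hb, smul_mul_smul_comm, one_mul] at h1
  exact h1.symm

end Semi

end Pool.Agent.Lib_MP_4776c2
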