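import Pool.Agent.Lib_MP_4776c2.Iso
import Pool.Agent.Lib_MP_4776c2.Frob

set_option autoImplicit false

namespace Pool.Agent.Lib_MP_4776c2

universe u

section Div

variable {S : Type u} [AddCommGroup S] [Finite S]

/-- A finite set of additive endomorphisms forming a ring whose nonzero elements are injective is
a field. -/
theorem isField_of_inj [Nontrivial S] (D : Subring (AddMonoid.End S))
    (hD : ∀ f ∈ D, f ≠ 0 → Function.Injective f) : IsField D := by
  have hfinE : Finite (AddMonoid.End S) :=
    Finite.of_injective (fun f : AddMonoid.End S => (f : S → S)) DFunLike.coe_injective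
  have hnt : Nontrivial D := by
    refine ⟨⟨0, 1, ?_⟩⟩
    intro h
    obtain ⟨x, hx⟩ := exists_ne (0 : S)
    have h1 : (0 : AddMonoid.End S) = 1 := congrArg Subtype.val h
    exact hx (DFunLike.congr_fun h1 x).symm
  have hnz : NoZeroDivisors D := by
    constructor
    intro a b hab
    by_cases ha : a = 0
    · exact Or.inl ha
    · right
      have h1 : Function.Injective a.1 := hD a.1 a.2 (fun h => ha (Subtype.ext h))
      apply Subtype.ext
      ext x
      apply h1
      have h2 : (a.1 * b.1) = 0 := congrArg Subtype.val hab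
      have h3 : (a.1 * b.1) x = 0 := by rw [h2]; rfl
      have h4 : a.1 (b.1 x) = 0 := h3
      rw [h4]
      exact (map_zero a.1).symm
  have hdom : IsDomain D := NoZeroDivisors.to_isDomain D
  exact Finite.isDomain_to_isField D

/-- An invariant subgroup has cardinality a power of the cardinality of the field. -/
theorem card_invariant [Nontrivial S] (D : Subring (AddMonoid.End S))
    (hD : ∀ f ∈ D, f ≠ 0 → Function.Injective f) (X : AddSubgroup S)
    (hX : ∀ f ∈ D, ∀ x ∈ X, f x ∈ X) : ∃ n : ℕ, Nat.card X = Nat.card D ^ n := by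
  have hfinE : Finite (AddMonoid.End S) :=
    Finite.of_injective (fun f : AddMonoid.End S => (f : S → S)) DFunLike.coe_injective
  let _ : Field D := (isField_of_inj D hD).toField
  let _ : Module D X :=
    { smul := fun f x => ⟨f.1 x.1, hX f.1 f.2 x.1 x.2⟩
      one_smul := fun x => rfl
      mul_smul := fun f g x => rfl
      smul_zero := fun f => Subtype.ext (map_zero f.1)
      smul_add := fun f x y => Subtype.ext (map_add f.1 x.1 y.1)
      add_smul := fun f g x => rfl
      zero_smul := fun x => rfl }
  have := Fintype.ofFinite D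
  have := Fintype.ofFinite X
  refine ⟨Module.finrank D X, ?_⟩
  rw [Nat.card_eq_fintype_card, Nat.card_eq_fintype_card]
  exact Module.card_eq_pow_finrank

theorem isCyclic_of_embedding [Nontrivial S] (D : Subring (AddMonoid.End S))
    (hD : ∀ f ∈ D, f ≠ 0 → Function.Injective f) {A : Type*} [Group A] [Finite A]
    (φ : A → AddMonoid.End S) (hφD : ∀ a, φ a ∈ D) (hφ1 : φ 1 = 1)
    (hφm : ∀ a b, φ (a * b) = φ a * φ b)
    (hinj : Function.Injective φ) : IsCyclic A := by
  let _ : Field D := (isField_of_inj D hD).toField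
  let ψ : A →* D :=
    { toFun := fun a => ⟨φ a, hφD a⟩
      map_one' := Subtype.ext hφ1
      map_mul' := fun a b => Subtype.ext (hφm a b) }
  exact isCyclic_of_injective_ringHom ψ (fun a b h => hinj (congrArg Subtype.val h))

end Div

section Nuclei

variable (S : Type u) [NonAssocRing S]

/-- The left nucleus. -/
def leftNucleus : Set S := {a | ∀ x y : S, (a * x) * y = a * (x * y)}

/-- The middle nucleus. -/
def middleNucleus : Set S := {a | ∀ x y : S, (x * a) * y = x * (a * y)}

/-- The right nucleus. -/
def rightNucleus : Set S := {a | ∀ x y : S, (x * y) * a = x * (y * a)}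

/-- Endomorphisms commuting with right multiplications. -/
def Dl : Subring (AddMonoid.End S) where
  carrier := {f | ∀ x y : S, f (x * y) = f x * y}
  mul_mem' := by
    intro f g hf hg x y
    show f (g (x * y)) = f (g x) * y
    rw [hg, hf]
  one_mem' := fun x y => rfl
  add_mem' := by
    intro f g hf hg x y
    show f (x * y) + g (x * y) = (f x + g x) * y
    rw [hf, hg, add_mul]
  zero_mem' := by
    intro x y
    show (0 : S) = 0 * y
    rw [zero_mul]
  neg_mem' := by
    intro f hf x y
    show -(f (x * y)) = -(f x) * y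
    rw [hf, neg_mul]

/-- Endomorphisms commuting with left multiplications. -/
def Dr : Subring (AddMonoid.End S) where
  carrier := {f | ∀ x y : S, f (x * y) = x * f y}
  mul_mem' := by
    intro f g hf hg x y
    show f (g (x * y)) = x * f (g y)
    rw [hg, hf]
  one_mem' := fun x y => rfl
  add_mem' := by
    intro f g hf hg x y
    show f (x * y) + g (x * y) = x * (f y + g y)
    rw [hf, hg, mul_add]
  zero_mem' := by
    intro x y
    show (0 : S) = x * 0
    rw [mul_zero]
  neg_mem' := by
    intro f hf x y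
    show -(f (x * y)) = x * -(f y)
    rw [hf, mul_neg]

/-- Endomorphisms that can be moved across the product. -/
def Dm : Subring (AddMonoid.End S) where
  carrier := {f | ∃ f' : AddMonoid.End S, ∀ x y : S, f x * y = x * f' y}
  mul_mem' := by
    rintro f g ⟨f', hf⟩ ⟨g', hg⟩
    refine ⟨g' * f', fun x y => ?_⟩
    show f (g x) * y = x * g' (f' y)
    rw [hf, hg]
  one_mem' := ⟨1, fun x y => rfl⟩
  add_mem' := by
    rintro f g ⟨f', hf⟩ ⟨g', hg⟩
    refine ⟨f' + g', fun x y => ?_⟩
    show (f x + g x) * y = x * (f' y + g' y)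
    rw [add_mul, mul_add, hf, hg]
  zero_mem' := by
    refine ⟨0, fun x y => ?_⟩
    show (0 : S) * y = x * 0
    rw [zero_mul, mul_zero]
  neg_mem' := by
    rintro f ⟨f', hf⟩
    refine ⟨-f', fun x y => ?_⟩
    show -(f x) * y = x * -(f' y)
    rw [neg_mul, mul_neg, hf]

variable {S}

theorem Dl_apply {f : AddMonoid.End S} (hf : f ∈ Dl S) (x : S) : f x = f 1 * x := by
  have := hf 1 x
  rwa [one_mul] at this

theorem Dr_apply {f : AddMonoid.End S} (hf : f ∈ Dr S) (x : S) : f x = x * f 1 := by
  have := hf x 1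
  rwa [mul_one] at this

theorem Dm_apply {f f' : AddMonoid.End S} (hf : ∀ x y : S, f x * y = x * f' y) :
    f' 1 = f 1 ∧ (∀ x, f x = x * f 1) ∧ (∀ y, f' y = f 1 * y) := by
  have h1 := hf 1 1
  rw [mul_one, one_mul] at h1
  refine ⟨h1.symm, fun x => ?_, fun y => ?_⟩
  · have := hf x 1
    rwa [mul_one, ← h1] at this
  · have := hf 1 y
    rw [one_mul] at this
    exact this.symm

theorem card_Dl : Nat.card (Dl S) = Nat.card (leftNucleus S) := by
  apply Nat.card_congr
  refine
    { toFun := fun f => ⟨f.1 1, fun x y => ?_⟩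
      invFun := fun a => ⟨Ld a.1, fun x y => (a.2 x y).symm⟩
      left_inv := fun f => ?_
      right_inv := fun a => Subtype.ext (mul_one a.1) }
  · rw [← Dl_apply f.2, ← Dl_apply f.2, f.2]
  · apply Subtype.ext
    ext x
    exact (Dl_apply f.2 x).symm

theorem card_Dr : Nat.card (Dr S) = Nat.card (rightNucleus S) := by
  apply Nat.card_congr
  refine
    { toFun := fun f => ⟨f.1 1, fun x y => ?_⟩
      invFun := fun a => ⟨Rd a.1, fun x y => a.2 x y⟩
      left_inv := fun f => ?_
      right_inv := fun a => Subtype.ext (one_mul a.1) }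
  · rw [← Dr_apply f.2, ← Dr_apply f.2, f.2]
  · apply Subtype.ext
    ext x
    exact (Dr_apply f.2 x).symm

theorem card_Dm : Nat.card (Dm S) = Nat.card (middleNucleus S) := by
  apply Nat.card_congr
  refine
    { toFun := fun f => ⟨f.1 1, fun x y => ?_⟩
      invFun := fun a => ⟨Rd a.1, Ld a.1, fun x y => a.2 x y⟩
      left_inv := fun f => ?_
      right_inv := fun a => Subtype.ext (one_mul a.1) }
  · obtain ⟨f', hf'⟩ := f.2
    obtain ⟨h1, h2, h3⟩ := Dm_apply hf'
    rw [← h2, ← h3, hf']
  · obtain ⟨f', hf'⟩ := f.2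
    obtain ⟨h1, h2, h3⟩ := Dm_apply hf'
    apply Subtype.ext
    ext x
    exact (h2 x).symm

variable [NoZeroDivisors S]

theorem Dl_inj : ∀ f ∈ Dl S, f ≠ 0 → Function.Injective f := by
  intro f hf h0
  have h1 : f 1 ≠ 0 := by
    intro h
    apply h0
    ext x
    rw [Dl_apply hf, h, zero_mul]; rfl
  rw [injective_iff_map_eq_zero]
  intro x hx
  rw [Dl_apply hf] at hx
  exact (mul_eq_zero.1 hx).resolve_left h1

theorem Dr_inj : ∀ f ∈ Dr S, f ≠ 0 → Function.Injective f := by
  intro f hf h0
  have h1 : f 1 ≠ 0 := by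
    intro h
    apply h0
    ext x
    rw [Dr_apply hf, h, mul_zero]; rfl
  rw [injective_iff_map_eq_zero]
  intro x hx
  rw [Dr_apply hf] at hx
  exact (mul_eq_zero.1 hx).resolve_right h1

theorem Dm_inj : ∀ f ∈ Dm S, f ≠ 0 → Function.Injective f := by
  rintro f ⟨f', hf⟩ h0
  obtain ⟨-, h2, -⟩ := Dm_apply hf
  have h1 : f 1 ≠ 0 := by
    intro h
    apply h0
    ext x
    rw [h2, h, mul_zero]; rfl
  rw [injective_iff_map_eq_zero]
  intro x hx
  rw [h2] at hx
  exact (mul_eq_zero.1 hx).resolve_right h1

end Nuclei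

end Pool.Agent.Lib_MP_4776c2
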