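import Pool.Agent.Lib_MP_4776c2.Inv

set_option autoImplicit false

namespace Pool.Agent.Lib_MP_4776c2

universe u v

open Module

section Idem

variable {K : Type v} [Field K] {V : Type u} [AddCommGroup V] [Module K V]

/-- `g ↦ g e + (1 - e)` is multiplicative on the maps commuting with the idempotent `e`. -/
theorem idem_mul (e g h : End K V) (he : e * e = e) (_hg : g * e = e * g) (hh : h * e = e * h) :
    (g * e + (1 - e)) * (h * e + (1 - e)) = g * h * e + (1 - e) := by
  have e1 : e * (1 - e) = 0 := by rw [mul_sub, mul_one, he, sub_self]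
  have e2 : (1 - e) * e = 0 := by rw [sub_mul, one_mul, he, sub_self]
  have e3 : (1 - e) * (1 - e) = 1 - e := by rw [mul_sub, mul_one, e2, sub_zero]
  calc (g * e + (1 - e)) * (h * e + (1 - e))
      = g * e * (h * e) + g * (e * (1 - e)) + (1 - e) * (h * e) + (1 - e) * (1 - e) := by
        rw [add_mul, mul_add, mul_add, mul_assoc g e (1 - e)]; abel
    _ = g * e * (e * h) + g * 0 + (1 - e) * (e * h) + (1 - e) := by rw [e1, e3, hh]
    _ = g * (e * e) * h + ((1 - e) * e) * h + (1 - e) := by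
        rw [mul_zero, add_zero]; simp only [mul_assoc]
    _ = g * h * e + (1 - e) := by
        rw [he, e2, zero_mul, add_zero, mul_assoc g e h, ← hh]; simp only [mul_assoc]

theorem det_conj_idem (e g y y' : End K V) (hyy : y * y' = 1) (hyy' : y' * y = 1)
    (hye : y * e = e * y) :
    LinearMap.det (y * g * y' * e + (1 - e)) = LinearMap.det (g * e + (1 - e)) := by
  have h1 : y' * e = e * y' := by
    calc y' * e = y' * (e * (y * y')) := by rw [hyy, mul_one]
      _ = y' * (y * e) * y' := by rw [hye]; simp only [mul_assoc]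
      _ = (y' * y) * e * y' := by simp only [mul_assoc]
      _ = e * y' := by rw [hyy', one_mul]
  have h2 : y * g * y' * e + (1 - e) = y * (g * e + (1 - e)) * y' := by
    have h3 : y * (1 - e) * y' = 1 - e := by
      rw [mul_sub, mul_one, sub_mul, hyy, hye, mul_assoc, hyy, mul_one]
    rw [mul_add, add_mul, h3, mul_assoc (y * g) y' e, h1]
    simp only [mul_assoc]
  rw [h2, map_mul, map_mul]
  have h3 : LinearMap.det y * LinearMap.det y' = 1 := by
    rw [← map_mul, hyy, map_one]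
  calc LinearMap.det y * LinearMap.det (g * e + (1 - e)) * LinearMap.det y'
      = (LinearMap.det y * LinearMap.det y') * LinearMap.det (g * e + (1 - e)) := by ring
    _ = _ := by rw [h3, one_mul]

end Idem

section Main

variable {K : Type v} [Field K] {S : Type u} [NonAssocRing S] [Module K S]
  [IsScalarTower K S S] [SMulCommClass K S S]

theorem LG_ext (s t : LG K S) (h1 : ∀ x, s.1.1 x = t.1.1 x) (h2 : ∀ x, s.1.2.1 x = t.1.2.1 x)
    (h3 : ∀ x, s.1.2.2 x = t.1.2.2 x) : s = t :=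
  Subtype.ext (Prod.ext (LinearEquiv.ext h1) (Prod.ext (LinearEquiv.ext h2) (LinearEquiv.ext h3)))

/-- The scalar autotopism with parameters `a`, `b`. -/
def scal (K : Type v) [Field K] (S : Type u) [NonAssocRing S] [Module K S]
    [IsScalarTower K S S] [SMulCommClass K S S] (a b : K) (ha : a ≠ 0) (hb : b ≠ 0) : LG K S :=
  ⟨(LinearEquiv.smulOfNeZero K S a ha, LinearEquiv.smulOfNeZero K S b hb,
    LinearEquiv.smulOfNeZero K S (a * b) (mul_ne_zero ha hb)), fun x y => by
      show (a • x) * (b • y) = (a * b) • (x * y)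
      rw [smul_mul_smul_comm]⟩

theorem scal_1 (a b : K) (ha : a ≠ 0) (hb : b ≠ 0) (x : S) : (scal K S a b ha hb).1.1 x = a • x := rfl
theorem scal_2 (a b : K) (ha : a ≠ 0) (hb : b ≠ 0) (x : S) : (scal K S a b ha hb).1.2.1 x = b • x := rfl
theorem scal_3 (a b : K) (ha : a ≠ 0) (hb : b ≠ 0) (x : S) :
    (scal K S a b ha hb).1.2.2 x = (a * b) • x := rfl

theorem isSc_central (s : LG K S) (hs : IsSc s) (t : LG K S) : s * t = t * s := by
  obtain ⟨a, b, -, -, h1, h2, h3⟩ := hs
  apply LG_ext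
  · intro x
    show s.1.1 (t.1.1 x) = t.1.1 (s.1.1 x)
    rw [h1, h1, map_smul]
  · intro x
    show s.1.2.1 (t.1.2.1 x) = t.1.2.1 (s.1.2.1 x)
    rw [h2, h2, map_smul]
  · intro x
    show s.1.2.2 (t.1.2.2 x) = t.1.2.2 (s.1.2.2 x)
    rw [h3, h3, map_smul]

/-- The group of scalar autotopisms. -/
def Scg (K : Type v) [Field K] (S : Type u) [NonAssocRing S] [Module K S]
    [IsScalarTower K S S] [SMulCommClass K S S] : Subgroup (LG K S) where
  carrier := {t | IsSc t}
  mul_mem' := by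
    rintro s t ⟨a, b, ha0, hb0, h1, h2, h3⟩ ⟨a', b', ha0', hb0', h1', h2', h3'⟩
    apply isSc_of _ (a * a') (b * b') (mul_ne_zero ha0 ha0') (mul_ne_zero hb0 hb0')
    · intro x
      show s.1.1 (t.1.1 x) = _
      rw [h1', h1, smul_smul]
    · intro x
      show s.1.2.1 (t.1.2.1 x) = _
      rw [h2', h2, smul_smul]
  one_mem' := isSc_of _ 1 1 one_ne_zero one_ne_zero (fun x => (one_smul K x).symm)
    (fun x => (one_smul K x).symm)
  inv_mem' := by
    rintro s ⟨a, b, ha0, hb0, h1, h2, h3⟩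
    apply isSc_of _ a⁻¹ b⁻¹ (inv_ne_zero ha0) (inv_ne_zero hb0)
    · intro x
      show s.1.1.symm x = _
      apply s.1.1.injective
      rw [LinearEquiv.apply_symm_apply, h1, smul_smul, mul_inv_cancel₀ ha0, one_smul]
    · intro x
      show s.1.2.1.symm x = _
      apply s.1.2.1.injective
      rw [LinearEquiv.apply_symm_apply, h2, smul_smul, mul_inv_cancel₀ hb0, one_smul]

theorem mem_Scg (t : LG K S) : t ∈ Scg K S ↔ IsSc t := Iff.rfl

/-- determinant of the first component -/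
noncomputable def dU (t : LG K S) : K := LinearMap.det (t.1.1 : S →ₗ[K] S)
/-- determinant of the second component -/
noncomputable def dV (t : LG K S) : K := LinearMap.det (t.1.2.1 : S →ₗ[K] S)
/-- determinant of the third component -/
noncomputable def dW (t : LG K S) : K := LinearMap.det (t.1.2.2 : S →ₗ[K] S)

theorem dU_mul (s t : LG K S) : dU (s * t) = dU s * dU t := map_mul LinearMap.det _ _
theorem dV_mul (s t : LG K S) : dV (s * t) = dV s * dV t := map_mul LinearMap.det _ _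
theorem dW_mul (s t : LG K S) : dW (s * t) = dW s * dW t := map_mul LinearMap.det _ _
theorem dU_one : dU (1 : LG K S) = 1 := LinearMap.det_id
theorem dV_one : dV (1 : LG K S) = 1 := LinearMap.det_id
theorem dW_one : dW (1 : LG K S) = 1 := LinearMap.det_id

theorem dU_conj (y g : LG K S) : dU (y * g * y⁻¹) = dU g := by
  have h : dU y * dU y⁻¹ = 1 := by rw [← dU_mul, mul_inv_cancel, dU_one]
  rw [dU_mul, dU_mul]
  calc dU y * dU g * dU y⁻¹ = (dU y * dU y⁻¹) * dU g := by ring
    _ = dU g := by rw [h, one_mul]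

theorem dV_conj (y g : LG K S) : dV (y * g * y⁻¹) = dV g := by
  have h : dV y * dV y⁻¹ = 1 := by rw [← dV_mul, mul_inv_cancel, dV_one]
  rw [dV_mul, dV_mul]
  calc dV y * dV g * dV y⁻¹ = (dV y * dV y⁻¹) * dV g := by ring
    _ = dV g := by rw [h, one_mul]

omit [IsScalarTower K S S] [SMulCommClass K S S] in
theorem det_scalar (f : S →ₗ[K] S) (a : K) (h : ∀ x, f x = a • x) :
    LinearMap.det f = a ^ finrank K S := by
  have : f = a • LinearMap.id := LinearMap.ext h
  rw [this, LinearMap.det_smul, LinearMap.det_id, mul_one]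

/-- Square roots. -/
theorem sq_root (i a : K) (hi : i * i = -1) (ha : a ≠ 0) (m' : ℕ) (hodd : Odd m')
    (h : (a ^ m') ^ 2 = 1) : ∃ l : K, l ≠ 0 ∧ l * l = a := by
  obtain ⟨j, hj⟩ := hodd
  have hi0 : i ≠ 0 := by
    rintro rfl
    rw [mul_zero] at hi
    exact (neg_ne_zero.2 (one_ne_zero (α := K))) hi.symm
  have haj : a ^ j ≠ 0 := pow_ne_zero _ ha
  have h1 : a ^ m' = a * (a ^ j * a ^ j) := by rw [hj]; ring
  rcases sq_eq_one_iff.1 h with h2 | h2
  · refine ⟨(a ^ j)⁻¹, inv_ne_zero haj, ?_⟩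
    rw [h1] at h2
    field_simp
    rw [← h2]; ring
  · refine ⟨i * (a ^ j)⁻¹, mul_ne_zero hi0 (inv_ne_zero haj), ?_⟩
    rw [h1] at h2
    have : i * (a ^ j)⁻¹ * (i * (a ^ j)⁻¹) = (i * i) * ((a ^ j)⁻¹ * (a ^ j)⁻¹) := by ring
    rw [this, hi]
    field_simp
    rw [← h2]; ring

variable [Finite S] [NoZeroDivisors S]

/-- The determinants of a nonscalar involution are `-1`. -/
theorem inv_dets (h2 : (2 : K) ≠ 0) (m' : ℕ) (hm : finrank K S = 2 * m') (hodd : Odd m')
    (t : LG K S) (ht : t * t = 1) (hns : ¬ IsSc t) : dU t = -1 ∧ dV t = -1 ∧ dW t = -1 := by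
  have : FiniteDimensional K S := inferInstance
  obtain ⟨⟨a1, -⟩, ⟨b1, -⟩, ⟨c1, -⟩⟩ := inv_dims h2 m' hm hodd.pos t ht hns
  have e1 : ∀ x, (t.1.1 : S →ₗ[K] S) ((t.1.1 : S →ₗ[K] S) x) = x := fun x =>
    LinearEquiv.congr_fun (congrArg (fun s : LG K S => s.1.1) ht) x
  have e2 : ∀ x, (t.1.2.1 : S →ₗ[K] S) ((t.1.2.1 : S →ₗ[K] S) x) = x := fun x =>
    LinearEquiv.congr_fun (congrArg (fun s : LG K S => s.1.2.1) ht) x
  have e3 : ∀ x, (t.1.2.2 : S →ₗ[K] S) ((t.1.2.2 : S →ₗ[K] S) x) = x := fun x =>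
    LinearEquiv.congr_fun (congrArg (fun s : LG K S => s.1.2.2) ht) x
  have key : ∀ f : S →ₗ[K] S, ∀ x, f x = ((2 : K)⁻¹ * (1 + -1)) • x + ((2 : K)⁻¹ * (1 - -1)) • f x := by
    intro f x
    have h3 : (2 : K)⁻¹ * (1 - -1) = 1 := by
      rw [sub_neg_eq_add, one_add_one_eq_two, inv_mul_cancel₀ h2]
    rw [add_neg_cancel, mul_zero, zero_smul, zero_add, h3, one_smul]
  refine ⟨?_, ?_, ?_⟩
  · have := det_comb h2 m' hm _ e1 a1 (t.1.1 : S →ₗ[K] S) 1 (-1) (key _)
    rw [one_pow, mul_one, hodd.neg_one_pow] at this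
    exact this
  · have := det_comb h2 m' hm _ e2 b1 (t.1.2.1 : S →ₗ[K] S) 1 (-1) (key _)
    rw [one_pow, mul_one, hodd.neg_one_pow] at this
    exact this
  · have := det_comb h2 m' hm _ e3 c1 (t.1.2.2 : S →ₗ[K] S) 1 (-1) (key _)
    rw [one_pow, mul_one, hodd.neg_one_pow] at this
    exact this

/-- The first components of a central involution modulo scalars, in `[Q, y]`: contradiction. -/
theorem caseA (h2 : (2 : K) ≠ 0) (m' : ℕ) (hm : finrank K S = 2 * m') (hodd : Odd m')
    (R : Subgroup (LG K S)) (y : LG K S) (hy : y ∈ Subgroup.normalizer (R : Set (LG K S)))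
    (hgen : R = Subgroup.closure {z | ∃ g ∈ R, z = y * g * y⁻¹ * g⁻¹})
    (z : LG K S) (hz : z ∈ R) (hyz : y * z = z * y) (hRz : ∀ g ∈ R, g * z = z * g)
    (s0 : LG K S) (l : K) (hs0 : IsSc s0) (hl : ∀ x, s0.1.1 x = l • x)
    (z' : LG K S) (hz' : z = s0 * z') (hzz : z' * z' = 1) (hns : ¬ IsSc z') : False := by
  have : FiniteDimensional K S := inferInstance
  obtain ⟨⟨a1, -⟩, -, -⟩ := inv_dims h2 m' hm hodd.pos z' hzz hns
  set f : End K S := (z'.1.1 : S →ₗ[K] S) with hf
  have hff : ∀ x, f (f x) = x := fun x =>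
    LinearEquiv.congr_fun (congrArg (fun s : LG K S => s.1.1) hzz) x
  set e : End K S := (2 : K)⁻¹ • (1 + f) with he
  have hex : ∀ x, e x = (2 : K)⁻¹ • (x + f x) := fun x => rfl
  have hee : e * e = e := by
    apply LinearMap.ext
    intro x
    show e (e x) = e x
    rw [hex (e x), hex x, map_smul, map_add, hff, add_comm (f x) x, ← smul_add,
      ← two_smul K (x + f x), smul_smul ((2 : K)⁻¹) 2, inv_mul_cancel₀ h2, one_smul]
  have hee' : (1 - e) * (1 - e) = 1 - e := by
    rw [mul_sub, mul_one, sub_mul, one_mul, hee, sub_self, sub_zero]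
  -- commutation with e
  have hcom : ∀ g : LG K S, g * z = z * g → (g.1.1 : End K S) * e = e * (g.1.1 : End K S) := by
    intro g hg
    have h3 : g * z' = z' * g := by
      have h4 : z' = s0⁻¹ * z := by rw [hz']; group
      have hs : s0 * g = g * s0 := isSc_central s0 hs0 g
      have hs' : g * s0⁻¹ = s0⁻¹ * g := by
        calc g * s0⁻¹ = s0⁻¹ * (s0 * g) * s0⁻¹ := by group
          _ = s0⁻¹ * (g * s0) * s0⁻¹ := by rw [hs]
          _ = s0⁻¹ * g := by group
      rw [h4, ← mul_assoc, hs', mul_assoc, hg, mul_assoc]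
    apply LinearMap.ext
    intro x
    have h5 : g.1.1 (f x) = f (g.1.1 x) :=
      LinearEquiv.congr_fun (congrArg (fun s : LG K S => s.1.1) h3) x
    show g.1.1 (e x) = e (g.1.1 x)
    rw [hex, hex, map_smul, map_add, h5]
  have hcom' : ∀ g : LG K S, g * z = z * g →
      (g.1.1 : End K S) * (1 - e) = (1 - e) * (g.1.1 : End K S) := by
    intro g hg
    rw [mul_sub, sub_mul, mul_one, one_mul, hcom g hg]
  have hyinv1 : ((y.1.1 : S ≃ₗ[K] S) : End K S) * (((y⁻¹).1.1 : S ≃ₗ[K] S) : End K S) = 1 := by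
    apply LinearMap.ext
    intro x
    exact LinearEquiv.congr_fun (congrArg (fun s : LG K S => s.1.1) (mul_inv_cancel y)) x
  have hyinv2 : (((y⁻¹).1.1 : S ≃ₗ[K] S) : End K S) * ((y.1.1 : S ≃ₗ[K] S) : End K S) = 1 := by
    apply LinearMap.ext
    intro x
    exact LinearEquiv.congr_fun (congrArg (fun s : LG K S => s.1.1) (inv_mul_cancel y)) x
  have t1 := triv_of_invariant R y hy hgen
    (fun g => LinearMap.det ((g.1.1 : End K S) * e + (1 - e)))
    (by
      show LinearMap.det ((1 : End K S) * e + (1 - e)) = 1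
      rw [one_mul, add_sub_cancel, map_one])
    (by
      intro g hg h hh
      have := idem_mul e (g.1.1 : End K S) (h.1.1 : End K S) hee (hcom g (hRz g hg)) (hcom h (hRz h hh))
      show LinearMap.det ((g.1.1 : End K S) * (h.1.1 : End K S) * e + (1 - e)) = _
      rw [← this, map_mul])
    (by
      intro g hg
      exact det_conj_idem e (g.1.1 : End K S) (y.1.1 : End K S) ((y⁻¹).1.1 : End K S) hyinv1 hyinv2
        (hcom y hyz)) z hz
  have t2 := triv_of_invariant R y hy hgen
    (fun g => LinearMap.det ((g.1.1 : End K S) * (1 - e) + (1 - (1 - e))))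
    (by
      show LinearMap.det ((1 : End K S) * (1 - e) + (1 - (1 - e))) = 1
      rw [one_mul, add_sub_cancel, map_one])
    (by
      intro g hg h hh
      have := idem_mul (1 - e) (g.1.1 : End K S) (h.1.1 : End K S) hee' (hcom' g (hRz g hg))
        (hcom' h (hRz h hh))
      show LinearMap.det ((g.1.1 : End K S) * (h.1.1 : End K S) * (1 - e) + (1 - (1 - e))) = _
      rw [← this, map_mul])
    (by
      intro g hg
      exact det_conj_idem (1 - e) (g.1.1 : End K S) (y.1.1 : End K S) ((y⁻¹).1.1 : End K S) hyinv1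
        hyinv2 (hcom' y hyz)) z hz
  have hzx : ∀ x, z.1.1 x = l • f x := by
    intro x
    rw [hz']
    show s0.1.1 (z'.1.1 x) = _
    rw [hl]; rfl
  have d1 : LinearMap.det ((z.1.1 : End K S) * e + (1 - e)) = (1 : K) ^ m' * l ^ m' := by
    apply det_comb h2 m' hm f hff a1 _ l 1
    intro x
    show z.1.1 (e x) + (x - e x) = _
    rw [hzx, hex, map_smul, map_add, hff]
    have h3 : (2 : K)⁻¹ * 2 = 1 := inv_mul_cancel₀ h2
    have h4 : x = ((2 : K)⁻¹ * 2) • x := by rw [h3, one_smul]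
    conv_lhs => rw [show x - (2 : K)⁻¹ • (x + f x) = ((2 : K)⁻¹ * 2) • x - (2 : K)⁻¹ • (x + f x) by rw [h3, one_smul]]
    simp only [smul_add, smul_smul, mul_add, add_smul, mul_sub, sub_smul, mul_one, mul_two]
    rw [mul_comm l]
    abel
  have d2 : LinearMap.det ((z.1.1 : End K S) * (1 - e) + (1 - (1 - e))) = (-l) ^ m' * (1 : K) ^ m' := by
    apply det_comb h2 m' hm f hff a1 _ 1 (-l)
    intro x
    show z.1.1 (x - e x) + (x - (x - e x)) = _
    rw [hzx, hex, map_sub, map_smul, map_add, hff]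
    have h3 : (2 : K)⁻¹ * 2 = 1 := inv_mul_cancel₀ h2
    rw [sub_sub_cancel]
    rw [show f x - (2 : K)⁻¹ • (f x + x) = ((2 : K)⁻¹ * 2) • f x - (2 : K)⁻¹ • (f x + x) by rw [h3, one_smul]]
    simp only [smul_add, smul_smul, mul_add, add_smul, mul_sub, sub_smul, mul_one, mul_two,
      smul_sub, mul_neg, neg_smul, sub_neg_eq_add]
    rw [mul_comm l]
    abel
  have t1' : LinearMap.det ((z.1.1 : End K S) * e + (1 - e)) = 1 := t1
  have t2' : LinearMap.det ((z.1.1 : End K S) * (1 - e) + (1 - (1 - e))) = 1 := t2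
  rw [d1, one_pow, one_mul] at t1'
  rw [d2, one_pow, mul_one, hodd.neg_pow, t1'] at t2'
  apply h2
  have h3 : (2 : K) = 1 - (-1) := by ring
  rw [h3, t2', sub_self]

end Main

end Pool.Agent.Lib_MP_4776c2
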