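import Pool.Agent.Lib_MP_4776c2.Centre

set_option autoImplicit false

namespace Pool.Agent.Lib_MP_4776c2

universe u v w

open Module

section Grp

variable {G : Type u} [Group G] [Finite G]

theorem section_lemma (C : Subgroup G) [hCn : C.Normal] (hGC : ∀ a b : G, a * b * a⁻¹ * b⁻¹ ∈ C) (r : ℕ)
    (hr : r.Prime) (hC : ∀ t ∈ C, ∀ k : ℕ, t ^ (r ^ k) = 1 → ∀ c ∈ C, t * c = c * t)
    (X : Subgroup G) (Y : Subgroup X) [Y.Normal] (hs : IsSimpleGroup (X ⧸ Y))
    (hna : ¬ ∀ a b : X ⧸ Y, a * b = b * a) : ¬ r ∣ Nat.card (X ⧸ Y) := by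
  intro hdvd
  have : Fact r.Prime := ⟨hr⟩
  have hsurj : Function.Surjective (QuotientGroup.mk' Y) := QuotientGroup.mk'_surjective Y
  set N : Subgroup (X ⧸ Y) := (C.subgroupOf X).map (QuotientGroup.mk' Y) with hN
  have hNn : N.Normal := Subgroup.Normal.map inferInstance _ hsurj
  have hNtop : N = ⊤ := by
    rcases hs.eq_bot_or_eq_top_of_normal N hNn with h | h
    · exfalso
      apply hna
      intro a b
      obtain ⟨a, rfl⟩ := hsurj a
      obtain ⟨b, rfl⟩ := hsurj b
      have h1 : QuotientGroup.mk' Y (a * b * a⁻¹ * b⁻¹) ∈ N :=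
        ⟨a * b * a⁻¹ * b⁻¹, hGC a.1 b.1, rfl⟩
      rw [h, Subgroup.mem_bot] at h1
      rw [← map_mul, ← map_mul]
      calc QuotientGroup.mk' Y (a * b) = QuotientGroup.mk' Y (a * b * a⁻¹ * b⁻¹) *
            QuotientGroup.mk' Y (b * a) := by rw [← map_mul]; congr 1; group
        _ = QuotientGroup.mk' Y (b * a) := by rw [h1, one_mul]
    · exact h
  have hcen : Subgroup.center (X ⧸ Y) = ⊥ := by
    rcases hs.eq_bot_or_eq_top_of_normal (Subgroup.center (X ⧸ Y)) inferInstance with h | h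
    · exact h
    · exfalso
      apply hna
      intro a b
      have h1 : b ∈ Subgroup.center (X ⧸ Y) := by rw [h]; exact Subgroup.mem_top b
      exact Subgroup.mem_center_iff.1 h1 a
  obtain ⟨s, hs⟩ := exists_prime_orderOf_dvd_card' r hdvd
  have hsN : s ∈ N := by rw [hNtop]; exact Subgroup.mem_top s
  obtain ⟨x, hxC, hxs⟩ := hsN
  obtain ⟨k, n', hn', hk⟩ := Nat.exists_eq_pow_mul_and_not_dvd (orderOf_pos x).ne' r hr.ne_one
  have h1 : (x.1 ^ n') ^ (r ^ k) = 1 := by
    rw [← pow_mul, mul_comm, ← hk, Subgroup.orderOf_coe x |>.symm, pow_orderOf_eq_one]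
  have h3 := hC (x.1 ^ n') (C.pow_mem hxC n') k h1
  have h4 : QuotientGroup.mk' Y (x ^ n') ∈ Subgroup.center (X ⧸ Y) := by
    rw [Subgroup.mem_center_iff]
    intro g
    have hg : g ∈ N := by rw [hNtop]; exact Subgroup.mem_top g
    obtain ⟨c, hc, rfl⟩ := hg
    rw [← map_mul, ← map_mul]
    congr 1
    apply Subtype.ext
    exact (h3 c.1 hc).symm
  rw [hcen, Subgroup.mem_bot, map_pow, hxs] at h4
  have h5 := orderOf_dvd_of_pow_eq_one h4
  rw [hs] at h5
  exact hn' h5

end Grp

section Sem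

variable (S : Type u) [NonAssocRing S]

/-- The autotopisms commuting with the multiplications by the elements of the centre. -/
def LinC : Subgroup (autotopismGroup S) := Subgroup.centralizer (Zc S : Set (autotopismGroup S))

theorem LinC_normal : (LinC S).Normal := by
  have hn : (Zc S).Normal := Zc_normal
  exact Subgroup.normal_centralizer

variable {S}

theorem mem_LinC (g : autotopismGroup S) : g ∈ LinC S ↔ ∀ a ∈ Zc S, g * a = a * g := by
  rw [LinC, Subgroup.mem_centralizer_iff]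
  exact ⟨fun h a ha => (h a ha).symm, fun h a ha => (h a ha).symm⟩

theorem comm_mem_LinC [Finite S] [NoZeroDivisors S] [Nontrivial S] (a b : autotopismGroup S) :
    a * b * a⁻¹ * b⁻¹ ∈ LinC S := by
  have hn : (Zc S).Normal := Zc_normal
  have hcyc : IsCyclic (Zc S) := Zc_cyclic
  rw [mem_LinC, ← mem_conjNormal_ker, MonoidHom.mem_ker]
  have hcomm : ∀ x y : MulAut (Zc S), x * y = y * x := by
    intro x y
    apply (IsCyclic.mulAutMulEquiv (Zc S)).injective
    rw [map_mul, map_mul, mul_comm]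
  rw [map_mul, map_mul, map_mul, hcomm, map_inv, map_inv]
  set x := MulAut.conjNormal (H := Zc S) a
  set y := MulAut.conjNormal (H := Zc S) b
  calc y⁻¹ * (x * y * x⁻¹) = y⁻¹ * (y * x * x⁻¹) := by rw [hcomm x y]
    _ = 1 := by group

variable [Finite S] [NoZeroDivisors S] [Nontrivial S]
variable (K : Type v) [Field K] [Module K S] [IsScalarTower K S S] [SMulCommClass K S S]

/-- The linear autotopism of an element of `LinC`. -/
theorem exists_LG (g : autotopismGroup S) (hg : g ∈ LinC S) : ∃ t : LG K S, toAut t = g.1 := by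
  have hlin := fun k : K => linear_of_mem (K := K) g ((mem_LinC g).1 hg) k
  refine ⟨⟨({ toFun := g.1.1
              invFun := g.1.1.symm
              left_inv := g.1.1.left_inv
              right_inv := g.1.1.right_inv
              map_add' := g.2.1
              map_smul' := fun k x => (hlin k).1 x },
            { toFun := g.1.2.1
              invFun := g.1.2.1.symm
              left_inv := g.1.2.1.left_inv
              right_inv := g.1.2.1.right_inv
              map_add' := g.2.2.1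
              map_smul' := fun k x => (hlin k).2.1 x },
            { toFun := g.1.2.2
              invFun := g.1.2.2.symm
              left_inv := g.1.2.2.left_inv
              right_inv := g.1.2.2.right_inv
              map_add' := g.2.2.2.1
              map_smul' := fun k x => (hlin k).2.2 x }), fun x y => g.2.2.2.2 x y⟩, rfl⟩

theorem isSc_of_LinC [Finite K] (r : ℕ) (hrp : r.Prime) (hr : r ∣ Nat.card K * (Nat.card K - 1))
    (hm : ¬ r ∣ finrank K S) (g : autotopismGroup S) (hg : g ∈ LinC S) (k : ℕ)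
    (hk : g ^ (r ^ k) = 1) : ∃ t : LG K S, toAut t = g.1 ∧ IsSc t := by
  obtain ⟨t, ht⟩ := exists_LG K g hg
  refine ⟨t, ht, scalar_of_prime r hrp hr hm t k ?_⟩
  apply toAut_injective
  rw [map_pow, ht, map_one]
  exact congrArg Subtype.val hk

theorem central_of_LinC [Finite K] (r : ℕ) (hrp : r.Prime) (hr : r ∣ Nat.card K * (Nat.card K - 1))
    (hm : ¬ r ∣ finrank K S) (g : autotopismGroup S) (hg : g ∈ LinC S) (k : ℕ)
    (hk : g ^ (r ^ k) = 1) (c : autotopismGroup S) (hc : c ∈ LinC S) : g * c = c * g := by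
  obtain ⟨t, ht, hsc⟩ := isSc_of_LinC K r hrp hr hm g hg k hk
  obtain ⟨s, hs⟩ := exists_LG K c hc
  apply Subtype.ext
  show g.1 * c.1 = c.1 * g.1
  rw [← ht, ← hs, ← map_mul, ← map_mul, isSc_central t hsc s]

omit [Finite S] [NoZeroDivisors S] [Nontrivial S] in
theorem Zc_elem (s : autotopismGroup S) (hs : s ∈ Zc S) : ∃ z ∈ Subring.center S, ∀ x,
    s.1.1 x = z * x ∧ s.1.2.1 x = x ∧ s.1.2.2 x = z * x := by
  obtain ⟨h1, h2⟩ := hs
  have h3 := mem_pV_ker s h1
  have h4 := fun x => Zc_first_eq_third s h1 x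
  have hl : ∀ x y, s.1.1 x * y = s.1.1 (x * y) := by
    intro x y
    have := s.2.2.2.2 x y
    rwa [h3, ← h4] at this
  have e1 : ∀ x, s.1.1 x = s.1.1 1 * x := by
    intro x
    have := hl 1 x
    rw [one_mul] at this; exact this.symm
  have e2 : ∀ x, s.1.1 x = x * s.1.1 1 := by
    intro x
    have := h2 x 1
    rwa [mul_one] at this
  refine ⟨s.1.1 1, ⟨fun a => ?_, fun b c => ?_, fun a b => ?_⟩, fun x => ⟨e1 x, h3 x, ?_⟩⟩
  · show s.1.1 1 * a = a * s.1.1 1
    rw [← e1, ← e2]
  · rw [← e1, ← e1, hl]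
  · rw [← e2, ← e2, h2]
  · rw [← h4, e1]

omit [Finite S] [NoZeroDivisors S] [Nontrivial S] in
theorem mem_LinC_of_linear (t : autotopismGroup S)
    (h : ∀ z ∈ Subring.center S, ∀ x, t.1.1 (z * x) = z * t.1.1 x ∧ t.1.2.2 (z * x) = z * t.1.2.2 x) :
    t ∈ LinC S := by
  rw [mem_LinC]
  intro s hs
  obtain ⟨z, hz, hzs⟩ := Zc_elem s hs
  apply Subtype.ext
  refine Prod.ext (Equiv.ext fun x => ?_) (Prod.ext (Equiv.ext fun x => ?_) (Equiv.ext fun x => ?_))
  · show t.1.1 (s.1.1 x) = s.1.1 (t.1.1 x)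
    rw [(hzs x).1, (hzs _).1, (h z hz x).1]
  · show t.1.2.1 (s.1.2.1 x) = s.1.2.1 (t.1.2.1 x)
    rw [(hzs x).2.1, (hzs _).2.1]
  · show t.1.2.2 (s.1.2.2 x) = s.1.2.2 (t.1.2.2 x)
    rw [(hzs x).2.2, (hzs _).2.2, (h z hz x).2]

omit [Finite S] [NoZeroDivisors S] [Nontrivial S] in
theorem smul_one_mem_center (k : K) : k • (1 : S) ∈ Subring.center S := by
  refine ⟨fun a => ?_, fun b c => ?_, fun a b => ?_⟩
  · show (k • (1 : S)) * a = a * (k • (1 : S))
    rw [smul_mul_assoc, one_mul, mul_smul_comm, mul_one]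
  · rw [smul_mul_assoc, one_mul, smul_mul_assoc, one_mul, smul_mul_assoc]
  · rw [mul_smul_comm, mul_one, mul_smul_comm, mul_one, mul_smul_comm]

end Sem

end Pool.Agent.Lib_MP_4776c2
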