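import Mathlib

set_option autoImplicit false

namespace Pool.Agent.Lib_MP_4776c2

section Two

variable {G : Type*} [Group G] [Finite G]

theorem norm_of_conj_mem (y : G) (R : Subgroup G) (h : ∀ g ∈ R, y * g * y⁻¹ ∈ R) :
    y ∈ Subgroup.normalizer (R : Set G) := by
  have hmap : R.map (MulAut.conj y).toMonoidHom ≤ R := by
    rintro _ ⟨z, hz, rfl⟩
    exact h z hz
  have heq : R.map (MulAut.conj y).toMonoidHom = R := by
    apply Subgroup.eq_of_le_of_card_ge hmap
    rw [Subgroup.card_map_of_injective (MulAut.conj y).injective]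
  rw [Subgroup.mem_normalizer_iff]
  intro g
  constructor
  · intro hg
    exact h g hg
  · intro hg
    rw [← heq] at hg
    obtain ⟨w, hw, hwh⟩ := hg
    have : w = g := (MulAut.conj y).injective hwh
    rwa [this] at hw

omit [Finite G] in
/-- In a minimal situation, proper invariant normal subgroups are central. -/
theorem central_of_lt (y : G) (R : Subgroup G)
    (hgen : R = Subgroup.closure {z | ∃ g ∈ R, z = y * g * y⁻¹ * g⁻¹})
    (D : Subgroup G) (hDn : ∀ g ∈ R, ∀ d ∈ D, g * d * g⁻¹ ∈ D) (hDy : ∀ d ∈ D, y * d = d * y) :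
    ∀ g ∈ R, ∀ d ∈ D, g * d = d * g := by
  have hle : R ≤ Subgroup.centralizer (D : Set G) := by
    conv_lhs => rw [hgen]
    rw [Subgroup.closure_le]
    rintro z ⟨g, hg, rfl⟩
    rw [SetLike.mem_coe, Subgroup.mem_centralizer_iff]
    intro d hd
    have h1 : g⁻¹ * d * g ∈ D := by
      have := hDn g⁻¹ (R.inv_mem hg) d hd
      rwa [inv_inv] at this
    have h2 := hDy _ h1
    have h3 := hDy _ hd
    -- (y g y⁻¹ g⁻¹) d = d (y g y⁻¹ g⁻¹)
    calc d * (y * g * y⁻¹ * g⁻¹) = (d * y) * g * y⁻¹ * g⁻¹ := by group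
      _ = (y * d) * g * y⁻¹ * g⁻¹ := by rw [h3]
      _ = y * g * ((g⁻¹ * d * g) * y⁻¹) * g⁻¹ := by group
      _ = y * g * (y⁻¹ * (y * (g⁻¹ * d * g)) * y⁻¹) * g⁻¹ := by group
      _ = y * g * (y⁻¹ * ((g⁻¹ * d * g) * y) * y⁻¹) * g⁻¹ := by rw [h2]
      _ = y * g * y⁻¹ * g⁻¹ * d := by group
  intro g hg d hd
  exact ((Subgroup.mem_centralizer_iff.1 (hle hg)) d hd).symm

/-- The fixed points of an element of order a power of `r` acting on a `2`-group. -/
theorem modEq_card (r : ℕ) [Fact r.Prime] (y : G) (k : ℕ) (hyk : y ^ (r ^ k) = 1)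
    (R : Subgroup G) (hy : y ∈ Subgroup.normalizer (R : Set G)) :
    Nat.card R ≡ Nat.card (R ⊓ Subgroup.centralizer {y} : Subgroup G) [MOD r] := by
  classical
  have := Fintype.ofFinite R
  let f : Function.End R := fun x => ⟨y * x.1 * y⁻¹, (Subgroup.mem_normalizer_iff.1 hy x.1).1 x.2⟩
  have hfn : ∀ n : ℕ, ∀ x : R, ((f ^ n : Function.End R) x).1 = y ^ n * x.1 * (y ^ n)⁻¹ := by
    intro n
    induction n with
    | zero =>
      intro x
      show x.1 = y ^ 0 * x.1 * (y ^ 0)⁻¹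
      simp
    | succ n ih =>
      intro x
      rw [pow_succ]
      show ((f ^ n : Function.End R) (f x)).1 = _
      rw [ih]
      show y ^ n * (y * x.1 * y⁻¹) * (y ^ n)⁻¹ = _
      rw [pow_succ]; group
  have hf : f ^ r ^ k = 1 := by
    funext x
    apply Subtype.ext
    rw [hfn, hyk]
    show 1 * x.1 * 1⁻¹ = x.1
    group
  have h1 := Equiv.Perm.card_fixedPoints_modEq (p := r) (n := k) hf
  have h2 : Nat.card (R ⊓ Subgroup.centralizer {y} : Subgroup G) = Fintype.card (Function.fixedPoints f) := by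
    rw [← Nat.card_eq_fintype_card]
    refine Nat.card_congr ⟨fun x => ⟨⟨x.1, x.2.1⟩, ?_⟩, fun x => ⟨x.1.1, ?_⟩, fun x => rfl, fun x => rfl⟩
    · apply Subtype.ext
      show y * x.1 * y⁻¹ = x.1
      have h3 := (Subgroup.mem_centralizer_iff.1 x.2.2) y rfl
      rw [h3]; group
    · refine Subgroup.mem_inf.2 ⟨x.1.2, ?_⟩
      rw [Subgroup.mem_centralizer_iff]
      intro w hw
      rw [Set.mem_singleton_iff.1 hw]
      have h3 : y * x.1.1 * y⁻¹ = x.1.1 := congrArg Subtype.val x.2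
      calc y * x.1.1 = y * x.1.1 * y⁻¹ * y := by group
        _ = x.1.1 * y := by rw [h3]
  rw [h2, Nat.card_eq_fintype_card]
  exact h1

/-- Squares generate a proper subgroup of a nontrivial `2`-group. -/
theorem squares_lt (R : Subgroup G) (hR : IsPGroup 2 R) (hne : R ≠ ⊥) :
    Subgroup.closure {z | ∃ g ∈ R, z = g * g} < R := by
  have h2p : Fact (Nat.Prime 2) := ⟨Nat.prime_two⟩
  obtain ⟨k, hk⟩ := IsPGroup.iff_card.1 hR
  rcases k with _ | k
  · exfalso
    apply hne
    rw [pow_zero] at hk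
    exact Subgroup.card_eq_one.1 hk
  obtain ⟨M, hM⟩ := Sylow.exists_subgroup_card_pow_prime (G := R) 2 (n := k)
    (by rw [hk]; exact pow_dvd_pow 2 (Nat.le_succ k))
  have hidx : M.index = 2 := by
    have h1 := M.card_mul_index
    rw [hM, hk, pow_succ] at h1
    exact Nat.eq_of_mul_eq_mul_left (pow_pos two_pos k) h1
  have hle : Subgroup.closure {z | ∃ g ∈ R, z = g * g} ≤ M.map R.subtype := by
    rw [Subgroup.closure_le]
    rintro z ⟨g, hg, rfl⟩
    exact ⟨⟨g, hg⟩ * ⟨g, hg⟩, Subgroup.mul_self_mem_of_index_two hidx _, rfl⟩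
  have hlt : M.map R.subtype < R := by
    apply lt_of_le_of_ne (Subgroup.map_subtype_le M)
    intro heq
    have h1 : Nat.card (M.map R.subtype) = Nat.card M :=
      Subgroup.card_map_of_injective (Subgroup.subtype_injective R)
    rw [heq, hk, hM, pow_succ] at h1
    have := pow_pos (two_pos (α := ℕ)) k
    omega
  exact lt_of_le_of_lt hle hlt

/-- The structure of a minimal `2`-group on which `y` acts nontrivially. -/
theorem minimal_structure (r : ℕ) [Fact r.Prime] (hr2 : r ≠ 2) (y : G) (k : ℕ) (hyk : y ^ (r ^ k) = 1)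
    (R : Subgroup G) (hR : IsPGroup 2 R) (hy : y ∈ Subgroup.normalizer (R : Set G))
    (hgen : R = Subgroup.closure {z | ∃ g ∈ R, z = y * g * y⁻¹ * g⁻¹})
    (ih : ∀ R1 : Subgroup G, R1 < R → y ∈ Subgroup.normalizer (R1 : Set G) → ∀ x ∈ R1, y * x = x * y)
    (hne : ¬ ∀ x ∈ R, y * x = x * y) :
    ∃ C : Subgroup G, C ≤ R ∧ (∀ x ∈ R, y * x = x * y → x ∈ C) ∧ (∀ c ∈ C, y * c = c * y) ∧
      (∀ g ∈ R, g * g ∈ C) ∧ (∀ g ∈ R, ∀ h ∈ R, g * h * g⁻¹ * h⁻¹ ∈ C) ∧
      (∀ g ∈ R, ∀ c ∈ C, g * c = c * g) ∧ (∀ c ∈ C, c * c = 1) ∧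
      ((∀ g ∈ R, ∀ h ∈ R, g * h = h * g) → C = ⊥) ∧
      (∀ n, Nat.card R = 2 ^ n * Nat.card C → r ∣ 2 ^ n - 1) := by
  have h2p : Fact (Nat.Prime 2) := ⟨Nat.prime_two⟩
  have hconj : ∀ g ∈ R, y * g * y⁻¹ ∈ R := fun g hg => (Subgroup.mem_normalizer_iff.1 hy g).1 hg
  have hRne : R ≠ ⊥ := by
    rintro rfl
    apply hne
    intro x hx
    rw [Subgroup.mem_bot.1 hx, mul_one, one_mul]
  set Sq : Subgroup G := Subgroup.closure {z | ∃ g ∈ R, z = g * g} with hSq
  have hSqlt : Sq < R := squares_lt R hR hRne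
  have hSqy : ∀ d ∈ Sq, y * d = d * y := by
    apply ih Sq hSqlt
    apply norm_of_conj_mem
    intro d hd
    induction hd using Subgroup.closure_induction with
    | mem z hz =>
      obtain ⟨g, hg, rfl⟩ := hz
      apply Subgroup.subset_closure
      exact ⟨y * g * y⁻¹, hconj g hg, by group⟩
    | one =>
      rw [mul_one, mul_inv_cancel]; exact Sq.one_mem
    | mul a b _ _ ha hb =>
      have : y * (a * b) * y⁻¹ = (y * a * y⁻¹) * (y * b * y⁻¹) := by group
      rw [this]; exact Sq.mul_mem ha hb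
    | inv a _ ha =>
      have : y * a⁻¹ * y⁻¹ = (y * a * y⁻¹)⁻¹ := by group
      rw [this]; exact Sq.inv_mem ha
  set C : Subgroup G := R ⊓ Subgroup.centralizer {y} with hC
  have hCR : C ≤ R := inf_le_left
  have hCof : ∀ x ∈ R, y * x = x * y → x ∈ C := by
    intro x hx h
    refine Subgroup.mem_inf.2 ⟨hx, ?_⟩
    rw [Subgroup.mem_centralizer_iff]
    intro w hw
    rw [Set.mem_singleton_iff.1 hw]; exact h
  have hCy : ∀ c ∈ C, y * c = c * y := by
    intro c hc
    exact (Subgroup.mem_centralizer_iff.1 (Subgroup.mem_inf.1 hc).2) y rfl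
  have hsqSq : ∀ g ∈ R, g * g ∈ Sq := fun g hg => Subgroup.subset_closure ⟨g, hg, rfl⟩
  have hcomSq : ∀ g ∈ R, ∀ h ∈ R, g * h * g⁻¹ * h⁻¹ ∈ Sq := by
    intro g hg h hh
    have e : g * h * g⁻¹ * h⁻¹ = ((g * h) * (g * h)) * ((h⁻¹ * g⁻¹ * h) * (h⁻¹ * g⁻¹ * h)) *
        (h⁻¹ * h⁻¹) := by group
    rw [e]
    exact Sq.mul_mem (Sq.mul_mem (hsqSq _ (R.mul_mem hg hh))
      (hsqSq _ (R.mul_mem (R.mul_mem (R.inv_mem hh) (R.inv_mem hg)) hh))) (hsqSq _ (R.inv_mem hh))
  have hSqC : Sq ≤ C := fun d hd => hCof d (hSqlt.le hd) (hSqy d hd)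
  have hCcen : ∀ g ∈ R, ∀ c ∈ C, g * c = c * g := by
    apply central_of_lt y R hgen C _ hCy
    intro g hg c hc
    have e : g * c * g⁻¹ = (g * c * g⁻¹ * c⁻¹) * c := by group
    rw [e]
    exact C.mul_mem (hSqC (hcomSq g hg c (hCR hc))) hc
  -- commutators have order at most two
  have hcom2 : ∀ g ∈ R, ∀ h ∈ R, (g * h * g⁻¹ * h⁻¹) * (g * h * g⁻¹ * h⁻¹) = 1 := by
    intro g hg h hh
    set c := g * h * g⁻¹ * h⁻¹ with hc
    have hcC : c ∈ C := hSqC (hcomSq g hg h hh)
    have h1 := hCcen g hg c hcC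
    have h3 : g * h * g⁻¹ = c * h := by rw [hc]; group
    have h4 : (g * g) * h = h * (g * g) := (hCcen h hh (g * g) (hSqC (hsqSq g hg))).symm
    have h5 : (g * g) * h * (g * g)⁻¹ = (c * c) * h := by
      calc (g * g) * h * (g * g)⁻¹ = g * (g * h * g⁻¹) * g⁻¹ := by group
        _ = g * (c * h) * g⁻¹ := by rw [h3]
        _ = (g * c) * h * g⁻¹ := by group
        _ = (c * g) * h * g⁻¹ := by rw [h1]
        _ = c * (g * h * g⁻¹) := by group
        _ = (c * c) * h := by rw [h3]; group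
    rw [h4] at h5
    have h6 : 1 * h = (c * c) * h := by rw [← h5]; group
    exact (mul_right_cancel h6).symm
  -- `C` is contained in the derived subgroup
  let α : R →* R :=
    { toFun := fun x => ⟨y * x.1 * y⁻¹, hconj x.1 x.2⟩
      map_one' := Subtype.ext (by simp)
      map_mul' := fun a b => Subtype.ext (by
        show y * (a.1 * b.1) * y⁻¹ = (y * a.1 * y⁻¹) * (y * b.1 * y⁻¹)
        group) }
  let δ : R →* Abelianization R := (Abelianization.of.comp α) / Abelianization.of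
  have hδ : ∀ x : R, δ x = Abelianization.of (α x * x⁻¹) := by
    intro x
    show Abelianization.of (α x) / Abelianization.of x = _
    rw [map_mul, map_inv, div_eq_mul_inv]
  have hkerle : commutator R ≤ δ.ker := Abelianization.commutator_subset_ker δ
  let δ' : Abelianization R →* Abelianization R := Abelianization.lift δ
  have hδ' : ∀ x : R, δ' (Abelianization.of x) = δ x := fun x => Abelianization.lift_apply_of δ x
  have hsurj : Function.Surjective δ' := by
    let H : Subgroup R := δ'.range.comap Abelianization.of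
    have hH : H = ⊤ := by
      have h1 : R ≤ H.map R.subtype := by
        conv_lhs => rw [hgen]
        rw [Subgroup.closure_le]
        rintro z ⟨g, hg, rfl⟩
        refine ⟨α ⟨g, hg⟩ * ⟨g, hg⟩⁻¹, ?_, rfl⟩
        show Abelianization.of _ ∈ δ'.range
        exact ⟨Abelianization.of ⟨g, hg⟩, by rw [hδ', hδ]⟩
      rw [eq_top_iff]
      intro x _
      obtain ⟨w, hw, hwx⟩ := h1 x.2
      have : w = x := Subtype.ext hwx
      rwa [this] at hw
    intro a
    obtain ⟨x, rfl⟩ := QuotientGroup.mk_surjective a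
    have h1 : x ∈ H := by rw [hH]; exact Subgroup.mem_top x
    exact h1
  have hfinAb : Finite (Abelianization R) := inferInstance
  have hinj : Function.Injective δ' := Finite.injective_iff_surjective.2 hsurj
  have hCcomm : ∀ c (hc : c ∈ C), (⟨c, hCR hc⟩ : R) ∈ commutator R := by
    intro c hc
    have h1 : δ' (Abelianization.of ⟨c, hCR hc⟩) = 1 := by
      rw [hδ', hδ]
      have : α ⟨c, hCR hc⟩ * (⟨c, hCR hc⟩ : R)⁻¹ = 1 := by
        apply Subtype.ext
        show y * c * y⁻¹ * c⁻¹ = 1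
        rw [hCy c hc]; group
      rw [this, map_one]
    have h3 : Abelianization.of (⟨c, hCR hc⟩ : R) = 1 := hinj (by rw [h1, map_one])
    rw [← Abelianization.ker_of]
    exact h3
  have hcomm_prop : ∀ x ∈ commutator R, x.1 * x.1 = 1 ∧ ∀ g ∈ R, g * x.1 = x.1 * g := by
    intro x hx
    rw [commutator_eq_closure] at hx
    induction hx using Subgroup.closure_induction with
    | mem z hz =>
      obtain ⟨g, h, rfl⟩ := hz
      exact ⟨hcom2 g.1 g.2 h.1 h.2, fun k hk => hCcen k hk _ (hSqC (hcomSq g.1 g.2 h.1 h.2))⟩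
    | one =>
      exact ⟨by simp, fun g _ => by simp⟩
    | mul a b _ _ ha hb =>
      refine ⟨?_, fun g hg => ?_⟩
      · have h1 := hb.2 a.1 a.2
        show (a.1 * b.1) * (a.1 * b.1) = 1
        calc (a.1 * b.1) * (a.1 * b.1) = (a.1 * b.1) * (b.1 * a.1) := by rw [h1]
          _ = a.1 * (b.1 * b.1) * a.1 := by group
          _ = 1 := by rw [hb.1, mul_one, ha.1]
      · show g * (a.1 * b.1) = (a.1 * b.1) * g
        rw [← mul_assoc, ha.2 g hg, mul_assoc, hb.2 g hg, mul_assoc]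
    | inv a _ ha =>
      have h1 : a.1⁻¹ = a.1 := by
        calc a.1⁻¹ = a.1⁻¹ * (a.1 * a.1) := by rw [ha.1, mul_one]
          _ = a.1 := by group
      refine ⟨?_, fun g hg => ?_⟩
      · show a.1⁻¹ * a.1⁻¹ = 1
        rw [h1, ha.1]
      · show g * a.1⁻¹ = a.1⁻¹ * g
        rw [h1, ha.2 g hg]
  refine ⟨C, hCR, hCof, hCy, fun g hg => hSqC (hsqSq g hg), fun g hg h hh => hSqC (hcomSq g hg h hh),
    hCcen, ?_, ?_, ?_⟩
  · intro c hc
    exact (hcomm_prop _ (hCcomm c hc)).1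
  · intro hab
    rw [eq_bot_iff]
    intro c hc
    have h1 := hCcomm c hc
    have h3 : commutator R = ⊥ := by
      rw [commutator_eq_closure, Subgroup.closure_eq_bot_iff]
      rintro _ ⟨g, h, rfl⟩
      apply Subtype.ext
      show g.1 * h.1 * g.1⁻¹ * h.1⁻¹ = 1
      rw [hab g.1 g.2 h.1 h.2]; group
    rw [h3, Subgroup.mem_bot] at h1
    exact Subgroup.mem_bot.2 (congrArg Subtype.val h1)
  · intro n hn
    have hrp : r.Prime := Fact.out
    have h1 := modEq_card r y k hyk R hy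
    rw [← hC, hn] at h1
    have hCp : IsPGroup 2 C := hR.to_le hCR
    obtain ⟨j, hj⟩ := IsPGroup.iff_card.1 hCp
    have hcop : Nat.Coprime r (Nat.card C) := by
      rw [hj]
      exact Nat.Coprime.pow_right _ ((Nat.coprime_primes hrp Nat.prime_two).2 hr2)
    have h3 : 2 ^ n ≡ 1 [MOD r] := by
      apply Nat.ModEq.cancel_right_of_coprime hcop
      rw [one_mul]; exact h1
    exact (Nat.modEq_iff_dvd' (Nat.one_le_two_pow)).1 h3.symm

end Two

end Pool.Agent.Lib_MP_4776c2
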