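import Pool.Agent.Lib_MP_4776c2.Cliff
import Pool.Agent.Lib_MP_4776c2.Two
import Pool.Agent.Lib_MP_4776c2.Frob2

set_option autoImplicit false

namespace Pool.Agent.Lib_MP_4776c2

universe u v w

open Module

section Step

variable {K : Type v} [Field K]

/-- `clifford` over a field that need not be algebraically closed. -/
theorem clifford_K (h2 : (2 : K) ≠ 0) {V : Type u} [AddCommGroup V] [Module K V]
    [FiniteDimensional K V] {R : Type w} [Group R] [Finite R] (hpos : 0 < finrank K V)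
    (ρ : R →* End K V) (hcom : ∀ g h, ρ g * ρ h = ρ h * ρ g ∨ ρ g * ρ h = -(ρ h * ρ g))
    (hsq : ∀ g, ∃ c : K, ρ (g * g) = c • (1 : End K V)) :
    ∃ a : ℕ, Nat.card R = 4 ^ a * Nat.card (rad ρ) ∧ 2 ^ a ∣ finrank K V := by
  let L := AlgebraicClosure K
  let β : End K V →* End L (TensorProduct K L V) := (Module.End.baseChangeHom K L V : End K V →* _)
  have h2L : (2 : L) ≠ 0 := by
    intro h
    apply h2
    have : algebraMap K L 2 = 0 := by rw [map_ofNat]; exact h
    exact (map_eq_zero (algebraMap K L)).1 this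
  have hneg : ∀ A : End K V, β (-A) = -β A := fun A => map_neg (Module.End.baseChangeHom K L V) A
  have hinv : ∀ k : R, ρ k * ρ k⁻¹ = 1 := fun k => by rw [← map_mul, mul_inv_cancel, map_one]
  obtain ⟨a, ha, had⟩ := clifford h2L (finrank K V) (TensorProduct K L V) R finrank_baseChange hpos
    (β.comp ρ) (by
      intro g h
      show β (ρ g) * β (ρ h) = β (ρ h) * β (ρ g) ∨ β (ρ g) * β (ρ h) = -(β (ρ h) * β (ρ g))
      rcases hcom g h with he | he
      · left
        rw [← map_mul, he, map_mul]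
      · right
        rw [← map_mul, he, hneg, map_mul]) (by
      intro g
      obtain ⟨c, hc⟩ := hsq g
      refine ⟨algebraMap K L c, ?_⟩
      show β (ρ (g * g)) = _
      rw [hc]
      have h1 : β (c • (1 : End K V)) = c • (1 : End L (TensorProduct K L V)) := by
        show Module.End.baseChangeHom K L V (c • (1 : End K V)) = _
        rw [map_smul, map_one]
      rw [h1, algebraMap_smul])
  have hrad : rad (β.comp ρ) = rad ρ := by
    ext g
    constructor
    · intro hg h
      rcases hcom g h with he | he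
      · exact he
      · exfalso
        have h1 : β (ρ g) * β (ρ h) = β (ρ h) * β (ρ g) := hg h
        rw [← map_mul, he, hneg, map_mul] at h1
        have h3 : β (ρ h) * β (ρ g) = 0 := by
          have h5 : (2 : L) • (β (ρ h) * β (ρ g)) = 0 := by
            rw [two_smul]; nth_rewrite 1 [← h1]; exact neg_add_cancel (β (ρ h) * β (ρ g))
          exact (smul_eq_zero.1 h5).resolve_left h2L
        have h6 : (1 : End L (TensorProduct K L V)) = 0 := by
          have e1 : β (ρ h) * β (ρ g) * (β (ρ (g⁻¹ * h⁻¹))) = 1 := by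
            rw [← map_mul, ← map_mul, ← map_mul, ← map_mul]
            rw [show h * g * (g⁻¹ * h⁻¹) = 1 by group, map_one, map_one]
          rw [← e1, h3, zero_mul]
        have h7 : Nontrivial (TensorProduct K L V) := by
          apply (finrank_pos_iff (R := L)).1
          rw [finrank_baseChange]; exact hpos
        exact one_ne_zero h6
    · intro hg h
      show β (ρ g) * β (ρ h) = β (ρ h) * β (ρ g)
      rw [← map_mul, hg h, map_mul]
  rw [hrad] at ha
  exact ⟨a, ha, had⟩

/-- The nonabelian case, on a component where the commutators act as signs. -/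
theorem cliff_step {G : Type*} [Group G] [Finite G] {V : Type u} [AddCommGroup V] [Module K V]
    [FiniteDimensional K V] (h2 : (2 : K) ≠ 0) (r : ℕ) (y : G) (R C : Subgroup G) (hCR : C ≤ R)
    (hCof : ∀ x ∈ R, y * x = x * y → x ∈ C) (hsq : ∀ g ∈ R, g * g ∈ C)
    (hcom : ∀ g ∈ R, ∀ h ∈ R, g * h * g⁻¹ * h⁻¹ ∈ C) (hcen : ∀ g ∈ R, ∀ c ∈ C, g * c = c * g)
    (hr : ∀ n, Nat.card R = 2 ^ n * Nat.card C → r ∣ 2 ^ n - 1)
    (ih : ∀ R1 : Subgroup G, R1 < R → y ∈ Subgroup.normalizer (R1 : Set G) → ∀ x ∈ R1, y * x = x * y)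
    (hy : y ∈ Subgroup.normalizer (R : Set G)) (π : G →* (V ≃ₗ[K] V)) (U : Submodule K V)
    (hUR : ∀ g ∈ R, ∀ u ∈ U, π g u ∈ U) (hUy : ∀ u ∈ U, π y⁻¹ u ∈ U)
    (hUpos : 0 < finrank K U) (hsc : ∀ c ∈ C, ∃ ε : K, (ε = 1 ∨ ε = -1) ∧ ∀ u ∈ U, π c u = ε • u)
    (x x' : G) (hx : x ∈ R) (hx' : x' ∈ R) (hxx : ∀ u ∈ U, π (x * x' * x⁻¹ * x'⁻¹) u = -u) :
    ∃ a, 0 < a ∧ 2 ^ a ∣ finrank K U ∧ r ∣ 4 ^ a - 1 := by
  have hUnt : Nontrivial U := (finrank_pos_iff (R := K) (M := U)).1 hUpos
  obtain ⟨u0, hu0⟩ := exists_ne (0 : U)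
  have hu0' : u0.1 ≠ 0 := fun h => hu0 (Subtype.ext h)
  -- the radical over K
  let Rad : Subgroup G :=
    { carrier := {g | g ∈ R ∧ ∀ h ∈ R, ∀ u ∈ U, π g (π h u) = π h (π g u)}
      mul_mem' := by
        rintro a b ⟨ha, ha'⟩ ⟨hb, hb'⟩
        refine ⟨R.mul_mem ha hb, fun h hh u hu => ?_⟩
        rw [map_mul]
        show π a (π b (π h u)) = π h (π a (π b u))
        rw [hb' h hh u hu, ha' h hh _ (hUR b hb u hu)]
      one_mem' := by
        refine ⟨R.one_mem, fun h hh u hu => ?_⟩
        rw [map_one]; rfl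
      inv_mem' := by
        rintro a ⟨ha, ha'⟩
        refine ⟨R.inv_mem ha, fun h hh u hu => ?_⟩
        apply (π a).injective
        have h1 : ∀ z, π a (π a⁻¹ z) = z := by
          intro z
          have : π a * π a⁻¹ = 1 := by rw [← map_mul, mul_inv_cancel, map_one]
          exact LinearEquiv.congr_fun this z
        rw [h1, ha' h hh _ (hUR a⁻¹ (R.inv_mem ha) u hu), h1] }
  have memRad : ∀ g, g ∈ Rad ↔ g ∈ R ∧ ∀ h ∈ R, ∀ u ∈ U, π g (π h u) = π h (π g u) := fun g => Iff.rfl
  have hRadR : Rad ≤ R := fun g hg => hg.1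
  have hCRad : C ≤ Rad := by
    intro c hc
    refine ⟨hCR hc, fun h hh u _ => ?_⟩
    have h1 : π c * π h = π h * π c := by rw [← map_mul, ← map_mul, hcen h hh c hc]
    exact LinearEquiv.congr_fun h1 u
  have swap : ∀ g h : G, ∀ u, π g (π h u) = π (g * h * g⁻¹ * h⁻¹) (π h (π g u)) := by
    intro g h u
    have h1 : π g * π h = π (g * h * g⁻¹ * h⁻¹) * (π h * π g) := by
      rw [← map_mul, ← map_mul, ← map_mul]
      congr 1; group
    exact LinearEquiv.congr_fun h1 u
  have hneg : ∀ z : V, z = -z → z = 0 := by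
    intro z hz
    have h5 : (2 : K) • z = 0 := by
      rw [two_smul]; nth_rewrite 1 [hz]; exact neg_add_cancel _
    exact (smul_eq_zero.1 h5).resolve_left h2
  have hxRad : x ∉ Rad := by
    rintro ⟨-, h1⟩
    have h3 := h1 x' hx' u0.1 u0.2
    rw [swap x x', hxx _ (hUR x' hx' _ (hUR x hx _ u0.2))] at h3
    have h4 := hneg _ h3.symm
    have h5 : π x u0.1 = 0 := (π x').injective (by rw [h4, map_zero])
    exact hu0' ((π x).injective (by rw [h5, map_zero]))
  have hRadlt : Rad < R := lt_of_le_of_ne hRadR (fun h => hxRad (by rw [h]; exact hx))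
  have hyRad : y ∈ Subgroup.normalizer (Rad : Set G) := by
    apply norm_of_conj_mem
    rintro g ⟨hgR, hg⟩
    refine ⟨(Subgroup.mem_normalizer_iff.1 hy g).1 hgR, fun h hh u hu => ?_⟩
    have hh' : y⁻¹ * h * y ∈ R := by
      have h1 := (Subgroup.mem_normalizer_iff.1 ((Subgroup.normalizer (R : Set G)).inv_mem hy) h).1 hh
      rwa [inv_inv] at h1
    have h1 := hg _ hh' _ (hUy u hu)
    have e1 : π (y * g * y⁻¹) (π h u) = π y (π g (π (y⁻¹ * h * y) (π y⁻¹ u))) := by
      have : π (y * g * y⁻¹) * π h = π y * (π g * (π (y⁻¹ * h * y) * π y⁻¹)) := by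
        simp only [← map_mul]
        congr 1; group
      exact LinearEquiv.congr_fun this u
    have e2 : π h (π (y * g * y⁻¹) u) = π y (π (y⁻¹ * h * y) (π g (π y⁻¹ u))) := by
      have : π h * π (y * g * y⁻¹) = π y * (π (y⁻¹ * h * y) * (π g * π y⁻¹)) := by
        simp only [← map_mul]
        congr 1; group
      exact LinearEquiv.congr_fun this u
    rw [e1, e2, h1]
  have hRadC : Rad = C := by
    apply le_antisymm _ hCRad
    intro g hg
    exact hCof g (hRadR hg) (ih Rad hRadlt hyRad g hg)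
  -- base change
  let ρ0 : R →* End K V :=
    { toFun := fun g => (π g.1 : V →ₗ[K] V)
      map_one' := by
        apply LinearMap.ext
        intro z
        show π 1 z = z
        rw [map_one]; rfl
      map_mul' := fun a b => by
        apply LinearMap.ext
        intro z
        show π (a.1 * b.1) z = π a.1 (π b.1 z)
        rw [map_mul]; rfl }
  let ρ : R →* End K U := restrHom ρ0 U (fun g u hu => hUR g.1 g.2 u hu)
  have hρx : ∀ (g : R) (u : U), (ρ g u).1 = π g.1 u.1 := fun g u => rfl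
  obtain ⟨a, ha, had⟩ := clifford_K h2 hUpos ρ (by
      intro g h
      obtain ⟨ε, hε, hεu⟩ := hsc _ (hcom g.1 g.2 h.1 h.2)
      have key : ∀ u : U, π g.1 (π h.1 u.1) = ε • (π h.1 (π g.1 u.1)) := by
        intro u
        rw [swap, hεu _ (hUR h.1 h.2 _ (hUR g.1 g.2 _ u.2))]
      rcases hε with rfl | rfl
      · left
        apply LinearMap.ext
        intro u
        apply Subtype.ext
        show π g.1 (π h.1 u.1) = π h.1 (π g.1 u.1)
        rw [key, one_smul]
      · right
        apply LinearMap.ext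
        intro u
        apply Subtype.ext
        show π g.1 (π h.1 u.1) = -(π h.1 (π g.1 u.1))
        rw [key, neg_smul, one_smul]) (by
      intro g
      obtain ⟨ε, hε, hεu⟩ := hsc _ (hsq g.1 g.2)
      refine ⟨ε, ?_⟩
      apply LinearMap.ext
      intro u
      apply Subtype.ext
      exact hεu u.1 u.2)
  have hcard : Nat.card (rad ρ) = Nat.card C := by
    rw [← hRadC]
    have hmem : ∀ g : R, g ∈ rad ρ ↔ g.1 ∈ Rad := by
      intro g
      constructor
      · intro hg
        refine ⟨g.2, fun h hh u hu => ?_⟩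
        have h1 : ρ g * ρ ⟨h, hh⟩ = ρ ⟨h, hh⟩ * ρ g := hg ⟨h, hh⟩
        exact congrArg Subtype.val (LinearMap.congr_fun h1 ⟨u, hu⟩)
      · rintro ⟨-, hg⟩ h
        apply LinearMap.ext
        intro u
        apply Subtype.ext
        exact hg h.1 h.2 u.1 u.2
    exact Nat.card_congr ⟨fun g => ⟨g.1.1, (hmem g.1).1 g.2⟩,
      fun g => ⟨⟨g.1, hRadR g.2⟩, (hmem _).2 g.2⟩, fun g => rfl, fun g => rfl⟩
  rw [hcard] at ha
  refine ⟨a, ?_, had, ?_⟩
  · rw [Nat.pos_iff_ne_zero]
    rintro rfl
    rw [pow_zero, one_mul] at ha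
    apply hRadlt.ne
    rw [hRadC]
    exact Subgroup.eq_of_le_of_card_ge hCR ha.le
  · have h1 := hr (2 * a) (by rw [ha, pow_mul]; norm_num)
    rw [pow_mul] at h1
    norm_num at h1
    exact h1

end Step

end Pool.Agent.Lib_MP_4776c2
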